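import Mathlib
import Pool.Agent.H437R2.Man.MWWeak

/-! Two-descent on `y² = (x + e1)(x + e2)(x + e3)`: translation by two-torsion and halving. -/

set_option autoImplicit false

open WeierstrassCurve

namespace Pool.Agent.V7H16.XF

open Pool.Agent.H437R2.Man.MW

section

variable {K : Type} [Field K] [CharZero K] [DecidableEq K]

/-- coordinates of `P + (-f1, 0)` -/
lemma add_tors {W : WeierstrassCurve K} {f1 f2 f3 x y : K} (hW : W = crv f1 f2 f3)
    (h : W.toAffine.Nonsingular x y) (hT : W.toAffine.Nonsingular (-f1) 0) (hy : y ≠ 0) :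
    ∃ (X Y : K) (hX : W.toAffine.Nonsingular X Y),
      Affine.Point.some x y h + Affine.Point.some (-f1) 0 hT = Affine.Point.some X Y hX ∧
      X + f1 = (f2 - f1) * (f3 - f1) / (x + f1) ∧ X + f2 = (f2 - f1) * (x + f3) / (x + f1) ∧
      X + f3 = (f3 - f1) * (x + f2) / (x + f1) := by
  subst hW
  have q := crv_eqn.mp h.1
  have hx1 : x + f1 ≠ 0 := by
    intro h0
    apply hy
    have : y ^ 2 = 0 := by rw [q, h0]; ring
    exact pow_eq_zero_iff (two_ne_zero) |>.1 this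
  have hx : x ≠ -f1 := fun h0 => hx1 (by rw [h0]; ring)
  refine ⟨_, _, _, Affine.Point.add_of_X_ne hx, ?_, ?_, ?_⟩
  all_goals
    rw [Affine.slope_of_X_ne hx, Affine.addX]
    simp only [crv, sub_zero, sub_neg_eq_add]
    field_simp
    linear_combination q

/-- if `P` has the class of the two-torsion point `(-f1, 0)` ... in terms of the translate -/
lemma half_of {W : WeierstrassCurve K} {f1 f2 f3 x y r1 r2 r3 : K} (hW : W = crv f1 f2 f3)
    (h12 : f1 ≠ f2) (h13 : f1 ≠ f3) (h23 : f2 ≠ f3)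
    (hr1 : x + f1 = r1 ^ 2) (hr2 : x + f2 = r2 ^ 2) (hr3 : x + f3 = r3 ^ 2)
    (h : W.toAffine.Nonsingular x y) :
    ∃ Q : W.toAffine.Point, Q + Q = Affine.Point.some x y h := by
  subst hW
  exact halve h12 h13 h23 hr1 hr2 hr3 h

lemma crv_swap12 (e1 e2 e3 : K) : crv e1 e2 e3 = crv e2 e1 e3 := by
  unfold crv
  congr 1 <;> ring

lemma crv_swap13 (e1 e2 e3 : K) : crv e1 e2 e3 = crv e3 e2 e1 := by
  unfold crv
  congr 1 <;> ring

/-- a two-torsion point -/
lemma two_tors {W : WeierstrassCurve K} {f1 f2 f3 : K} (hW : W = crv f1 f2 f3)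
    (hT : W.toAffine.Nonsingular (-f1) 0) :
    Affine.Point.some (-f1) 0 hT + Affine.Point.some (-f1) 0 hT = 0 := by
  subst hW
  apply Affine.Point.add_of_Y_eq rfl
  simp [Affine.negY, crv]

/-- one translation step of the descent -/
lemma step {W : WeierstrassCurve K} {f1 f2 f3 x y : K} (hW : W = crv f1 f2 f3)
    (h12 : f1 ≠ f2) (h13 : f1 ≠ f3) (h23 : f2 ≠ f3)
    (Sq : K → Prop)
    (hS : ∀ x' y' : K, y' ≠ 0 → y' ^ 2 = (x' + f1) * (x' + f2) * (x' + f3) → Sq x' →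
      ∃ r1 r2 r3 : K, x' + f1 = r1 ^ 2 ∧ x' + f2 = r2 ^ 2 ∧ x' + f3 = r3 ^ 2)
    (h : W.toAffine.Nonsingular x y) (hy : y ≠ 0)
    (hSx : ∀ X : K, X + f1 = (f2 - f1) * (f3 - f1) / (x + f1) →
      X + f2 = (f2 - f1) * (x + f3) / (x + f1) → X + f3 = (f3 - f1) * (x + f2) / (x + f1) → Sq X) :
    ∃ P Q : W.toAffine.Point, P + P = 0 ∧ Affine.Point.some x y h + P = Q + Q := by
  have hT : W.toAffine.Nonsingular (-f1) 0 := by
    rw [hW]
    apply crv_nonsing h12 h13 h23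
    ring
  obtain ⟨X, Y, hX, e, e1, e2, e3⟩ := add_tors hW h hT hy
  have q : y ^ 2 = (x + f1) * (x + f2) * (x + f3) := by
    subst hW
    exact crv_eqn.mp h.1
  have Q : Y ^ 2 = (X + f1) * (X + f2) * (X + f3) := by
    subst hW
    exact crv_eqn.mp hX.1
  have hy2 : (x + f1) * (x + f2) * (x + f3) ≠ 0 := by
    rw [← q]
    exact pow_ne_zero 2 hy
  have n1 : x + f1 ≠ 0 := fun h0 => hy2 (by rw [h0]; ring)
  have n2 : x + f2 ≠ 0 := fun h0 => hy2 (by rw [h0]; ring)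
  have n3 : x + f3 ≠ 0 := fun h0 => hy2 (by rw [h0]; ring)
  have s12 : f2 - f1 ≠ 0 := sub_ne_zero.mpr h12.symm
  have s13 : f3 - f1 ≠ 0 := sub_ne_zero.mpr h13.symm
  have hY : Y ≠ 0 := by
    rintro rfl
    have : (X + f1) * (X + f2) * (X + f3) = 0 := by rw [← Q]; ring
    rw [e1, e2, e3] at this
    exact (mul_ne_zero (mul_ne_zero (div_ne_zero (mul_ne_zero s12 s13) n1)
      (div_ne_zero (mul_ne_zero s12 n3) n1)) (div_ne_zero (mul_ne_zero s13 n2) n1)) this
  obtain ⟨r1, r2, r3, k1, k2, k3⟩ := hS X Y hY Q (hSx X e1 e2 e3)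
  obtain ⟨R, hR⟩ := half_of hW h12 h13 h23 k1 k2 k3 hX
  exact ⟨_, R, two_tors hW hT, by rw [e, hR]⟩

end

/-- finiteness from a descent -/
theorem finite_of_descent {A : Type} [AddCommGroup A] (hfg : AddGroup.FG A) (n : ℤ) (hn : n ≠ 0)
    (h : ∀ P : A, ∃ Q : A, n • P = (2 * n) • Q) : Finite A := by
  have hfin : Module.Finite ℤ A := Module.Finite.iff_addGroup_fg.mpr hfg
  let N : Submodule ℤ A := LinearMap.range (LinearMap.lsmul ℤ A n)
  have hN : N.FG := IsNoetherian.noetherian N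
  obtain ⟨r, hr1, hr⟩ := Submodule.exists_sub_one_mem_and_smul_eq_zero_of_fg_of_le_smul
    (Ideal.span {(2 : ℤ)}) N hN (by
      rintro q ⟨P, rfl⟩
      obtain ⟨Q, hQ⟩ := h P
      change n • P ∈ _
      rw [hQ, mul_smul]
      exact Submodule.smul_mem_smul (Ideal.mem_span_singleton_self _) ⟨Q, rfl⟩)
  have hr0 : r ≠ 0 := by
    rintro rfl
    rw [Ideal.mem_span_singleton] at hr1
    norm_num at hr1
  refine AddCommGroup.finite_of_fg_torsion A (fun S => ?_)
  rw [isOfFinAddOrder_iff_zsmul_eq_zero]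
  refine ⟨r * n, mul_ne_zero hr0 hn, ?_⟩
  rw [mul_smul]
  exact hr _ ⟨S, rfl⟩

end Pool.Agent.V7H16.XF
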