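import Mathlib
import Pool.Agent.V7H16.XF.Desc
import Pool.Agent.Q286.EQ.MW

/-! From `ℚ` to an imaginary quadratic field. -/

set_option autoImplicit false

open WeierstrassCurve

namespace Pool.Agent.V7H16.XF

open Pool.Agent.H437R2.Man.MW

section

variable {K : Type} [Field K] [NumberField K] [DecidableEq K]

/-- a point with rational coordinates is torsion when the curve has finitely many rational points -/
lemma rat_tors (W : WeierstrassCurve ℚ) (hf : Finite (W.baseChange ℚ).toAffine.Point)
    {x y : K} (h : (W.baseChange K).toAffine.Nonsingular x y)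
    (hx : ∃ x0 : ℚ, algebraMap ℚ K x0 = x) (hy : ∃ y0 : ℚ, algebraMap ℚ K y0 = y) :
    IsOfFinAddOrder (Affine.Point.some x y h : (W.baseChange K).toAffine.Point) := by
  obtain ⟨x0, rfl⟩ := hx
  obtain ⟨y0, rfl⟩ := hy
  have h0 : (W.baseChange ℚ).toAffine.Nonsingular x0 y0 :=
    (Affine.baseChange_nonsingular (W := W.toAffine)
      (hf := (Algebra.ofId ℚ K).injective) (x := x0) (y := y0)).1 h
  have e : (Affine.Point.some (algebraMap ℚ K x0) (algebraMap ℚ K y0) h :
      (W.baseChange K).toAffine.Point) =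
      Affine.Point.map (W' := W.toAffine) (Algebra.ofId ℚ K) (Affine.Point.some x0 y0 h0) := rfl
  rw [e]
  exact (Affine.Point.map (W' := W.toAffine) (Algebra.ofId ℚ K)).isOfFinAddOrder
    (isOfFinAddOrder_of_finite _)

/-- the conjugation of an imaginary quadratic field -/
lemma exists_conj (h2 : Module.finrank ℚ K = 2) {d : ℕ} (hd : 0 < d) {s : K}
    (hs : s ^ 2 = -(d : K)) :
    ∃ σ : K →ₐ[ℚ] K, σ s = -s ∧ (∀ x, σ (σ x) = x) ∧
      (∀ x, σ x = x → ∃ x0 : ℚ, algebraMap ℚ K x0 = x) := by
  classical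
  have hq : Algebra.IsQuadraticExtension ℚ K := ⟨h2⟩
  have hG : IsGalois ℚ K := inferInstance
  have hcard : Nat.card (K ≃ₐ[ℚ] K) = 2 := by rw [IsGalois.card_aut_eq_finrank, h2]
  have hfin : Finite (K ≃ₐ[ℚ] K) := Nat.finite_of_card_ne_zero (by rw [hcard]; norm_num)
  have hbot : ∀ x : K, (∀ f : K ≃ₐ[ℚ] K, f x = x) → ∃ x0 : ℚ, algebraMap ℚ K x0 = x := by
    intro x hx
    have := (IsGalois.mem_bot_iff_fixed (F := ℚ) x).2 hx
    rw [IntermediateField.mem_bot] at this
    exact this
  have hns : ∃ σ : K ≃ₐ[ℚ] K, σ s ≠ s := by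
    by_contra hall
    push Not at hall
    obtain ⟨q, hq⟩ := hbot s hall
    have h3 : algebraMap ℚ K (q ^ 2) = algebraMap ℚ K (-(d : ℚ)) := by
      rw [map_pow, hq, hs]
      simp
    have h4 := (algebraMap ℚ K).injective h3
    have hdq : (0 : ℚ) < d := by exact_mod_cast hd
    nlinarith [sq_nonneg q]
  obtain ⟨σ, hσ⟩ := hns
  have hσ1 : σ ≠ 1 := by
    rintro rfl
    exact hσ rfl
  have hall : ∀ τ : K ≃ₐ[ℚ] K, τ = 1 ∨ τ = σ := by
    intro τ
    by_contra hτ
    push Not at hτ
    have := Fintype.ofFinite (K ≃ₐ[ℚ] K)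
    have h3 : ({1, σ, τ} : Finset (K ≃ₐ[ℚ] K)).card = 3 := by
      rw [Finset.card_insert_of_notMem, Finset.card_insert_of_notMem, Finset.card_singleton]
      · simp only [Finset.mem_singleton]
        exact fun h => hτ.2 h.symm
      · simp only [Finset.mem_insert, Finset.mem_singleton]
        rintro (h | h)
        · exact hσ1 h.symm
        · exact hτ.1 h.symm
    have h4 := Finset.card_le_univ ({1, σ, τ} : Finset (K ≃ₐ[ℚ] K))
    rw [h3, ← Nat.card_eq_fintype_card, hcard] at h4
    omega
  have hσs : σ s = -s := by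
    have h3 : (σ s) ^ 2 = s ^ 2 := by
      rw [← map_pow, hs, map_neg, map_natCast]
    rcases sq_eq_sq_iff_eq_or_eq_neg.mp h3 with h | h
    · exact absurd h hσ
    · exact h
  have hσσ : σ * σ = 1 := by
    rcases hall (σ * σ) with h | h
    · exact h
    · exact absurd (mul_left_cancel (h.trans (mul_one σ).symm)) hσ1
  refine ⟨σ.toAlgHom, hσs, fun x => ?_, fun x hx => ?_⟩
  · have := congrArg (fun f : K ≃ₐ[ℚ] K => f x) hσσ
    exact this
  · apply hbot
    intro f
    rcases hall f with h | h
    · rw [h]; rfl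
    · rw [h]; exact hx

lemma base_crv (e1 e2 e3 : ℚ) : (crv e1 e2 e3).baseChange K =
    crv (algebraMap ℚ K e1) (algebraMap ℚ K e2) (algebraMap ℚ K e3) := by
  apply WeierstrassCurve.ext
  · exact map_zero _
  · change algebraMap ℚ K (e1 + e2 + e3) = _
    rw [map_add, map_add]; rfl
  · exact map_zero _
  · change algebraMap ℚ K (e1 * e2 + e1 * e3 + e2 * e3) = _
    rw [map_add, map_add, map_mul, map_mul, map_mul]; rfl
  · change algebraMap ℚ K (e1 * e2 * e3) = _
    rw [map_mul, map_mul]; rfl

lemma base_rat (W : WeierstrassCurve ℚ) : W.baseChange ℚ = W := by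
  apply WeierstrassCurve.ext <;> rfl

theorem finite_K (h2 : Module.finrank ℚ K = 2) {d : ℕ} (hd : 0 < d) {s : K}
    (hs : s ^ 2 = -(d : K)) (f1 : Finite (Pt (0 : ℚ) 9 (-16)))
    (f2 : Finite (Pt (0 : ℚ) ((-9 * d : ℤ) : ℚ) ((16 * d : ℤ) : ℚ))) :
    Finite ((crv (0 : ℚ) 9 (-16)).baseChange K).toAffine.Point := by
  obtain ⟨σ, hσs, hσσ, hfix⟩ := exists_conj h2 hd hs
  have hdK : (d : K) ≠ 0 := by exact_mod_cast hd.ne'
  have hs0 : s ≠ 0 := by
    rintro rfl
    apply hdK
    have : (d : K) = -(0 ^ 2) := by rw [hs]; ring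
    rw [this]; ring
  have hdq : (0 : ℚ) < d := by exact_mod_cast hd
  obtain ⟨W, hW⟩ : ∃ W, W = crv (0 : ℚ) 9 (-16) := ⟨_, rfl⟩
  obtain ⟨D, hD⟩ : ∃ D, D = crv (0 : ℚ) ((-9 * d : ℤ) : ℚ) ((16 * d : ℤ) : ℚ) := ⟨_, rfl⟩
  have g1 : Finite (W.baseChange ℚ).toAffine.Point := by rw [base_rat, hW]; exact f1
  have g2 : Finite (D.baseChange ℚ).toAffine.Point := by rw [base_rat, hD]; exact f2
  rw [← hW]
  have hWK : W.baseChange K = crv (0 : K) 9 (-16) := by
    rw [hW, base_crv]
    simp
  have hDK : D.baseChange K = crv (0 : K) (-9 * d) (16 * d) := by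
    rw [hD, base_crv]
    simp
  have hΔ : (W.baseChange K).Δ ≠ 0 := by
    rw [hWK, crv_Δ]
    norm_num
  -- the twist
  have hvr : Pool.Agent.Y700.VR (D.baseChange K) (W.baseChange K) s 0 0 0 := by
    rw [hDK, hWK]
    refine ⟨hs0, ?_, ?_, ?_, ?_, ?_⟩ <;> simp only [crv]
    · ring
    · linear_combination (-7 : K) * hs
    · ring
    · linear_combination (-144 : K) * (s ^ 2 - d) * hs
    · ring
  -- every point is torsion
  have tors : ∀ P : (W.baseChange K).toAffine.Point, IsOfFinAddOrder P := by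
    intro P
    obtain ⟨φ, hφ⟩ : ∃ φ : (W.baseChange K).toAffine.Point →+ (W.baseChange K).toAffine.Point,
        φ = Affine.Point.map (W' := W.toAffine) σ := ⟨_, rfl⟩
    have hφs : ∀ {x y : K} (h : (W.baseChange K).toAffine.Nonsingular x y),
        ∃ h', φ (Affine.Point.some x y h) = Affine.Point.some (σ x) (σ y) h' := by
      intro x y h
      rw [hφ]
      exact ⟨_, Affine.Point.map_some σ h⟩
    have hφφ : ∀ R, φ (φ R) = R := by
      intro R
      match R with
      | 0 => rw [map_zero, map_zero]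
      | .some x y h =>
        obtain ⟨h', e⟩ := hφs h
        rw [e]
        obtain ⟨h'', e'⟩ := hφs h'
        rw [e']
        simp only [Affine.Point.some.injEq]
        exact ⟨hσσ x, hσσ y⟩
    have t1 : ∀ R, φ R = R → IsOfFinAddOrder R := by
      intro R hR
      match R with
      | 0 => exact IsOfFinAddOrder.zero
      | .some x y h =>
        obtain ⟨h', e⟩ := hφs h
        rw [e] at hR
        simp only [Affine.Point.some.injEq] at hR
        exact rat_tors W g1 h (hfix x hR.1) (hfix y hR.2)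
    have t2 : ∀ R, φ R = -R → IsOfFinAddOrder R := by
      intro R hR
      match R with
      | 0 => exact IsOfFinAddOrder.zero
      | .some x y h =>
        obtain ⟨h', e⟩ := hφs h
        rw [e, Affine.Point.neg_some] at hR
        simp only [Affine.Point.some.injEq] at hR
        have hy : (W.baseChange K).toAffine.negY x y = -y := by
          rw [hWK]; simp [Affine.negY, crv]
        rw [hy] at hR
        have key : IsOfFinAddOrder (hvr.equiv hΔ (Affine.Point.some x y h)) := by
          rw [Pool.Agent.Y700.VR.equiv_apply, Pool.Agent.Y700.VR.fn_some]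
          apply rat_tors D g2
          · apply hfix
            rw [map_add, map_mul, map_pow, hσs, hR.1, map_zero]
            ring
          · apply hfix
            simp only [map_add, map_mul, map_pow, hσs, hR.1, hR.2, map_zero]
            ring
        have e2 : Affine.Point.some x y h = (hvr.equiv hΔ).symm (hvr.equiv hΔ (Affine.Point.some x y h)) := by
          rw [AddEquiv.symm_apply_apply]
        rw [e2]
        exact (hvr.equiv hΔ).symm.toAddMonoidHom.isOfFinAddOrder key
    have s1 := t1 (P + φ P) (by rw [map_add, hφφ]; abel)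
    have s2 := t2 (P - φ P) (by rw [map_sub, hφφ]; abel)
    have s3 := s1.add (s2)
    have e3 : P + φ P + (P - φ P) = (2 : ℕ) • P := by rw [two_nsmul]; abel
    rw [e3] at s3
    exact s3.of_nsmul (by norm_num)
  have hfg := Pool.Agent.Q286.EQ.mordell_weil K (W.baseChange K) hΔ
  exact AddCommGroup.finite_of_fg_torsion _ tors

end

end Pool.Agent.V7H16.XF
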