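import Mathlib

/-! Square classes of rational numbers and primitive integer solutions. -/

set_option autoImplicit false

namespace Pool.Agent.V7H16.XF

lemma sq_class (x : ℚ) (hx : x ≠ 0) :
    ∃ (a : ℤ) (r : ℚ), Squarefree a ∧ r ≠ 0 ∧ x = a * r ^ 2 := by
  have hd : (x.den : ℤ) ≠ 0 := by exact_mod_cast x.den_ne_zero
  have hn : x.num * (x.den : ℤ) ≠ 0 := mul_ne_zero (Rat.num_ne_zero.2 hx) hd
  obtain ⟨a, b, hab, ha⟩ := Nat.sq_mul_squarefree (x.num * (x.den : ℤ)).natAbs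
  have hab' : ((b : ℤ) ^ 2 * a) = |x.num * (x.den : ℤ)| := by
    rw [Int.abs_eq_natAbs, ← hab]
    push_cast
    ring
  have hb : b ≠ 0 := by
    rintro rfl
    apply hn
    rw [← Int.natAbs_eq_zero, ← hab]
    simp
  have hxq : x = ((x.num * (x.den : ℤ) : ℤ) : ℚ) / (x.den : ℚ) ^ 2 := by
    have : (x.den : ℚ) ≠ 0 := by exact_mod_cast x.den_ne_zero
    rw [eq_div_iff (pow_ne_zero 2 this)]
    have k := Rat.mul_den_eq_num x
    push_cast
    linear_combination (x.den : ℚ) * k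
  have hdq : (x.den : ℚ) ≠ 0 := by exact_mod_cast x.den_ne_zero
  have hbq : (b : ℚ) ≠ 0 := by exact_mod_cast hb
  rcases abs_choice (x.num * (x.den : ℤ)) with h | h
  · refine ⟨a, b / x.den, Int.squarefree_natCast.2 ha, div_ne_zero hbq hdq, ?_⟩
    rw [h] at hab'
    conv_lhs => rw [hxq, ← hab']
    push_cast
    field_simp
  · refine ⟨-a, b / x.den, by
      rw [← Int.squarefree_natAbs, Int.natAbs_neg, Int.natAbs_natCast]; exact ha, div_ne_zero hbq hdq, ?_⟩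
    rw [h] at hab'
    have h2 : x.num * (x.den : ℤ) = -((b : ℤ) ^ 2 * a) := by rw [hab']; ring
    conv_lhs => rw [hxq, h2]
    push_cast
    field_simp

lemma prim_tuple (r1 r2 r3 : ℚ) : ∃ (z : ℕ) (u v w : ℤ), 0 < z ∧ r1 * z = u ∧ r2 * z = v ∧
    r3 * z = w ∧ ∀ l : ℕ, l.Prime → ¬((l : ℤ) ∣ (z : ℤ) ∧ (l : ℤ) ∣ u ∧ (l : ℤ) ∣ v ∧ (l : ℤ) ∣ w) := by
  classical
  have hex : ∃ z : ℕ, 0 < z ∧ ∃ u v w : ℤ, r1 * z = u ∧ r2 * z = v ∧ r3 * z = w := by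
    refine ⟨r1.den * r2.den * r3.den, by positivity, r1.num * r2.den * r3.den,
      r2.num * r1.den * r3.den, r3.num * r1.den * r2.den, ?_, ?_, ?_⟩
    · have k := Rat.mul_den_eq_num r1
      push_cast
      linear_combination (r2.den : ℚ) * (r3.den : ℚ) * k
    · have k := Rat.mul_den_eq_num r2
      push_cast
      linear_combination (r1.den : ℚ) * (r3.den : ℚ) * k
    · have k := Rat.mul_den_eq_num r3
      push_cast
      linear_combination (r1.den : ℚ) * (r2.den : ℚ) * k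
  obtain ⟨z, hz⟩ : ∃ z, z = Nat.find hex := ⟨_, rfl⟩
  obtain ⟨h0, u, v, w, e1, e2, e3⟩ := Nat.find_spec hex
  rw [← hz] at h0 e1 e2 e3
  refine ⟨z, u, v, w, h0, e1, e2, e3, ?_⟩
  rintro l hl ⟨⟨z', k0⟩, ⟨u', k1⟩, ⟨v', k2⟩, ⟨w', k3⟩⟩
  have hl0 : (l : ℤ) ≠ 0 := by exact_mod_cast hl.ne_zero
  have hlq : (l : ℚ) ≠ 0 := by exact_mod_cast hl.ne_zero
  have hz' : 0 < z' := by
    have h1 : (0 : ℤ) < l * z' := by rw [← k0]; exact_mod_cast h0
    have h2 : (0 : ℤ) < l := by exact_mod_cast hl.pos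
    exact (mul_pos_iff_of_pos_left h2).1 h1
  obtain ⟨m, rfl⟩ := Int.eq_ofNat_of_zero_le hz'.le
  have hm : 0 < m := by exact_mod_cast hz'
  have hzm : z = l * m := by exact_mod_cast k0
  have hlt : m < z := by
    rw [hzm]
    have := hl.two_le
    nlinarith
  rw [hz] at hlt
  apply Nat.find_min hex hlt
  refine ⟨hm, u', v', w', ?_, ?_, ?_⟩
  · apply mul_left_cancel₀ hlq
    rw [k1, hzm] at e1
    push_cast at e1
    linear_combination e1
  · apply mul_left_cancel₀ hlq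
    rw [k2, hzm] at e2
    push_cast at e2
    linear_combination e2
  · apply mul_left_cancel₀ hlq
    rw [k3, hzm] at e3
    push_cast at e3
    linear_combination e3

/-- the integral data attached to a rational point -/
structure Quad (k2 k3 : ℤ) (a b c s u v w z : ℤ) : Prop where
  ha : Squarefree a
  hb : Squarefree b
  hc : Squarefree c
  hs : a * b * c = s ^ 2
  z0 : z ≠ 0
  e12 : a * u ^ 2 + k2 * z ^ 2 = b * v ^ 2
  e13 : a * u ^ 2 + k3 * z ^ 2 = c * w ^ 2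
  pr : ∀ l : ℕ, l.Prime → ¬((l : ℤ) ∣ z ∧ (l : ℤ) ∣ u ∧ (l : ℤ) ∣ v ∧ (l : ℤ) ∣ w)

lemma exists_quad (k2 k3 : ℤ) (x y : ℚ) (hy : y ≠ 0) (h : y ^ 2 = x * (x + k2) * (x + k3)) :
    ∃ a b c s u v w z : ℤ, Quad k2 k3 a b c s u v w z ∧ x = a * ((u : ℚ) / z) ^ 2 ∧
      x + k2 = b * ((v : ℚ) / z) ^ 2 ∧ x + k3 = c * ((w : ℚ) / z) ^ 2 := by
  have hp : x * (x + k2) * (x + k3) ≠ 0 := by
    rw [← h]
    exact pow_ne_zero 2 hy
  have n1 : x ≠ 0 := fun h0 => hp (by rw [h0]; ring)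
  have n2 : x + k2 ≠ 0 := fun h0 => hp (by rw [h0]; ring)
  have n3 : x + k3 ≠ 0 := fun h0 => hp (by rw [h0]; ring)
  obtain ⟨a, r1, ha, m1, e1⟩ := sq_class _ n1
  obtain ⟨b, r2, hb, m2, e2⟩ := sq_class _ n2
  obtain ⟨c, r3, hc, m3, e3⟩ := sq_class _ n3
  obtain ⟨z, u, v, w, hz, f1, f2, f3, hpr⟩ := prim_tuple r1 r2 r3
  have hzq : (z : ℚ) ≠ 0 := by exact_mod_cast hz.ne'
  have hsq : IsSquare (a * b * c) := by
    rw [← Rat.isSquare_intCast_iff]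
    refine ⟨y / (r1 * r2 * r3), ?_⟩
    have hm : r1 * r2 * r3 ≠ 0 := mul_ne_zero (mul_ne_zero m1 m2) m3
    rw [div_mul_div_comm, eq_div_iff (mul_ne_zero hm hm), ← sq y, h, e3, e2]
    conv_rhs => rw [e1]
    push_cast
    ring
  obtain ⟨s, hs⟩ := hsq
  have g1 : r1 = (u : ℚ) / z := by rw [← f1]; field_simp
  have g2 : r2 = (v : ℚ) / z := by rw [← f2]; field_simp
  have g3 : r3 = (w : ℚ) / z := by rw [← f3]; field_simp
  refine ⟨a, b, c, s, u, v, w, z, ⟨ha, hb, hc, by rw [hs]; ring, by exact_mod_cast hz.ne', ?_, ?_, ?_⟩,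
    ?_, ?_, ?_⟩
  · have : (a : ℚ) * u ^ 2 + k2 * z ^ 2 = b * v ^ 2 := by
      rw [← f1, ← f2]
      linear_combination (-(z : ℚ) ^ 2) * e1 + (z : ℚ) ^ 2 * e2
    exact_mod_cast this
  · have : (a : ℚ) * u ^ 2 + k3 * z ^ 2 = c * w ^ 2 := by
      rw [← f1, ← f3]
      linear_combination (-(z : ℚ) ^ 2) * e1 + (z : ℚ) ^ 2 * e3
    exact_mod_cast this
  · exact hpr
  · rw [e1, g1]; push_cast; rfl
  · rw [e2, g2]; push_cast; rfl
  · rw [e3, g3]; push_cast; rfl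

/-- parity -/
lemma par {a b c s : ℤ} (ha : Squarefree a) (hb : Squarefree b) (hc : Squarefree c)
    (hs : a * b * c = s ^ 2) {l : ℕ} (hl : l.Prime) :
    ((l : ℤ) ∣ a → (((l : ℤ) ∣ b ∧ ¬(l : ℤ) ∣ c) ∨ (¬(l : ℤ) ∣ b ∧ (l : ℤ) ∣ c))) ∧
      (¬(l : ℤ) ∣ a → ((l : ℤ) ∣ b ↔ (l : ℤ) ∣ c)) := by
  have key : ∀ n : ℤ, Squarefree n → ((l : ℤ) ∣ n ∧ n.natAbs.factorization l = 1) ∨
      (¬(l : ℤ) ∣ n ∧ n.natAbs.factorization l = 0) := by
    intro n hn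
    have hn0 : n.natAbs ≠ 0 := Int.natAbs_ne_zero.2 hn.ne_zero
    have h1 : n.natAbs.factorization l ≤ 1 := (Int.squarefree_natAbs.2 hn).natFactorization_le_one l
    have h2 : (l : ℤ) ∣ n ↔ 1 ≤ n.natAbs.factorization l := by
      rw [← hl.dvd_iff_one_le_factorization hn0, Int.natCast_dvd]
    by_cases hd : (l : ℤ) ∣ n
    · exact Or.inl ⟨hd, le_antisymm h1 (h2.1 hd)⟩
    · have := mt h2.2 hd
      exact Or.inr ⟨hd, by omega⟩
  have h := congrArg (fun n : ℤ => n.natAbs.factorization l) hs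
  simp only [Int.natAbs_mul, Int.natAbs_pow] at h
  have a0 : a.natAbs ≠ 0 := Int.natAbs_ne_zero.2 ha.ne_zero
  have b0 : b.natAbs ≠ 0 := Int.natAbs_ne_zero.2 hb.ne_zero
  have c0 : c.natAbs ≠ 0 := Int.natAbs_ne_zero.2 hc.ne_zero
  rw [Nat.factorization_mul (mul_ne_zero a0 b0) c0, Nat.factorization_mul a0 b0,
    Nat.factorization_pow] at h
  simp only [Finsupp.coe_add, Pi.add_apply, Finsupp.coe_smul, Pi.smul_apply, smul_eq_mul] at h
  rcases key a ha with ⟨ka, ka'⟩ | ⟨ka, ka'⟩ <;> rcases key b hb with ⟨kb, kb'⟩ | ⟨kb, kb'⟩ <;>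
    rcases key c hc with ⟨kc, kc'⟩ | ⟨kc, kc'⟩ <;> simp only [ka, kb, kc, true_and, not_true_eq_false,
      not_false_eq_true, false_and, or_false, or_true, false_or, implies_true, and_self,
      forall_const, false_implies, iff_true, iff_false, true_or, or_self, and_false, and_true] <;> omega

/-- support -/
lemma supp {A B C k k' u v w z : ℤ} {l : ℕ} (hl : l.Prime) (hA : Squarefree A) (hB : Squarefree B)
    (e1 : A * u ^ 2 + k * z ^ 2 = B * v ^ 2) (e2 : A * u ^ 2 + k' * z ^ 2 = C * w ^ 2)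
    (lA : (l : ℤ) ∣ A) (lB : (l : ℤ) ∣ B) (lC : ¬(l : ℤ) ∣ C)
    (pr : ¬((l : ℤ) ∣ z ∧ (l : ℤ) ∣ u ∧ (l : ℤ) ∣ v ∧ (l : ℤ) ∣ w)) : (l : ℤ) ∣ k := by
  by_contra hk
  have hp : Prime (l : ℤ) := Nat.prime_iff_prime_int.1 hl
  have sqf : ∀ {N t : ℤ}, Squarefree N → (l : ℤ) ∣ N → (l : ℤ) ^ 2 ∣ N * t ^ 2 → (l : ℤ) ∣ t := by
    rintro N t hN ⟨M, rfl⟩ ⟨m, hm⟩
    have hlM : ¬(l : ℤ) ∣ M := by
      rintro ⟨M', rfl⟩
      have := hN (l : ℤ) ⟨M', by ring⟩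
      exact hp.not_isUnit this
    have h1 : M * t ^ 2 = l * m := by
      apply mul_left_cancel₀ hp.ne_zero
      linear_combination hm
    rcases hp.dvd_or_dvd (⟨m, h1⟩ : (l : ℤ) ∣ M * t ^ 2) with h2 | h2
    · exact absurd h2 hlM
    · exact hp.dvd_of_dvd_pow h2
  have lz : (l : ℤ) ∣ z := by
    have h1 : (l : ℤ) ∣ k * z ^ 2 := by
      have : k * z ^ 2 = B * v ^ 2 - A * u ^ 2 := by linear_combination e1
      rw [this]
      exact dvd_sub (lB.mul_right _) (lA.mul_right _)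
    rcases hp.dvd_or_dvd h1 with h2 | h2
    · exact absurd h2 hk
    · exact hp.dvd_of_dvd_pow h2
  have lw : (l : ℤ) ∣ w := by
    have h1 : (l : ℤ) ∣ C * w ^ 2 := by
      rw [← e2]
      exact dvd_add (lA.mul_right _) ((dvd_pow lz two_ne_zero).mul_left _)
    rcases hp.dvd_or_dvd h1 with h2 | h2
    · exact absurd h2 lC
    · exact hp.dvd_of_dvd_pow h2
  have lu : (l : ℤ) ∣ u := by
    apply sqf hA lA
    have : A * u ^ 2 = C * w ^ 2 - k' * z ^ 2 := by linear_combination e2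
    rw [this]
    exact dvd_sub ((pow_dvd_pow_of_dvd lw 2).mul_left _) ((pow_dvd_pow_of_dvd lz 2).mul_left _)
  have lv : (l : ℤ) ∣ v := by
    apply sqf hB lB
    rw [← e1]
    exact dvd_add ((pow_dvd_pow_of_dvd lu 2).mul_left _) ((pow_dvd_pow_of_dvd lz 2).mul_left _)
  exact pr ⟨lz, lu, lv, lw⟩

end Pool.Agent.V7H16.XF
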