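import Mathlib
import Pool.Agent.V7H16.XF.Loc

/-! Conditions at 3, 5 and 2. -/

set_option autoImplicit false

namespace Pool.Agent.V7H16.XF

instance fact3 : Fact (Nat.Prime 3) := ⟨Nat.prime_three⟩
instance fact5 : Fact (Nat.Prime 5) := ⟨Nat.prime_five⟩

lemma sq3 : ∀ x : ZMod 3, x ≠ 0 → x ^ 2 = 1 := by decide
lemma qu5 : ∀ x : ZMod 5, x ≠ 0 → x ^ 4 = 1 := by decide

lemma zm3 (t : ℤ) : (t : ZMod 3) = 0 ↔ (3 : ℤ) ∣ t := by
  have := zm (q := 3) t
  exact_mod_cast this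

lemma zm5 (t : ℤ) : (t : ZMod 5) = 0 ↔ (5 : ℤ) ∣ t := by
  have := zm (q := 5) t
  exact_mod_cast this

section three

variable {a b c s u v w z d : ℤ}

lemma loc3 (ha : Squarefree a) (hb : Squarefree b) (hs : a * b * c = s ^ 2)
    (e12 : a * u ^ 2 + (-9 * d) * z ^ 2 = b * v ^ 2)
    (e13 : a * u ^ 2 + (16 * d) * z ^ 2 = c * w ^ 2)
    (pr : ¬((3 : ℤ) ∣ z ∧ (3 : ℤ) ∣ u ∧ (3 : ℤ) ∣ v ∧ (3 : ℤ) ∣ w))
    (hd : ¬(3 : ℤ) ∣ d) (hc : ¬(3 : ℤ) ∣ c) (hab : (3 : ℤ) ∣ a ↔ (3 : ℤ) ∣ b) :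
    ((3 : ℤ) ∣ a → (c : ZMod 3) = 1 ∧ (d : ZMod 3) = 1) ∧
      (¬(3 : ℤ) ∣ a → (c : ZMod 3) = 1 ∨ (c : ZMod 3) = d) := by
  have hp : Prime (3 : ℤ) := Int.prime_three
  have h9 : (9 : ZMod 3) = 0 := by decide
  have h3 : (3 : ZMod 3) = 0 := by decide
  have h16 : (16 : ZMod 3) = 1 := by decide
  rw [← zm3] at hd hc
  constructor
  · intro h1
    have h2 := hab.1 h1
    obtain ⟨a', rfl⟩ := h1
    obtain ⟨b', rfl⟩ := h2
    have na : ¬(3 : ℤ) ∣ a' := by
      have := sqf_div Nat.prime_three (M := a') (by exact_mod_cast ha)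
      exact_mod_cast this
    have nb : ¬(3 : ℤ) ∣ b' := by
      have := sqf_div Nat.prime_three (M := b') (by exact_mod_cast hb)
      exact_mod_cast this
    have hs3 : (3 : ℤ) ∣ s := by
      apply hp.dvd_of_dvd_pow (n := 2)
      rw [← hs]
      exact ⟨a' * (3 * b') * c, by ring⟩
    obtain ⟨s', rfl⟩ := hs3
    have gs : a' * b' * c = s' ^ 2 := by
      apply mul_left_cancel₀ (pow_ne_zero 2 hp.ne_zero)
      linear_combination hs
    have g12 : a' * u ^ 2 - 3 * d * z ^ 2 = b' * v ^ 2 := by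
      apply mul_left_cancel₀ hp.ne_zero
      linear_combination e12
    have f12 := congrArg (fun t : ℤ => (t : ZMod 3)) g12
    have f13 := congrArg (fun t : ℤ => (t : ZMod 3)) e13
    have fs := congrArg (fun t : ℤ => (t : ZMod 3)) gs
    simp only [Int.cast_mul, Int.cast_add, Int.cast_sub, Int.cast_pow, Int.cast_ofNat] at f12 f13 fs
    rw [h3] at f12 f13
    rw [h16] at f13
    rw [← zm3] at na nb
    have z0 : (z : ZMod 3) ≠ 0 := by
      intro h0
      have hw : (w : ZMod 3) = 0 := by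
        have : (c : ZMod 3) * (w : ZMod 3) ^ 2 = 0 := by rw [← f13, h0]; ring
        rcases mul_eq_zero.1 this with h | h
        · exact absurd h hc
        · exact pow_eq_zero_iff two_ne_zero |>.1 h
      rw [zm3] at h0 hw na
      obtain ⟨z', rfl⟩ := h0
      obtain ⟨w', rfl⟩ := hw
      have h4 : a' * u ^ 2 = 3 * (c * w' ^ 2 - 16 * d * z' ^ 2) := by
        apply mul_left_cancel₀ hp.ne_zero
        linear_combination e13
      have hu : (3 : ℤ) ∣ u := by
        rcases hp.dvd_or_dvd (⟨_, h4⟩ : (3 : ℤ) ∣ a' * u ^ 2) with h | h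
        · exact absurd h na
        · exact hp.dvd_of_dvd_pow h
      obtain ⟨u', rfl⟩ := hu
      have hv : (3 : ℤ) ∣ v := by
        have h5 : b' * v ^ 2 = 3 * (a' * (3 * u' ^ 2) - d * (3 * z') ^ 2) := by
          linear_combination -g12
        rcases hp.dvd_or_dvd (⟨_, h5⟩ : (3 : ℤ) ∣ b' * v ^ 2) with h | h
        · exact absurd ((zm3 _).2 h) nb
        · exact hp.dvd_of_dvd_pow h
      exact pr ⟨⟨z', rfl⟩, ⟨u', rfl⟩, hv, ⟨w', rfl⟩⟩
    have u0 : (u : ZMod 3) ≠ 0 := by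
      intro h0
      have hv : (v : ZMod 3) = 0 := by
        have : (b' : ZMod 3) * (v : ZMod 3) ^ 2 = 0 := by rw [← f12, h0]; ring
        rcases mul_eq_zero.1 this with h | h
        · exact absurd h nb
        · exact pow_eq_zero_iff two_ne_zero |>.1 h
      rw [zm3] at h0 hv
      obtain ⟨u', rfl⟩ := h0
      obtain ⟨v', rfl⟩ := hv
      have h4 : d * z ^ 2 = 3 * (a' * u' ^ 2 - b' * v' ^ 2) := by
        apply mul_left_cancel₀ hp.ne_zero
        linear_combination -g12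
      rcases hp.dvd_or_dvd (⟨_, h4⟩ : (3 : ℤ) ∣ d * z ^ 2) with h | h
      · exact absurd ((zm3 _).2 h) hd
      · exact z0 ((zm3 _).2 (hp.dvd_of_dvd_pow h))
    have v0 : (v : ZMod 3) ≠ 0 := by
      intro h0
      rw [h0] at f12
      have : (a' : ZMod 3) * (u : ZMod 3) ^ 2 = 0 := by linear_combination f12
      exact mul_ne_zero na (pow_ne_zero 2 u0) this
    have w0 : (w : ZMod 3) ≠ 0 := by
      intro h0
      rw [h0] at f13
      have : (d : ZMod 3) * (z : ZMod 3) ^ 2 = 0 := by linear_combination f13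
      exact mul_ne_zero hd (pow_ne_zero 2 z0) this
    rw [sq3 _ u0, sq3 _ v0] at f12
    rw [sq3 _ z0, sq3 _ w0] at f13
    have hab' : (a' : ZMod 3) = b' := by linear_combination f12
    have hdc : (d : ZMod 3) = c := by linear_combination f13
    rw [hab', ← sq, sq3 _ nb, one_mul] at fs
    have s0 : (s' : ZMod 3) ≠ 0 := by
      intro h0
      apply hc
      rw [fs, h0]; ring
    rw [sq3 _ s0] at fs
    exact ⟨fs, by rw [hdc, fs]⟩
  · intro na
    have nb : ¬(3 : ℤ) ∣ b := fun h => na (hab.2 h)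
    rw [← zm3] at na nb
    have f12 := congrArg (fun t : ℤ => (t : ZMod 3)) e12
    have f13 := congrArg (fun t : ℤ => (t : ZMod 3)) e13
    have fs := congrArg (fun t : ℤ => (t : ZMod 3)) hs
    simp only [Int.cast_mul, Int.cast_add, Int.cast_neg, Int.cast_pow, Int.cast_ofNat] at f12 f13 fs
    rw [h9] at f12
    rw [h16] at f13
    by_cases u0 : (u : ZMod 3) = 0
    · right
      have hv : (v : ZMod 3) = 0 := by
        have : (b : ZMod 3) * (v : ZMod 3) ^ 2 = 0 := by rw [← f12, u0]; ring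
        rcases mul_eq_zero.1 this with h | h
        · exact absurd h nb
        · exact pow_eq_zero_iff two_ne_zero |>.1 h
      have z0 : (z : ZMod 3) ≠ 0 := by
        intro h0
        have hw : (w : ZMod 3) = 0 := by
          have : (c : ZMod 3) * (w : ZMod 3) ^ 2 = 0 := by rw [← f13, u0, h0]; ring
          rcases mul_eq_zero.1 this with h | h
          · exact absurd h hc
          · exact pow_eq_zero_iff two_ne_zero |>.1 h
        rw [zm3] at h0 hw u0 hv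
        exact pr ⟨h0, u0, hv, hw⟩
      have w0 : (w : ZMod 3) ≠ 0 := by
        intro h0
        rw [h0, u0] at f13
        have : (d : ZMod 3) * (z : ZMod 3) ^ 2 = 0 := by linear_combination f13
        exact mul_ne_zero hd (pow_ne_zero 2 z0) this
      rw [sq3 _ z0, sq3 _ w0, u0] at f13
      linear_combination -f13
    · left
      have v0 : (v : ZMod 3) ≠ 0 := by
        intro h0
        rw [h0] at f12
        have : (a : ZMod 3) * (u : ZMod 3) ^ 2 = 0 := by linear_combination f12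
        exact mul_ne_zero na (pow_ne_zero 2 u0) this
      rw [sq3 _ u0, sq3 _ v0] at f12
      have hab' : (a : ZMod 3) = b := by linear_combination f12
      rw [hab', ← sq, sq3 _ nb, one_mul] at fs
      have s0 : (s : ZMod 3) ≠ 0 := by
        intro h0
        apply hc
        rw [fs, h0]; ring
      rw [sq3 _ s0] at fs
      exact fs

end three

section five

variable {a b c s u v w z d : ℤ}

lemma loc5 (hb : Squarefree b) (hc : Squarefree c) (hs : a * b * c = s ^ 2)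
    (e12 : a * u ^ 2 + (-9 * d) * z ^ 2 = b * v ^ 2)
    (e13 : a * u ^ 2 + (16 * d) * z ^ 2 = c * w ^ 2)
    (pr : ¬((5 : ℤ) ∣ z ∧ (5 : ℤ) ∣ u ∧ (5 : ℤ) ∣ v ∧ (5 : ℤ) ∣ w))
    (hd : ¬(5 : ℤ) ∣ d) (ha : ¬(5 : ℤ) ∣ a) (hbc : (5 : ℤ) ∣ b ↔ (5 : ℤ) ∣ c) :
    ((5 : ℤ) ∣ b → (a : ZMod 5) ^ 2 = 1 ∧ (d : ZMod 5) ^ 2 = 1) ∧
      (¬(5 : ℤ) ∣ b → (a : ZMod 5) ^ 2 = 1 ∨ (a : ZMod 5) ^ 2 = (d : ZMod 5) ^ 2) := by
  have hp : Prime (5 : ℤ) := Nat.prime_iff_prime_int.1 Nat.prime_five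
  have h5 : (5 : ZMod 5) = 0 := by decide
  have h25 : (25 : ZMod 5) = 0 := by decide
  have h9 : (9 : ZMod 5) = -1 := by decide
  rw [← zm5] at hd ha
  constructor
  · intro h1
    have h2 := hbc.1 h1
    obtain ⟨b', rfl⟩ := h1
    obtain ⟨c', rfl⟩ := h2
    have nb : ¬(5 : ℤ) ∣ b' := by
      have := sqf_div Nat.prime_five (M := b') (by exact_mod_cast hb)
      exact_mod_cast this
    have nc : ¬(5 : ℤ) ∣ c' := by
      have := sqf_div Nat.prime_five (M := c') (by exact_mod_cast hc)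
      exact_mod_cast this
    have hs5 : (5 : ℤ) ∣ s := by
      apply hp.dvd_of_dvd_pow (n := 2)
      rw [← hs]
      exact ⟨a * b' * (5 * c'), by ring⟩
    obtain ⟨s', rfl⟩ := hs5
    have gs : a * b' * c' = s' ^ 2 := by
      apply mul_left_cancel₀ (pow_ne_zero 2 hp.ne_zero)
      linear_combination hs
    have g23 : b' * v ^ 2 + 5 * d * z ^ 2 = c' * w ^ 2 := by
      apply mul_left_cancel₀ hp.ne_zero
      linear_combination e13 - e12
    have f12 := congrArg (fun t : ℤ => (t : ZMod 5)) e12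
    have f23 := congrArg (fun t : ℤ => (t : ZMod 5)) g23
    have fs := congrArg (fun t : ℤ => (t : ZMod 5)) gs
    simp only [Int.cast_mul, Int.cast_add, Int.cast_neg, Int.cast_pow, Int.cast_ofNat] at f12 f23 fs
    rw [h5] at f12 f23
    rw [h9] at f12
    have f1 : (a : ZMod 5) * (u : ZMod 5) ^ 2 = -(d * z ^ 2) := by linear_combination f12
    rw [← zm5] at nb nc
    have z0 : (z : ZMod 5) ≠ 0 := by
      intro h0
      have hu : (u : ZMod 5) = 0 := by
        have : (a : ZMod 5) * (u : ZMod 5) ^ 2 = 0 := by rw [f1, h0]; ring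
        rcases mul_eq_zero.1 this with h | h
        · exact absurd h ha
        · exact pow_eq_zero_iff two_ne_zero |>.1 h
      rw [zm5] at h0 hu nb nc
      obtain ⟨z', rfl⟩ := h0
      obtain ⟨u', rfl⟩ := hu
      have h4 : b' * v ^ 2 = 5 * (a * u' ^ 2 - 9 * d * z' ^ 2) := by
        apply mul_left_cancel₀ hp.ne_zero
        linear_combination -e12
      have hv : (5 : ℤ) ∣ v := by
        rcases hp.dvd_or_dvd (⟨_, h4⟩ : (5 : ℤ) ∣ b' * v ^ 2) with h | h
        · exact absurd h nb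
        · exact hp.dvd_of_dvd_pow h
      obtain ⟨v', rfl⟩ := hv
      have hw : (5 : ℤ) ∣ w := by
        have h6 : c' * w ^ 2 = 5 * (5 * b' * v' ^ 2 + d * (5 * z') ^ 2) := by
          linear_combination -g23
        rcases hp.dvd_or_dvd (⟨_, h6⟩ : (5 : ℤ) ∣ c' * w ^ 2) with h | h
        · exact absurd h nc
        · exact hp.dvd_of_dvd_pow h
      exact pr ⟨⟨z', rfl⟩, ⟨u', rfl⟩, ⟨v', rfl⟩, hw⟩
    have u0 : (u : ZMod 5) ≠ 0 := by
      intro h0
      rw [h0] at f1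
      have : (d : ZMod 5) * (z : ZMod 5) ^ 2 = 0 := by linear_combination f1
      exact mul_ne_zero hd (pow_ne_zero 2 z0) this
    have v0 : (v : ZMod 5) ≠ 0 := by
      intro h0
      have hw : (w : ZMod 5) = 0 := by
        have : (c' : ZMod 5) * (w : ZMod 5) ^ 2 = 0 := by rw [← f23, h0]; ring
        rcases mul_eq_zero.1 this with h | h
        · exact absurd h nc
        · exact pow_eq_zero_iff two_ne_zero |>.1 h
      rw [zm5] at h0 hw
      obtain ⟨v', rfl⟩ := h0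
      obtain ⟨w', rfl⟩ := hw
      have h4 : d * z ^ 2 = 5 * (c' * w' ^ 2 - b' * v' ^ 2) := by
        apply mul_left_cancel₀ hp.ne_zero
        linear_combination g23
      rcases hp.dvd_or_dvd (⟨_, h4⟩ : (5 : ℤ) ∣ d * z ^ 2) with h | h
      · exact absurd ((zm5 _).2 h) hd
      · exact z0 ((zm5 _).2 (hp.dvd_of_dvd_pow h))
    have w0 : (w : ZMod 5) ≠ 0 := by
      intro h0
      rw [h0] at f23
      have : (b' : ZMod 5) * (v : ZMod 5) ^ 2 = 0 := by linear_combination f23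
      exact mul_ne_zero nb (pow_ne_zero 2 v0) this
    have hv4 := qu5 _ v0
    have hw4 := qu5 _ w0
    have hu4 := qu5 _ u0
    have hz4 := qu5 _ z0
    have hb4 := qu5 _ nb
    have hbc2 : (b' : ZMod 5) ^ 2 = (c' : ZMod 5) ^ 2 := by
      have := congrArg (fun t => t ^ 2) f23
      linear_combination this - (b' : ZMod 5) ^ 2 * hv4 + (c' : ZMod 5) ^ 2 * hw4
    have had : (a : ZMod 5) ^ 2 = (d : ZMod 5) ^ 2 := by
      have := congrArg (fun t => t ^ 2) f1
      linear_combination this - (a : ZMod 5) ^ 2 * hu4 + (d : ZMod 5) ^ 2 * hz4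
    have s0 : (s' : ZMod 5) ≠ 0 := by
      intro h0
      rw [h0] at fs
      have : (a : ZMod 5) * b' * c' = 0 := by rw [fs]; ring
      exact mul_ne_zero (mul_ne_zero ha nb) nc this
    have hs4 := qu5 _ s0
    have ha2 : (a : ZMod 5) ^ 2 = 1 := by
      have := congrArg (fun t => t ^ 2) fs
      linear_combination this + hs4 - (a : ZMod 5) ^ 2 * hb4 + (a : ZMod 5) ^ 2 *
        (b' : ZMod 5) ^ 2 * hbc2
    exact ⟨ha2, by rw [← had, ha2]⟩
  · intro nb
    have nc : ¬(5 : ℤ) ∣ c := fun h => nb (hbc.2 h)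
    rw [← zm5] at nb nc
    have e23 : b * v ^ 2 + 25 * d * z ^ 2 = c * w ^ 2 := by linear_combination e13 - e12
    have f12 := congrArg (fun t : ℤ => (t : ZMod 5)) e12
    have f23 := congrArg (fun t : ℤ => (t : ZMod 5)) e23
    have fs := congrArg (fun t : ℤ => (t : ZMod 5)) hs
    simp only [Int.cast_mul, Int.cast_add, Int.cast_neg, Int.cast_pow, Int.cast_ofNat] at f12 f23 fs
    rw [h25] at f23
    rw [h9] at f12
    by_cases v0 : (v : ZMod 5) = 0
    · right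
      have hw : (w : ZMod 5) = 0 := by
        have : (c : ZMod 5) * (w : ZMod 5) ^ 2 = 0 := by rw [← f23, v0]; ring
        rcases mul_eq_zero.1 this with h | h
        · exact absurd h nc
        · exact pow_eq_zero_iff two_ne_zero |>.1 h
      have f1 : (a : ZMod 5) * (u : ZMod 5) ^ 2 = -(d * z ^ 2) := by
        rw [v0] at f12
        linear_combination f12
      have z0 : (z : ZMod 5) ≠ 0 := by
        intro h0
        have hu : (u : ZMod 5) = 0 := by
          have : (a : ZMod 5) * (u : ZMod 5) ^ 2 = 0 := by rw [f1, h0]; ring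
          rcases mul_eq_zero.1 this with h | h
          · exact absurd h ha
          · exact pow_eq_zero_iff two_ne_zero |>.1 h
        rw [zm5] at h0 hw hu v0
        exact pr ⟨h0, hu, v0, hw⟩
      have u0 : (u : ZMod 5) ≠ 0 := by
        intro h0
        rw [h0] at f1
        have : (d : ZMod 5) * (z : ZMod 5) ^ 2 = 0 := by linear_combination f1
        exact mul_ne_zero hd (pow_ne_zero 2 z0) this
      have hu4 := qu5 _ u0
      have hz4 := qu5 _ z0
      have := congrArg (fun t => t ^ 2) f1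
      linear_combination this - (a : ZMod 5) ^ 2 * hu4 + (d : ZMod 5) ^ 2 * hz4
    · left
      have w0 : (w : ZMod 5) ≠ 0 := by
        intro h0
        rw [h0] at f23
        have : (b : ZMod 5) * (v : ZMod 5) ^ 2 = 0 := by linear_combination f23
        exact mul_ne_zero nb (pow_ne_zero 2 v0) this
      have hv4 := qu5 _ v0
      have hw4 := qu5 _ w0
      have hb4 := qu5 _ nb
      have hbc2 : (b : ZMod 5) ^ 2 = (c : ZMod 5) ^ 2 := by
        have := congrArg (fun t => t ^ 2) f23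
        linear_combination this - (b : ZMod 5) ^ 2 * hv4 + (c : ZMod 5) ^ 2 * hw4
      have s0 : (s : ZMod 5) ≠ 0 := by
        intro h0
        rw [h0] at fs
        have : (a : ZMod 5) * b * c = 0 := by rw [fs]; ring
        exact mul_ne_zero (mul_ne_zero ha nb) nc this
      have hs4 := qu5 _ s0
      have := congrArg (fun t => t ^ 2) fs
      linear_combination this + hs4 - (a : ZMod 5) ^ 2 * hb4 + (a : ZMod 5) ^ 2 *
        (b : ZMod 5) ^ 2 * hbc2

end five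

section two

variable {a b c u v w z d : ℤ}

lemma odd8 {t : ℤ} (h : ¬(2 : ℤ) ∣ t) : (t : ZMod 8) ^ 2 = 1 := by
  have h2 : ∀ x : ZMod 8, (4 : ZMod 8) * x ≠ 0 → x ^ 2 = 1 := by decide
  apply h2
  intro h3
  have h4 : ((4 * t : ℤ) : ZMod 8) = 0 := by push_cast; exact h3
  rw [zm] at h4
  apply h
  obtain ⟨k, hk⟩ := h4
  push_cast at hk
  exact ⟨k, by linarith⟩

lemma two_sq_odd {a b : ℤ} (h : ¬(2 : ℤ) ∣ b) (h2 : (2 : ℤ) ∣ b * a ^ 2) : (2 : ℤ) ∣ a := by
  rcases Int.prime_two.dvd_or_dvd h2 with h3 | h3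
  · exact absurd h3 h
  · exact Int.prime_two.dvd_of_dvd_pow h3

lemma loc2a {a' c' : ℤ} (na : ¬(2 : ℤ) ∣ a') (nb : ¬(2 : ℤ) ∣ b) (nc : ¬(2 : ℤ) ∣ c')
    (nd : ¬(2 : ℤ) ∣ d)
    (e12 : 2 * a' * u ^ 2 + (-9 * d) * z ^ 2 = b * v ^ 2)
    (e13 : 2 * a' * u ^ 2 + (16 * d) * z ^ 2 = 2 * c' * w ^ 2)
    (pr : ¬((2 : ℤ) ∣ z ∧ (2 : ℤ) ∣ u ∧ (2 : ℤ) ∣ v ∧ (2 : ℤ) ∣ w)) :
    ((c' : ZMod 8) = a' ∧ (b : ZMod 8) = 2 * a' - d) ∨
      ((c' : ZMod 8) = a' + 2 * d ∧ (b : ZMod 8) = -d) := by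
  have g13 : a' * u ^ 2 + 8 * d * z ^ 2 = c' * w ^ 2 := by linarith
  have nz : ¬(2 : ℤ) ∣ z := by
    rintro ⟨z', rfl⟩
    have hv : (2 : ℤ) ∣ v := two_sq_odd nb ⟨a' * u ^ 2 + (-9 * d) * (2 * z' ^ 2), by
      linear_combination -e12⟩
    obtain ⟨v', rfl⟩ := hv
    have hu : (2 : ℤ) ∣ u := two_sq_odd na ⟨b * v' ^ 2 + 9 * d * z' ^ 2, by linarith⟩
    obtain ⟨u', rfl⟩ := hu
    have hw : (2 : ℤ) ∣ w := two_sq_odd nc ⟨2 * a' * u' ^ 2 + 4 * d * (2 * z') ^ 2, by
      linear_combination -g13⟩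
    exact pr ⟨⟨z', rfl⟩, ⟨u', rfl⟩, ⟨v', rfl⟩, hw⟩
  have nv : ¬(2 : ℤ) ∣ v := by
    rintro ⟨v', rfl⟩
    have h1 : (2 : ℤ) ∣ (9 * d) * z ^ 2 := ⟨a' * u ^ 2 - 2 * b * v' ^ 2, by linear_combination -e12⟩
    apply nz
    apply two_sq_odd _ h1
    omega
  have z1 := odd8 nz
  have v1 := odd8 nv
  have f12 := congrArg (fun t : ℤ => (t : ZMod 8)) e12
  have f13 := congrArg (fun t : ℤ => (t : ZMod 8)) g13
  simp only [Int.cast_mul, Int.cast_add, Int.cast_neg, Int.cast_pow, Int.cast_ofNat] at f12 f13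
  have h8 : (8 : ZMod 8) = 0 := by decide
  have h9 : (9 : ZMod 8) = 1 := by decide
  rw [h9, z1, v1] at f12
  rw [h8] at f13
  by_cases hu : (2 : ℤ) ∣ u
  · right
    obtain ⟨u', rfl⟩ := hu
    have hw : (2 : ℤ) ∣ w := two_sq_odd nc ⟨2 * a' * u' ^ 2 + 4 * d * z ^ 2, by
      linear_combination -g13⟩
    obtain ⟨w', rfl⟩ := hw
    have g : a' * u' ^ 2 + 2 * d * z ^ 2 = c' * w' ^ 2 := by linarith
    have nu : ¬(2 : ℤ) ∣ u' := by
      rintro ⟨u'', rfl⟩
      have hw' : (2 : ℤ) ∣ w' := two_sq_odd nc ⟨2 * a' * u'' ^ 2 + d * z ^ 2, by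
        linear_combination -g⟩
      obtain ⟨w'', rfl⟩ := hw'
      exact nz (two_sq_odd nd ⟨c' * w'' ^ 2 - a' * u'' ^ 2, by linarith⟩)
    have nw : ¬(2 : ℤ) ∣ w' := by
      rintro ⟨w'', rfl⟩
      exact nu (two_sq_odd na ⟨2 * c' * w'' ^ 2 - d * z ^ 2, by linear_combination g⟩)
    have f := congrArg (fun t : ℤ => (t : ZMod 8)) g
    simp only [Int.cast_mul, Int.cast_add, Int.cast_pow, Int.cast_ofNat] at f
    rw [odd8 nu, odd8 nw, z1] at f
    refine ⟨by linear_combination -f, ?_⟩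
    simp only [Int.cast_mul, Int.cast_ofNat] at f12
    linear_combination -f12 + (a' : ZMod 8) * (u' : ZMod 8) ^ 2 * h8
  · left
    have nw : ¬(2 : ℤ) ∣ w := by
      rintro ⟨w', rfl⟩
      exact hu (two_sq_odd na ⟨2 * c' * w' ^ 2 - 4 * d * z ^ 2, by linear_combination g13⟩)
    rw [odd8 hu, odd8 nw] at f13
    rw [odd8 hu] at f12
    exact ⟨by linear_combination -f13, by linear_combination -f12⟩

lemma loc2b (ea : (a : ZMod 8) = -1) (eb : (b : ZMod 8) = -1) (ec : (c : ZMod 8) = 1)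
    (nd : ¬(2 : ℤ) ∣ d)
    (e12 : a * u ^ 2 + (-9 * d) * z ^ 2 = b * v ^ 2)
    (e13 : a * u ^ 2 + (16 * d) * z ^ 2 = c * w ^ 2)
    (pr : ¬((2 : ℤ) ∣ z ∧ (2 : ℤ) ∣ u ∧ (2 : ℤ) ∣ v ∧ (2 : ℤ) ∣ w)) : (d : ZMod 8) = 1 := by
  have odd_of : ∀ {t : ℤ}, (4 : ZMod 8) * (t : ZMod 8) ≠ 0 → ¬(2 : ℤ) ∣ t := by
    rintro t ht ⟨k, rfl⟩
    apply ht
    push_cast
    have h8 : (8 : ZMod 8) = 0 := by decide
    linear_combination (k : ZMod 8) * h8
  have na : ¬(2 : ℤ) ∣ a := odd_of (by rw [ea]; decide)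
  have nb : ¬(2 : ℤ) ∣ b := odd_of (by rw [eb]; decide)
  have nc : ¬(2 : ℤ) ∣ c := odd_of (by rw [ec]; decide)
  have h16 : (16 : ZMod 8) = 0 := by decide
  have f13 := congrArg (fun t : ℤ => (t : ZMod 8)) e13
  simp only [Int.cast_mul, Int.cast_add, Int.cast_pow, Int.cast_ofNat] at f13
  rw [h16, ea, ec] at f13
  have hu : (2 : ℤ) ∣ u := by
    by_contra hu
    have nw : ¬(2 : ℤ) ∣ w := by
      rintro ⟨w', rfl⟩
      exact hu (two_sq_odd na ⟨2 * c * w' ^ 2 - 8 * d * z ^ 2, by linear_combination e13⟩)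
    rw [odd8 hu, odd8 nw] at f13
    revert f13
    generalize (d : ZMod 8) = x
    generalize (z : ZMod 8) = y
    intro f13
    have : (-1 : ZMod 8) = 1 := by linear_combination f13
    revert this
    decide
  obtain ⟨u', rfl⟩ := hu
  have hw : (2 : ℤ) ∣ w := two_sq_odd nc ⟨2 * a * u' ^ 2 + 8 * d * z ^ 2, by
    linear_combination -e13⟩
  obtain ⟨w', rfl⟩ := hw
  have nz : ¬(2 : ℤ) ∣ z := by
    rintro ⟨z', rfl⟩
    have hv : (2 : ℤ) ∣ v := two_sq_odd nb ⟨2 * a * u' ^ 2 + (-9 * d) * (2 * z' ^ 2), by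
      linear_combination -e12⟩
    exact pr ⟨⟨z', rfl⟩, ⟨u', rfl⟩, hv, ⟨w', rfl⟩⟩
  have nv : ¬(2 : ℤ) ∣ v := by
    rintro ⟨v', rfl⟩
    have h1 : (2 : ℤ) ∣ (9 * d) * z ^ 2 := ⟨2 * a * u' ^ 2 - 2 * b * v' ^ 2, by
      linear_combination -e12⟩
    apply nz
    apply two_sq_odd _ h1
    omega
  have g : a * u' ^ 2 + 4 * d * z ^ 2 = c * w' ^ 2 := by linarith
  have hu' : (2 : ℤ) ∣ u' := by
    by_contra hu
    have nw : ¬(2 : ℤ) ∣ w' := by
      rintro ⟨w'', rfl⟩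
      exact hu (two_sq_odd na ⟨2 * c * w'' ^ 2 - 2 * d * z ^ 2, by linear_combination g⟩)
    have f := congrArg (fun t : ℤ => (t : ZMod 8)) g
    simp only [Int.cast_mul, Int.cast_add, Int.cast_pow, Int.cast_ofNat] at f
    rw [odd8 hu, odd8 nw, odd8 nz, ea, ec] at f
    revert f
    generalize (d : ZMod 8) = x
    revert x
    decide
  obtain ⟨u'', rfl⟩ := hu'
  have f12 := congrArg (fun t : ℤ => (t : ZMod 8)) e12
  simp only [Int.cast_mul, Int.cast_add, Int.cast_neg, Int.cast_pow, Int.cast_ofNat] at f12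
  rw [ea, eb, odd8 nz, odd8 nv] at f12
  have h8 : (8 : ZMod 8) = 0 := by decide
  linear_combination -f12 + (-2 * (u'' : ZMod 8) ^ 2 - (d : ZMod 8)) * h8

end two

end Pool.Agent.V7H16.XF
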