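import Mathlib
import Pool.Agent.V7H16.XF.Loc2

/-! The places 2, 3, 5 and infinity together. -/

set_option autoImplicit false

namespace Pool.Agent.V7H16.XF

/-- congruent to 1 or 49 modulo 120 -/
def Good (q : ℕ) : Prop := q % 120 = 1 ∨ q % 120 = 49

lemma good_mul {a b : ℕ} (ha : Good a) (hb : Good b) : Good (a * b) := by
  unfold Good at *
  rw [Nat.mul_mod]
  rcases ha with ha | ha <;> rcases hb with hb | hb <;> rw [ha, hb] <;> simp

lemma good_of_primes (m : ℕ) (h0 : m ≠ 0) (h : ∀ l : ℕ, l.Prime → l ∣ m → Good l) : Good m := by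
  induction m using Nat.strong_induction_on with
  | _ m ih =>
    by_cases h1 : m = 1
    · left; rw [h1]
    · have hp := Nat.minFac_prime h1
      obtain ⟨k, hk⟩ := Nat.minFac_dvd m
      have hk0 : k ≠ 0 := by
        rintro rfl
        exact h0 (by rw [hk]; simp)
      have hlt : k < m := by
        have h2 := hp.two_le
        calc k < 2 * k := by omega
          _ ≤ m.minFac * k := Nat.mul_le_mul_right k h2
          _ = m := hk.symm
      rw [hk]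
      apply good_mul (h _ hp (Nat.minFac_dvd m))
      apply ih k hlt hk0
      intro l hl hlk
      apply h l hl
      rw [hk]
      exact hlk.mul_left _

lemma good3 {m : ℕ} (h : Good m) : ((m : ℤ) : ZMod 3) = 1 := by
  have : (m : ℤ) % 3 = 1 := by unfold Good at h; omega
  have h2 : ((m : ℤ) : ZMod 3) = ((1 : ℤ) : ZMod 3) := by
    rw [ZMod.intCast_eq_intCast_iff]
    exact this
  simpa using h2

lemma good8 {m : ℕ} (h : Good m) : ((m : ℤ) : ZMod 8) = 1 := by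
  have : (m : ℤ) % 8 = 1 := by unfold Good at h; omega
  have h2 : ((m : ℤ) : ZMod 8) = ((1 : ℤ) : ZMod 8) := by
    rw [ZMod.intCast_eq_intCast_iff]
    exact this
  simpa using h2

lemma good5 {m : ℕ} (h : Good m) : ((m : ℤ) : ZMod 5) ^ 2 = 1 := by
  have : (m : ℤ) % 5 = 1 ∨ (m : ℤ) % 5 = 4 := by unfold Good at h; omega
  rcases this with h1 | h1
  · have h2 : ((m : ℤ) : ZMod 5) = ((1 : ℤ) : ZMod 5) := by
      rw [ZMod.intCast_eq_intCast_iff]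
      exact h1
    rw [h2]; decide
  · have h2 : ((m : ℤ) : ZMod 5) = ((4 : ℤ) : ZMod 5) := by
      rw [ZMod.intCast_eq_intCast_iff]
      exact h1
    rw [h2]; decide

lemma strip (r : ℕ) (hr : r.Prime) (N : ℕ) (hN : Squarefree N) :
    ∃ M : ℕ, Squarefree M ∧ ¬r ∣ M ∧ M ∣ N ∧ ((r ∣ N ∧ N = r * M) ∨ (¬r ∣ N ∧ N = M)) := by
  by_cases h : r ∣ N
  · obtain ⟨M, rfl⟩ := h
    refine ⟨M, hN.of_mul_right, ?_, ⟨r, by ring⟩, Or.inl ⟨⟨M, rfl⟩, rfl⟩⟩
    rintro ⟨k, rfl⟩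
    have := hN r ⟨k, by ring⟩
    exact hr.prime.not_isUnit this
  · exact ⟨N, hN, h, dvd_rfl, Or.inr ⟨h, rfl⟩⟩

lemma shape {n : ℤ} (hn : Squarefree n)
    (h : ∀ l : ℕ, l.Prime → (l : ℤ) ∣ n → l = 2 ∨ l = 3 ∨ l = 5 ∨ Good l) :
    ∃ (ε A2 A3 A5 : ℤ) (m : ℕ), ((0 < n ∧ ε = 1) ∨ (n < 0 ∧ ε = -1)) ∧
      (((2 : ℤ) ∣ n ∧ A2 = 2) ∨ (¬(2 : ℤ) ∣ n ∧ A2 = 1)) ∧
      (((3 : ℤ) ∣ n ∧ A3 = 3) ∨ (¬(3 : ℤ) ∣ n ∧ A3 = 1)) ∧
      (((5 : ℤ) ∣ n ∧ A5 = 5) ∨ (¬(5 : ℤ) ∣ n ∧ A5 = 1)) ∧ Good m ∧ n = ε * A2 * A3 * A5 * m := by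
  have hN : Squarefree n.natAbs := Int.squarefree_natAbs.2 hn
  have key : ∀ l : ℕ, (l : ℤ) ∣ n ↔ l ∣ n.natAbs := fun l => Int.natCast_dvd
  obtain ⟨M2, s2, n2, d2, h2⟩ := strip 2 Nat.prime_two _ hN
  obtain ⟨M3, s3, n3, d3, h3⟩ := strip 3 Nat.prime_three _ s2
  obtain ⟨M5, s5, n5, d5, h5⟩ := strip 5 Nat.prime_five _ s3
  have hm : Good M5 := by
    apply good_of_primes _ s5.ne_zero
    intro l hl hlm
    rcases h l hl ((key l).2 (hlm.trans (d5.trans (d3.trans d2)))) with h0 | h0 | h0 | h0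
    · subst h0
      exact absurd (hlm.trans (d5.trans d3)) n2
    · subst h0
      exact absurd (hlm.trans d5) n3
    · subst h0
      exact absurd hlm n5
    · exact h0
  have k2 := key 2
  have k3 := key 3
  have k5 := key 5
  push_cast at k2 k3 k5
  have t3 : 3 ∣ n.natAbs ↔ 3 ∣ M2 := by
    rcases h2 with ⟨-, h2⟩ | ⟨-, h2⟩
    · rw [h2]
      constructor
      · intro h4
        exact (Nat.prime_three.dvd_mul.1 h4).resolve_left (by norm_num)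
      · exact fun h4 => h4.mul_left 2
    · rw [h2]
  have t5 : 5 ∣ n.natAbs ↔ 5 ∣ M3 := by
    have t5' : 5 ∣ n.natAbs ↔ 5 ∣ M2 := by
      rcases h2 with ⟨-, h2⟩ | ⟨-, h2⟩
      · rw [h2]
        constructor
        · intro h4
          exact (Nat.prime_five.dvd_mul.1 h4).resolve_left (by norm_num)
        · exact fun h4 => h4.mul_left 2
      · rw [h2]
    rw [t5']
    rcases h3 with ⟨-, h3⟩ | ⟨-, h3⟩
    · rw [h3]
      constructor
      · intro h4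
        exact (Nat.prime_five.dvd_mul.1 h4).resolve_left (by norm_num)
      · exact fun h4 => h4.mul_left 3
    · rw [h3]
  have f2 : ∃ A2 : ℤ, (((2 : ℤ) ∣ n ∧ A2 = 2) ∨ (¬(2 : ℤ) ∣ n ∧ A2 = 1)) ∧
      (n.natAbs : ℤ) = A2 * M2 := by
    rcases h2 with ⟨h2, e2⟩ | ⟨h2, e2⟩
    · exact ⟨2, Or.inl ⟨k2.2 h2, rfl⟩, by exact_mod_cast e2⟩
    · refine ⟨1, Or.inr ⟨fun h => h2 (k2.1 h), rfl⟩, ?_⟩
      rw [one_mul]
      exact_mod_cast e2
  have f3 : ∃ A3 : ℤ, (((3 : ℤ) ∣ n ∧ A3 = 3) ∨ (¬(3 : ℤ) ∣ n ∧ A3 = 1)) ∧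
      (M2 : ℤ) = A3 * M3 := by
    rcases h3 with ⟨h3, e3⟩ | ⟨h3, e3⟩
    · exact ⟨3, Or.inl ⟨k3.2 (t3.2 h3), rfl⟩, by exact_mod_cast e3⟩
    · refine ⟨1, Or.inr ⟨fun h => h3 (t3.1 (k3.1 h)), rfl⟩, ?_⟩
      rw [one_mul]
      exact_mod_cast e3
  have f5 : ∃ A5 : ℤ, (((5 : ℤ) ∣ n ∧ A5 = 5) ∨ (¬(5 : ℤ) ∣ n ∧ A5 = 1)) ∧
      (M3 : ℤ) = A5 * M5 := by
    rcases h5 with ⟨h5, e5⟩ | ⟨h5, e5⟩
    · exact ⟨5, Or.inl ⟨k5.2 (t5.2 h5), rfl⟩, by exact_mod_cast e5⟩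
    · refine ⟨1, Or.inr ⟨fun h => h5 (t5.1 (k5.1 h)), rfl⟩, ?_⟩
      rw [one_mul]
      exact_mod_cast e5
  obtain ⟨A2, a2, g2⟩ := f2
  obtain ⟨A3, a3, g3⟩ := f3
  obtain ⟨A5, a5, g5⟩ := f5
  have hn0 := hn.ne_zero
  rcases lt_or_gt_of_ne hn0 with hlt | hgt
  · refine ⟨-1, A2, A3, A5, M5, Or.inr ⟨hlt, rfl⟩, a2, a3, a5, hm, ?_⟩
    have : n = -(n.natAbs : ℤ) := by omega
    rw [this, g2, g3, g5]; ring
  · refine ⟨1, A2, A3, A5, M5, Or.inl ⟨hgt, rfl⟩, a2, a3, a5, hm, ?_⟩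
    have : n = (n.natAbs : ℤ) := by omega
    conv_lhs => rw [this, g2, g3, g5]
    ring

/-- the support of the classes -/
lemma quad_supp {a b c s u v w z d : ℤ} (Q : Quad (-9 * d) (16 * d) a b c s u v w z)
    {l : ℕ} (hl : l.Prime) : (((l : ℤ) ∣ a ∧ (l : ℤ) ∣ b) → (l : ℤ) ∣ 9 * d) ∧
      (((l : ℤ) ∣ a ∧ (l : ℤ) ∣ c) → (l : ℤ) ∣ 16 * d) ∧
      (((l : ℤ) ∣ b ∧ (l : ℤ) ∣ c) → (l : ℤ) ∣ 25 * d) := by
  have hp := par Q.ha Q.hb Q.hc Q.hs hl
  have pr := Q.pr l hl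
  refine ⟨?_, ?_, ?_⟩
  · rintro ⟨h1, h2⟩
    have h3 : ¬(l : ℤ) ∣ c := by
      rcases hp.1 h1 with h | h
      · exact h.2
      · exact absurd h2 h.1
    have := supp hl Q.ha Q.hb Q.e12 Q.e13 h1 h2 h3 pr
    rw [neg_mul, dvd_neg] at this
    exact this
  · rintro ⟨h1, h2⟩
    have h3 : ¬(l : ℤ) ∣ b := by
      rcases hp.1 h1 with h | h
      · exact absurd h2 h.2
      · exact h.1
    exact supp hl Q.ha Q.hc Q.e13 Q.e12 h1 h2 h3 (fun h => pr ⟨h.1, h.2.1, h.2.2.2, h.2.2.1⟩)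
  · rintro ⟨h1, h2⟩
    have h3 : ¬(l : ℤ) ∣ a := by
      intro h3
      rcases hp.1 h3 with h | h
      · exact h.2 h2
      · exact h.1 h1
    exact supp (k := 25 * d) (k' := 9 * d) (u := v) (v := w) (w := u) (z := z) hl Q.hb Q.hc
      (by linear_combination Q.e13 - Q.e12)
      (by linear_combination -Q.e12) h1 h2 h3 (fun h => pr ⟨h.1, h.2.2.2, h.2.1, h.2.2.1⟩)

lemma ex_b {P Q R : Prop} (h1 : P → (Q ∧ ¬R) ∨ (¬Q ∧ R)) (h2 : ¬P → (Q ↔ R)) (nab : ¬(P ∧ Q))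
    (nbc : ¬(Q ∧ R)) : ¬Q ∧ (P ↔ R) := by
  by_cases hP : P
  · rcases h1 hP with h | h
    · exact absurd ⟨hP, h.1⟩ nab
    · exact ⟨h.1, ⟨fun _ => h.2, fun _ => hP⟩⟩
  · have h3 := h2 hP
    have hQ : ¬Q := fun hQ => nbc ⟨hQ, h3.1 hQ⟩
    exact ⟨hQ, ⟨fun h => absurd h hP, fun h => absurd (h3.2 h) hQ⟩⟩

lemma ex_c {P Q R : Prop} (h1 : P → (Q ∧ ¬R) ∨ (¬Q ∧ R)) (h2 : ¬P → (Q ↔ R)) (nac : ¬(P ∧ R))
    (nbc : ¬(Q ∧ R)) : ¬R ∧ (P ↔ Q) := by
  by_cases hP : P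
  · rcases h1 hP with h | h
    · exact ⟨h.2, ⟨fun _ => h.1, fun _ => hP⟩⟩
    · exact absurd ⟨hP, h.2⟩ nac
  · have h3 := h2 hP
    have hR : ¬R := fun hR => nbc ⟨h3.2 hR, hR⟩
    exact ⟨hR, ⟨fun h => absurd h hP, fun h => absurd (h3.1 h) hR⟩⟩

lemma ex_a {P Q R : Prop} (h1 : P → (Q ∧ ¬R) ∨ (¬Q ∧ R)) (h2 : ¬P → (Q ↔ R)) (nab : ¬(P ∧ Q))
    (nac : ¬(P ∧ R)) : ¬P ∧ (Q ↔ R) := by
  by_cases hP : P
  · rcases h1 hP with h | h
    · exact absurd ⟨hP, h.1⟩ nab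
    · exact absurd ⟨hP, h.2⟩ nac
  · exact ⟨hP, h2 hP⟩

/-- the primes 2, 3, 5 -/
lemma quad_small {a b c s u v w z d : ℤ} (Q : Quad (-9 * d) (16 * d) a b c s u v w z)
    (d2 : ¬(2 : ℤ) ∣ d) (d3 : ¬(3 : ℤ) ∣ d) (d5 : ¬(5 : ℤ) ∣ d) :
    (¬(2 : ℤ) ∣ b ∧ ((2 : ℤ) ∣ a ↔ (2 : ℤ) ∣ c)) ∧ (¬(3 : ℤ) ∣ c ∧ ((3 : ℤ) ∣ a ↔ (3 : ℤ) ∣ b)) ∧
      (¬(5 : ℤ) ∣ a ∧ ((5 : ℤ) ∣ b ↔ (5 : ℤ) ∣ c)) := by
  have p2 := par Q.ha Q.hb Q.hc Q.hs Nat.prime_two
  have p3 := par Q.ha Q.hb Q.hc Q.hs Nat.prime_three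
  have p5 := par Q.ha Q.hb Q.hc Q.hs Nat.prime_five
  obtain ⟨q2, -, q2'⟩ := quad_supp Q Nat.prime_two
  obtain ⟨-, q3, q3'⟩ := quad_supp Q Nat.prime_three
  obtain ⟨q5, q5', -⟩ := quad_supp Q Nat.prime_five
  push_cast at p2 p3 p5 q2 q3 q5 q2' q3' q5'
  have r2 : ¬(2 : ℤ) ∣ 9 * d := by clear * - d2; omega
  have r2' : ¬(2 : ℤ) ∣ 25 * d := by clear * - d2; omega
  have r3 : ¬(3 : ℤ) ∣ 16 * d := by clear * - d3; omega
  have r3' : ¬(3 : ℤ) ∣ 25 * d := by clear * - d3; omega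
  have r5 : ¬(5 : ℤ) ∣ 16 * d := by clear * - d5; omega
  have r5' : ¬(5 : ℤ) ∣ 9 * d := by clear * - d5; omega
  exact ⟨ex_b p2.1 p2.2 (fun h => r2 (q2 h)) (fun h => r2' (q2' h)),
    ex_c p3.1 p3.2 (fun h => r3 (q3 h)) (fun h => r3' (q3' h)),
    ex_a p5.1 p5.2 (fun h => r5' (q5 h)) (fun h => r5 (q5' h))⟩

/-- the conditions at 2, 3, 5 and infinity -/
lemma core {a b c s u v w z d : ℤ} (Q : Quad (-9 * d) (16 * d) a b c s u v w z)
    (hc0 : 0 < c) (hab0 : 0 < a * b) (h8 : d % 8 ≠ 1) (h2 : ¬(2 : ℤ) ∣ d)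
    (h15 : d % 15 = 1 ∨ d % 15 = 2 ∨ d % 15 = 4 ∨ d % 15 = 8)
    (hg : ∀ l : ℕ, l.Prime → ((l : ℤ) ∣ a ∨ (l : ℤ) ∣ b ∨ (l : ℤ) ∣ c) →
      l = 2 ∨ l = 3 ∨ l = 5 ∨ Good l) :
    0 < a ∧ 0 < b ∧ (¬(2 : ℤ) ∣ a ∧ ¬(3 : ℤ) ∣ a ∧ ¬(5 : ℤ) ∣ a) ∧
      (¬(2 : ℤ) ∣ b ∧ ¬(3 : ℤ) ∣ b ∧ ¬(5 : ℤ) ∣ b) := by
  have d3 : ¬(3 : ℤ) ∣ d := by omega
  have d5 : ¬(5 : ℤ) ∣ d := by omega
  obtain ⟨⟨b2, ac2⟩, ⟨c3, ab3⟩, ⟨a5, bc5⟩⟩ := quad_small Q h2 d3 d5
  have pr2 := Q.pr 2 Nat.prime_two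
  have pr3 := Q.pr 3 Nat.prime_three
  have pr5 := Q.pr 5 Nat.prime_five
  push_cast at pr2 pr3 pr5
  have L3 := loc3 Q.ha Q.hb Q.hs Q.e12 Q.e13 pr3 d3 c3 ab3
  have L5 := loc5 Q.hb Q.hc Q.hs Q.e12 Q.e13 pr5 d5 a5 bc5
  obtain ⟨εa, A2, A3, A5, ma, sa, ia, ja, ka, ga, ea⟩ :=
    shape Q.ha (fun l hl h => hg l hl (Or.inl h))
  obtain ⟨εb, B2, B3, B5, mb, sb, ib, jb, kb, gb, eb⟩ :=
    shape Q.hb (fun l hl h => hg l hl (Or.inr (Or.inl h)))
  obtain ⟨εc, C2, C3, C5, mc, sc, ic, jc, kc, gc, ec⟩ :=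
    shape Q.hc (fun l hl h => hg l hl (Or.inr (Or.inr h)))
  have hεc : εc = 1 := by
    rcases sc with h | h
    · exact h.2
    · exact absurd hc0 (not_lt.2 h.1.le)
  have hA5 : A5 = 1 := by
    rcases ka with h | h
    · exact absurd h.1 a5
    · exact h.2
  have hB2 : B2 = 1 := by
    rcases ib with h | h
    · exact absurd h.1 b2
    · exact h.2
  have hC3 : C3 = 1 := by
    rcases jc with h | h
    · exact absurd h.1 c3
    · exact h.2
  have hε : εa = εb := by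
    rcases sa with ⟨h1, h2⟩ | ⟨h1, h2⟩ <;> rcases sb with ⟨h3, h4⟩ | ⟨h3, h4⟩
    · rw [h2, h4]
    · exact absurd hab0 (not_lt.2 (mul_nonpos_of_nonneg_of_nonpos h1.le h3.le))
    · exact absurd hab0 (not_lt.2 (mul_nonpos_of_nonpos_of_nonneg h1.le h3.le))
    · rw [h2, h4]
  subst hεc hA5 hB2 hC3 hε
  have c3' : (c : ZMod 3) = C2 * C5 := by
    rw [ec]
    simp only [Int.cast_mul, good3 gc, Int.cast_one]
    ring
  have a5' : (a : ZMod 5) ^ 2 = (A2 * A3) ^ 2 := by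
    rw [ea]
    have hε2 : (εa : ZMod 5) ^ 2 = 1 := by
      rcases sa with h | h <;> rw [h.2] <;> decide
    have e : ((εa * A2 * A3 * 1 * (ma : ℤ) : ℤ) : ZMod 5) ^ 2 =
        (εa : ZMod 5) ^ 2 * (A2 * A3) ^ 2 * (((ma : ℤ) : ZMod 5)) ^ 2 := by
      simp only [Int.cast_mul, Int.cast_one]
      ring
    rw [e, hε2, good5 ga]
    ring
  have dcase : ((d : ZMod 3) = 1 ∧ (d : ZMod 5) ^ 2 = 1) ∨ ((d : ZMod 3) = 2 ∧
      (d : ZMod 5) ^ 2 = -1) := by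
    have r3 : ∀ r : ℤ, d % 3 = r % 3 → (d : ZMod 3) = (r : ZMod 3) := fun r hr => by
      rw [ZMod.intCast_eq_intCast_iff]; exact hr
    have r5 : ∀ r : ℤ, d % 5 = r % 5 → (d : ZMod 5) = (r : ZMod 5) := fun r hr => by
      rw [ZMod.intCast_eq_intCast_iff]; exact hr
    rcases h15 with h | h | h | h
    · left
      rw [r3 1 (by omega), r5 1 (by omega)]
      exact ⟨by decide, by decide⟩
    · right
      rw [r3 2 (by omega), r5 2 (by omega)]
      exact ⟨by decide, by decide⟩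
    · left
      rw [r3 1 (by omega), r5 4 (by omega)]
      exact ⟨by decide, by decide⟩
    · right
      rw [r3 2 (by omega), r5 3 (by omega)]
      exact ⟨by decide, by decide⟩
  have h81 : (d : ZMod 8) ≠ 1 := by
    intro h
    apply h8
    have h2 : ((d : ℤ) : ZMod 8) = ((1 : ℤ) : ZMod 8) := by simpa using h
    rw [ZMod.intCast_eq_intCast_iff] at h2
    exact h2
  have one5 : (1 : ZMod 5) ≠ -1 := by decide
  -- the common divisor data
  have key : ¬(2 : ℤ) ∣ a ∧ ¬(3 : ℤ) ∣ a ∧ ¬(5 : ℤ) ∣ b := by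
    have ic' : ((2 : ℤ) ∣ a ∧ C2 = 2) ∨ (¬(2 : ℤ) ∣ a ∧ C2 = 1) := by
      rw [ac2]; exact ic
    have jb' : ((3 : ℤ) ∣ a ∧ B3 = 3) ∨ (¬(3 : ℤ) ∣ a ∧ B3 = 1) := by
      rw [ab3]; exact jb
    have kc' : ((5 : ℤ) ∣ b ∧ C5 = 5) ∨ (¬(5 : ℤ) ∣ b ∧ C5 = 1) := by
      rw [bc5]; exact kc
    have jk : ((3 : ℤ) ∣ a → (2 : ℤ) ∣ a) ∧ ((5 : ℤ) ∣ b → (2 : ℤ) ∣ a) ∧
        ((2 : ℤ) ∣ a → (((3 : ℤ) ∣ a ∧ (5 : ℤ) ∣ b) ∨ (¬(3 : ℤ) ∣ a ∧ ¬(5 : ℤ) ∣ b))) := by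
      rcases dcase with ⟨q3, q5⟩ | ⟨q3, q5⟩
      · have l3 : (c : ZMod 3) = 1 := by
          by_cases h3 : (3 : ℤ) ∣ a
          · exact (L3.1 h3).1
          · rcases L3.2 h3 with h | h
            · exact h
            · rw [h, q3]
        have l5 : (a : ZMod 5) ^ 2 = 1 := by
          by_cases h5 : (5 : ℤ) ∣ b
          · exact (L5.1 h5).1
          · rcases L5.2 h5 with h | h
            · exact h
            · rw [h, q5]
        rw [c3'] at l3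
        rw [a5'] at l5
        have h25 : (2 : ℤ) ∣ a ↔ (5 : ℤ) ∣ b := by
          clear L3 L5 pr2 pr3 pr5
          rcases ic' with ⟨i3, i4⟩ | ⟨i3, i4⟩ <;> rcases kc' with ⟨k1, k2⟩ | ⟨k1, k2⟩
          · exact ⟨fun _ => k1, fun _ => i3⟩
          · exfalso; rw [i4, k2] at l3; revert l3; decide
          · exfalso; rw [i4, k2] at l3; revert l3; decide
          · exact ⟨fun h => absurd h i3, fun h => absurd h k1⟩
        have h23 : (2 : ℤ) ∣ a ↔ (3 : ℤ) ∣ a := by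
          clear L3 L5 pr2 pr3 pr5
          rcases ia with ⟨i3, i4⟩ | ⟨i3, i4⟩ <;> rcases ja with ⟨k1, k2⟩ | ⟨k1, k2⟩
          · exact ⟨fun _ => k1, fun _ => i3⟩
          · exfalso; rw [i4, k2] at l5; revert l5; decide
          · exfalso; rw [i4, k2] at l5; revert l5; decide
          · exact ⟨fun h => absurd h i3, fun h => absurd h k1⟩
        exact ⟨fun h => h23.2 h, fun h => h25.2 h, fun h => Or.inl ⟨h23.1 h, h25.1 h⟩⟩
      · have n3 : ¬(3 : ℤ) ∣ a := by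
          intro h3
          have := (L3.1 h3).2
          rw [q3] at this
          revert this; decide
        have n5 : ¬(5 : ℤ) ∣ b := by
          intro h5
          have := (L5.1 h5).2
          rw [q5] at this
          exact one5 this.symm
        exact ⟨fun h => absurd h n3, fun h => absurd h n5, fun _ => Or.inr ⟨n3, n5⟩⟩
    have i0 : ¬(2 : ℤ) ∣ a := by
      intro hi
      have hA2 : A2 = 2 := by
        rcases ia with h | h
        · exact h.2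
        · exact absurd hi h.1
      have hC2 : C2 = 2 := by
        rcases ic' with h | h
        · exact h.2
        · exact absurd hi h.1
      subst hA2 hC2
      have ea' : a = 2 * (εa * A3 * ma) := by rw [ea]; ring
      have ec' : c = 2 * (C5 * mc) := by rw [ec]; ring
      have na : ¬(2 : ℤ) ∣ εa * A3 * ma := by
        have := sqf_div Nat.prime_two (M := εa * A3 * ma) (by push_cast; rw [← ea']; exact Q.ha)
        exact_mod_cast this
      have nc : ¬(2 : ℤ) ∣ C5 * mc := by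
        have := sqf_div Nat.prime_two (M := C5 * mc) (by push_cast; rw [← ec']; exact Q.hc)
        exact_mod_cast this
      have L2 := loc2a (u := u) (v := v) (w := w) (z := z) (d := d) na b2 nc h2
        (by have := Q.e12; rw [ea'] at this; linear_combination this)
        (by have := Q.e13; rw [ea', ec'] at this; linear_combination this) pr2
      have e1 : ((εa * A3 * (ma : ℤ) : ℤ) : ZMod 8) = εa * A3 := by
        simp only [Int.cast_mul, good8 ga]; ring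
      have e2 : ((C5 * (mc : ℤ) : ℤ) : ZMod 8) = C5 := by
        simp only [Int.cast_mul, good8 gc]; ring
      have e3 : (b : ZMod 8) = εa * B3 * B5 := by
        rw [eb]
        simp only [Int.cast_mul, good8 gb, Int.cast_one]; ring
      rw [e1, e2, e3] at L2
      generalize (d : ZMod 8) = D at L2 h81
      rcases jk.2.2 hi with ⟨j, k⟩ | ⟨j, k⟩
      · have hA3 : A3 = 3 := by
          rcases ja with h | h
          · exact h.2
          · exact absurd j h.1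
        have hB3 : B3 = 3 := by
          rcases jb' with h | h
          · exact h.2
          · exact absurd j h.1
        have hB5 : B5 = 5 := by
          rcases kb with h | h
          · exact h.2
          · exact absurd k h.1
        have hC5 : C5 = 5 := by
          rcases kc' with h | h
          · exact h.2
          · exact absurd k h.1
        rw [hA3, hB3, hB5, hC5] at L2
        have fin : ∀ e : ℤ, (e = 1 ∨ e = -1) → εa = e → False := by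
          clear * - L2 h81
          rintro e (rfl | rfl) rfl
          · revert h81 L2
            revert D
            decide
          · revert h81 L2
            revert D
            decide
        rcases sa with h | h
        · exact fin 1 (Or.inl rfl) h.2
        · exact fin (-1) (Or.inr rfl) h.2
      · have hA3 : A3 = 1 := by
          rcases ja with h | h
          · exact absurd h.1 j
          · exact h.2
        have hB3 : B3 = 1 := by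
          rcases jb' with h | h
          · exact absurd h.1 j
          · exact h.2
        have hB5 : B5 = 1 := by
          rcases kb with h | h
          · exact absurd h.1 k
          · exact h.2
        have hC5 : C5 = 1 := by
          rcases kc' with h | h
          · exact absurd h.1 k
          · exact h.2
        rw [hA3, hB3, hB5, hC5] at L2
        have fin : ∀ e : ℤ, (e = 1 ∨ e = -1) → εa = e → False := by
          clear * - L2 h81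
          rintro e (rfl | rfl) rfl
          · revert h81 L2
            revert D
            decide
          · revert h81 L2
            revert D
            decide
        rcases sa with h | h
        · exact fin 1 (Or.inl rfl) h.2
        · exact fin (-1) (Or.inr rfl) h.2
    exact ⟨i0, fun h => i0 (jk.1 h), fun h => i0 (jk.2.1 h)⟩
  obtain ⟨i0, j0, k0⟩ := key
  have j0b : ¬(3 : ℤ) ∣ b := fun h => j0 (ab3.2 h)
  have i0c : ¬(2 : ℤ) ∣ c := fun h => i0 (ac2.2 h)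
  have k0c : ¬(5 : ℤ) ∣ c := fun h => k0 (bc5.2 h)
  have pick : ∀ {P : Prop} {X Y : ℤ}, ((P ∧ X = Y) ∨ (¬P ∧ X = 1)) → ¬P → X = 1 := by
    intro P X Y h hP
    rcases h with h | h
    · exact absurd h.1 hP
    · exact h.2
  have hA2 := pick ia i0
  have hA3 := pick ja j0
  have hB3 := pick jb j0b
  have hB5 := pick kb k0
  have hC2 := pick ic i0c
  have hC5 := pick kc k0c
  subst hA2 hA3 hB3 hB5 hC2 hC5
  rcases sa with ⟨s1, s2⟩ | ⟨s1, s2⟩
  · refine ⟨s1, ?_, ⟨i0, j0, a5⟩, b2, j0b, k0⟩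
    exact (mul_pos_iff_of_pos_left s1).1 hab0
  · exfalso
    apply h81
    subst s2
    apply loc2b (a := a) (b := b) (c := c) _ _ _ h2 Q.e12 Q.e13 pr2
    · rw [ea]
      simp only [Int.cast_mul, good8 ga, Int.cast_one, Int.cast_neg]; ring
    · rw [eb]
      simp only [Int.cast_mul, good8 gb, Int.cast_one, Int.cast_neg]; ring
    · rw [ec]
      simp only [Int.cast_mul, good8 gc, Int.cast_one]; ring

end Pool.Agent.V7H16.XF
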