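import Mathlib
import Pool.Agent.V7H16.XF.Core

/-! The square classes of a rational point. -/

set_option autoImplicit false

namespace Pool.Agent.V7H16.XF

/-- the conditions at the good primes -/
def LC (d : ℕ) (a : ℤ) : Prop :=
  ∀ q : ℕ, q.Prime → q ∣ d → Good q → (¬(q : ℤ) ∣ a → IsSquare (a : ZMod q)) ∧
    (∀ y δ : ℤ, a = q * y → (d : ℤ) = q * δ → IsSquare ((y * δ : ℤ) : ZMod q))

/-- the general criterion -/
structure Crit (d p : ℕ) : Prop where
  sf : Squarefree d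
  pp : p.Prime
  pd : p ∣ d
  d2 : ¬2 ∣ d
  h8 : d % 8 ≠ 1
  h15 : d % 15 = 1 ∨ d % 15 = 2 ∨ d % 15 = 4 ∨ d % 15 = 8
  c1 : ∀ a : ℤ, Squarefree a → (∀ l : ℕ, l.Prime → (l : ℤ) ∣ a → l ∣ 30 * d) → ¬(p : ℤ) ∣ a →
    LC d a → ∀ l : ℕ, l.Prime → (l : ℤ) ∣ a → l = 2 ∨ l = 3 ∨ l = 5 ∨ Good l
  c2 : ∀ a : ℕ, Squarefree a → (∀ l : ℕ, l.Prime → l ∣ a → l ∣ d ∧ Good l) → ¬p ∣ a →
    LC d a → (∀ q : ℕ, q.Prime → q ∣ d → (¬Good q ∨ q = p) → IsSquare (a : ZMod q)) → a = 1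

lemma even_val {p : ℕ} (hp : p.Prime) {a : ℤ} (ha : Squarefree a) {r : ℚ} (hr : r ≠ 0)
    (h : Even (padicValRat p (a * r ^ 2))) : ¬(p : ℤ) ∣ a := by
  have : Fact p.Prime := ⟨hp⟩
  rintro ⟨m, rfl⟩
  have hm := sqf_div hp ha
  have hm0 : (m : ℚ) ≠ 0 := by
    intro h0
    apply hm
    have : m = 0 := by exact_mod_cast h0
    rw [this]; exact dvd_zero _
  have hp0 : (p : ℚ) ≠ 0 := by exact_mod_cast hp.ne_zero
  push_cast at h
  rw [padicValRat.mul (mul_ne_zero hp0 hm0) (pow_ne_zero 2 hr), padicValRat.mul hp0 hm0,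
    padicValRat.pow, padicValRat.self hp.one_lt] at h
  have h2 : padicValRat p (m : ℚ) = 0 := by
    rw [padicValRat.of_int, padicValInt.eq_zero_of_not_dvd hm]
    simp
  rw [h2] at h
  obtain ⟨k, hk⟩ := h
  push_cast at hk
  omega

lemma good_not_dvd {q : ℕ} (hq : q.Prime) (hg : Good q) {k : ℕ} (hk : k ≠ 0) (hk2 : k < 49) :
    ¬(q : ℤ) ∣ (k : ℤ) := by
  intro h
  have h1 : q ∣ k := by exact_mod_cast h
  have h2 := Nat.le_of_dvd (Nat.pos_of_ne_zero hk) h1
  have h3 := hq.two_le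
  unfold Good at hg
  omega

lemma good_neg_one {q : ℕ} (hq : q.Prime) (hg : Good q) : IsSquare (-1 : ZMod q) := by
  have : Fact q.Prime := ⟨hq⟩
  rw [ZMod.exists_sq_eq_neg_one_iff]
  unfold Good at hg
  omega

theorem squares {d p : ℕ} (H : Crit d p) {x y : ℚ} (hy : y ≠ 0)
    (h : y ^ 2 = x * (x + (-9 * d : ℤ)) * (x + (16 * d : ℤ)))
    (v1 : Even (padicValRat p x)) (v2 : Even (padicValRat p (x + (-9 * d : ℤ)))) :
    ∃ r1 r2 r3 : ℚ, x = r1 ^ 2 ∧ x + (-9 * d : ℤ) = r2 ^ 2 ∧ x + (16 * d : ℤ) = r3 ^ 2 := by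
  have hp0 : x * (x + (-9 * d : ℤ)) * (x + (16 * d : ℤ)) ≠ 0 := by
    rw [← h]
    exact pow_ne_zero 2 hy
  have n1 : x ≠ 0 := fun h0 => hp0 (by rw [h0]; ring)
  have n2 : x + (-9 * d : ℤ) ≠ 0 := fun h0 => hp0 (by rw [h0]; ring)
  have n3 : x + (16 * d : ℤ) ≠ 0 := fun h0 => hp0 (by rw [h0]; ring)
  obtain ⟨a, b, c, s, u, v, w, z, Q, ea, eb, ec⟩ := exists_quad _ _ x y hy h
  have hz : (z : ℚ) ≠ 0 := by exact_mod_cast Q.z0
  have hd0 : 0 < d := Nat.pos_of_ne_zero H.sf.ne_zero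
  have hdq : (0 : ℚ) < d := by exact_mod_cast hd0
  have hur : (u : ℚ) / z ≠ 0 := fun h0 => n1 (by rw [ea, h0]; ring)
  have hvr : (v : ℚ) / z ≠ 0 := fun h0 => n2 (by rw [eb, h0]; ring)
  have hwr : (w : ℚ) / z ≠ 0 := fun h0 => n3 (by rw [ec, h0]; ring)
  have pa : ¬(p : ℤ) ∣ a := even_val H.pp Q.ha hur (by rw [← ea]; exact v1)
  have pb : ¬(p : ℤ) ∣ b := even_val H.pp Q.hb hvr (by rw [← eb]; exact v2)
  have pc : ¬(p : ℤ) ∣ c := fun h => pb (((par Q.ha Q.hb Q.hc Q.hs H.pp).2 pa).2 h)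
  -- signs
  have hypos : 0 < x * (x + (-9 * d : ℤ)) * (x + (16 * d : ℤ)) := by
    rw [← h]; positivity
  have x3 : 0 < x + (16 * d : ℤ) := by
    by_contra h3
    push Not at h3
    have h1 : x < 0 := by push_cast at h3; linarith
    have h2 : x + (-9 * d : ℤ) < 0 := by push_cast; linarith
    have h4 : 0 < x * (x + (-9 * d : ℤ)) := mul_pos_of_neg_of_neg h1 h2
    exact absurd hypos (not_lt.2 (mul_nonpos_of_nonneg_of_nonpos h4.le h3))
  have x12 : 0 < x * (x + (-9 * d : ℤ)) := (mul_pos_iff_of_pos_right x3).1 hypos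
  have hc0 : 0 < c := by
    rw [ec] at x3
    have := (mul_pos_iff_of_pos_right (by positivity : (0 : ℚ) < (w / z) ^ 2)).1 x3
    exact_mod_cast this
  have hab0 : 0 < a * b := by
    rw [ea] at x12
    have e : (a : ℚ) * (u / z) ^ 2 * (a * (u / z) ^ 2 + (-9 * d : ℤ)) =
        ((a : ℚ) * b) * ((u / z) * (v / z)) ^ 2 := by
      rw [← ea, eb]
      conv_lhs => rw [ea]
      ring
    rw [e] at x12
    have := (mul_pos_iff_of_pos_right (by positivity :
      (0 : ℚ) < ((u : ℚ) / z * (v / z)) ^ 2)).1 x12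
    exact_mod_cast this
  have hdz : Squarefree (d : ℤ) := Int.squarefree_natCast.2 H.sf
  -- supports
  have supp3 : ∀ l : ℕ, l.Prime → ((l : ℤ) ∣ a ∨ (l : ℤ) ∣ b ∨ (l : ℤ) ∣ c) → l ∣ 30 * d := by
    intro l hl hh
    have hpar := par Q.ha Q.hb Q.hc Q.hs hl
    obtain ⟨q1, q2, q3⟩ := quad_supp Q hl
    have fin : ∀ k : ℕ, (∀ r : ℕ, r.Prime → r ∣ k → r ∣ 30) → (l : ℤ) ∣ (k : ℤ) * d → l ∣ 30 * d := by
      intro k hk h1
      have h2 : l ∣ k * d := by exact_mod_cast h1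
      rcases hl.dvd_mul.1 h2 with h3 | h3
      · exact (hk l hl h3).mul_right _
      · exact h3.mul_left _
    have f9 := fin 9 (fun r hr h1 => by
      have : r ∣ 3 := hr.dvd_of_dvd_pow (show r ∣ 3 ^ 2 by simpa using h1)
      exact this.trans (by norm_num))
    have f16 := fin 16 (fun r hr h1 => by
      have : r ∣ 2 := hr.dvd_of_dvd_pow (show r ∣ 2 ^ 4 by simpa using h1)
      exact this.trans (by norm_num))
    have f25 := fin 25 (fun r hr h1 => by
      have : r ∣ 5 := hr.dvd_of_dvd_pow (show r ∣ 5 ^ 2 by simpa using h1)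
      exact this.trans (by norm_num))
    push_cast at f9 f16 f25
    by_cases ha : (l : ℤ) ∣ a
    · rcases hpar.1 ha with h1 | h1
      · exact f9 (q1 ⟨ha, h1.1⟩)
      · exact f16 (q2 ⟨ha, h1.2⟩)
    · have h1 := hpar.2 ha
      rcases hh with h2 | h2 | h2
      · exact absurd h2 ha
      · exact f25 (q3 ⟨h2, h1.1 h2⟩)
      · exact f25 (q3 ⟨h1.2 h2, h2⟩)
  have sq9 : ∀ q : ℕ, q.Prime → Good q → IsSquare ((-9 : ℤ) : ZMod q) := by
    intro q hq hg
    obtain ⟨i, hi⟩ := good_neg_one hq hg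
    refine ⟨3 * i, ?_⟩
    push_cast
    linear_combination 9 * hi
  have lca : LC d a := by
    intro q hq hqd hg
    exact loc_q hq (k2 := -9) (k3 := 16) Q.hs Q.ha Q.hb Q.hc hdz (by exact_mod_cast hqd) Q.e12 Q.e13
      (Q.pr q hq) (good_neg_one hq hg) (sq9 q hq hg) ⟨4, by push_cast; norm_num⟩
      (by
        intro h9
        rw [dvd_neg] at h9
        exact good_not_dvd hq hg (k := 9) (by norm_num) (by norm_num) (by exact_mod_cast h9))
      (by
        intro h9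
        exact good_not_dvd hq hg (k := 16) (by norm_num) (by norm_num) (by exact_mod_cast h9))
  have hs' : b * a * c = s ^ 2 := by rw [← Q.hs]; ring
  have e21 : b * v ^ 2 + 9 * (d : ℤ) * z ^ 2 = a * u ^ 2 := by linear_combination -Q.e12
  have e23 : b * v ^ 2 + 25 * (d : ℤ) * z ^ 2 = c * w ^ 2 := by linear_combination Q.e13 - Q.e12
  have lcb : LC d b := by
    intro q hq hqd hg
    exact loc_q hq (k2 := 9) (k3 := 25) hs' Q.hb Q.ha Q.hc hdz (by exact_mod_cast hqd) e21 e23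
      (fun h => Q.pr q hq ⟨h.1, h.2.2.1, h.2.1, h.2.2.2⟩) (good_neg_one hq hg)
      ⟨3, by push_cast; norm_num⟩ ⟨5, by push_cast; norm_num⟩
      (by
        intro h9
        exact good_not_dvd hq hg (k := 9) (by norm_num) (by norm_num) (by exact_mod_cast h9))
      (by
        intro h9
        exact good_not_dvd hq hg (k := 25) (by norm_num) (by norm_num) (by exact_mod_cast h9))
  have ga := H.c1 a Q.ha (fun l hl h => supp3 l hl (Or.inl h)) pa lca
  have gb := H.c1 b Q.hb (fun l hl h => supp3 l hl (Or.inr (Or.inl h))) pb lcb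
  have gc : ∀ l : ℕ, l.Prime → (l : ℤ) ∣ c → l = 2 ∨ l = 3 ∨ l = 5 ∨ Good l := by
    intro l hl h
    by_cases ha : (l : ℤ) ∣ a
    · exact ga l hl ha
    · exact gb l hl (((par Q.ha Q.hb Q.hc Q.hs hl).2 ha).2 h)
  have h2d : ¬(2 : ℤ) ∣ d := by
    intro h
    exact H.d2 (by exact_mod_cast h)
  have h8d : (d : ℤ) % 8 ≠ 1 := by
    intro h
    exact H.h8 (by exact_mod_cast h)
  have h15d : (d : ℤ) % 15 = 1 ∨ (d : ℤ) % 15 = 2 ∨ (d : ℤ) % 15 = 4 ∨ (d : ℤ) % 15 = 8 := by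
    rcases H.h15 with h | h | h | h
    · exact Or.inl (by exact_mod_cast h)
    · exact Or.inr (Or.inl (by exact_mod_cast h))
    · exact Or.inr (Or.inr (Or.inl (by exact_mod_cast h)))
    · exact Or.inr (Or.inr (Or.inr (by exact_mod_cast h)))
  obtain ⟨a0, b0, ⟨a2, a3, a5⟩, b2, b3, b5⟩ := core Q hc0 hab0 h8d h2d h15d (fun l hl h => by
    rcases h with h | h | h
    · exact ga l hl h
    · exact gb l hl h
    · exact gc l hl h)
  -- the unit case
  have small : ∀ q : ℕ, q.Prime → q ∣ d → q ≠ 2 ∧ q ≠ 3 ∧ q ≠ 5 := by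
    intro q hq hqd
    have h15' := H.h15
    refine ⟨?_, ?_, ?_⟩
    · rintro rfl
      exact H.d2 hqd
    · rintro rfl
      omega
    · rintro rfl
      omega
  have nd9 : ∀ q : ℕ, q.Prime → q ∣ d → ¬(q : ℤ) ∣ 9 := by
    intro q hq hqd h9
    have h1 : q ∣ 9 := by exact_mod_cast h9
    have h2 : q ∣ 3 := hq.dvd_of_dvd_pow (show q ∣ 3 ^ 2 by simpa using h1)
    exact (small q hq hqd).2.1 ((Nat.prime_dvd_prime_iff_eq hq Nat.prime_three).1 h2)
  have unit : ∀ q : ℕ, q.Prime → q ∣ d → ¬(q : ℤ) ∣ a → ¬(q : ℤ) ∣ b →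
      IsSquare (a : ZMod q) ∧ IsSquare (b : ZMod q) := by
    intro q hq hqd na nb
    have nc : ¬(q : ℤ) ∣ c := fun h => nb (((par Q.ha Q.hb Q.hc Q.hs hq).2 na).2 h)
    constructor
    · exact loc_unit hq (k2 := -9) (k3 := 16) Q.hs hdz (by exact_mod_cast hqd) Q.e12 Q.e13
        (Q.pr q hq) (by rw [dvd_neg]; exact nd9 q hq hqd) na nb nc
    · exact loc_unit hq (k2 := 9) (k3 := 25) hs' hdz (by exact_mod_cast hqd) e21 e23
        (fun h => Q.pr q hq ⟨h.1, h.2.2.1, h.2.1, h.2.2.2⟩) (nd9 q hq hqd) nb na nc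
  have fin : ∀ t : ℤ, 0 < t → Squarefree t → ¬(2 : ℤ) ∣ t → ¬(3 : ℤ) ∣ t → ¬(5 : ℤ) ∣ t →
      (∀ l : ℕ, l.Prime → (l : ℤ) ∣ t → l ∣ 30 * d) →
      (∀ l : ℕ, l.Prime → (l : ℤ) ∣ t → l = 2 ∨ l = 3 ∨ l = 5 ∨ Good l) → ¬(p : ℤ) ∣ t → LC d t →
      (∀ q : ℕ, q.Prime → q ∣ d → (¬Good q ∨ q = p) → IsSquare (t : ZMod q)) → t = 1 := by
    intro t t0 ts t2 t3 t5 tsup tg tp tlc tq
    obtain ⟨n, rfl⟩ := Int.eq_ofNat_of_zero_le t0.le
    have : n = 1 := by
      apply H.c2 n (Int.squarefree_natCast.1 ts) _ (fun h => tp (by exact_mod_cast h)) tlc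
      · intro q hq hqd hh
        have := tq q hq hqd hh
        exact_mod_cast this
      · intro l hl hln
        have hln' : (l : ℤ) ∣ (n : ℤ) := by exact_mod_cast hln
        have l2 : l ≠ 2 := by rintro rfl; exact t2 (by exact_mod_cast hln')
        have l3 : l ≠ 3 := by rintro rfl; exact t3 (by exact_mod_cast hln')
        have l5 : l ≠ 5 := by rintro rfl; exact t5 (by exact_mod_cast hln')
        constructor
        · rcases hl.dvd_mul.1 (tsup l hl hln') with h1 | h1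
          · exfalso
            have h30 : l ∣ 2 * 3 * 5 := by simpa using h1
            rcases hl.dvd_mul.1 h30 with h4 | h4
            · rcases hl.dvd_mul.1 h4 with h5 | h5
              · exact l2 ((Nat.prime_dvd_prime_iff_eq hl Nat.prime_two).1 h5)
              · exact l3 ((Nat.prime_dvd_prime_iff_eq hl Nat.prime_three).1 h5)
            · exact l5 ((Nat.prime_dvd_prime_iff_eq hl Nat.prime_five).1 h4)
          · exact h1
        · rcases tg l hl hln' with h1 | h1 | h1 | h1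
          · exact absurd h1 l2
          · exact absurd h1 l3
          · exact absurd h1 l5
          · exact h1
    rw [this]; rfl
  have tq : ∀ q : ℕ, q.Prime → q ∣ d → (¬Good q ∨ q = p) →
      IsSquare (a : ZMod q) ∧ IsSquare (b : ZMod q) := by
    intro q hq hqd hh
    rcases hh with hh | rfl
    · have hsm := small q hq hqd
      apply unit q hq hqd
      · intro h1
        rcases ga q hq h1 with h2 | h2 | h2 | h2
        · exact hsm.1 h2
        · exact hsm.2.1 h2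
        · exact hsm.2.2 h2
        · exact hh h2
      · intro h1
        rcases gb q hq h1 with h2 | h2 | h2 | h2
        · exact hsm.1 h2
        · exact hsm.2.1 h2
        · exact hsm.2.2 h2
        · exact hh h2
    · exact unit q hq hqd pa pb
  have ha1 : a = 1 := fin a a0 Q.ha a2 a3 a5 (fun l hl h => supp3 l hl (Or.inl h)) ga pa lca
    (fun q hq hqd hh => (tq q hq hqd hh).1)
  have hb1 : b = 1 := fin b b0 Q.hb b2 b3 b5 (fun l hl h => supp3 l hl (Or.inr (Or.inl h))) gb pb lcb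
    (fun q hq hqd hh => (tq q hq hqd hh).2)
  have hc1 : c = 1 := by
    have hs := Q.hs
    rw [ha1, hb1, one_mul, one_mul] at hs
    have hu : IsUnit s := Q.hc s ⟨1, by rw [hs]; ring⟩
    have : s ^ 2 = 1 := by
      rcases Int.isUnit_iff.1 hu with h | h <;> rw [h] <;> norm_num
    rw [hs, this]
  refine ⟨u / z, v / z, w / z, ?_, ?_, ?_⟩
  · rw [ea, ha1]; push_cast; ring
  · rw [eb, hb1]; push_cast; ring
  · rw [ec, hc1]; push_cast; ring

end Pool.Agent.V7H16.XF
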