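import Mathlib
import Pool.Agent.V7H16.XF.Main

/-! Construction of the fields. -/

set_option autoImplicit false

namespace Pool.Agent.V7H16.XF

lemma sq_of_primes_nat {q : ℕ} (m : ℕ) (h0 : m ≠ 0)
    (h : ∀ l : ℕ, l.Prime → l ∣ m → IsSquare ((l : ℕ) : ZMod q)) : IsSquare ((m : ℕ) : ZMod q) := by
  induction m using Nat.strong_induction_on with
  | _ m ih =>
    by_cases h1 : m = 1
    · rw [h1]; exact ⟨1, by push_cast; ring⟩
    · have hp := Nat.minFac_prime h1
      obtain ⟨k, hk⟩ := Nat.minFac_dvd m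
      have hk0 : k ≠ 0 := by
        rintro rfl
        exact h0 (by rw [hk]; simp)
      have hlt : k < m := by
        have h2 := hp.two_le
        calc k < 2 * k := by omega
          _ ≤ m.minFac * k := Nat.mul_le_mul_right k h2
          _ = m := hk.symm
      have e : ((m : ℕ) : ZMod q) = ((m.minFac : ℕ) : ZMod q) * ((k : ℕ) : ZMod q) := by
        conv_lhs => rw [hk]
        push_cast; rfl
      rw [e]
      apply (h _ hp (Nat.minFac_dvd m)).mul
      apply ih k hlt hk0
      intro l hl hlk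
      apply h l hl
      rw [hk]
      exact hlk.mul_left _

lemma sq_of_primes {q : ℕ} (hm : IsSquare (-1 : ZMod q)) (a : ℤ) (h0 : a ≠ 0)
    (h : ∀ l : ℕ, l.Prime → (l : ℤ) ∣ a → IsSquare ((l : ℕ) : ZMod q)) : IsSquare (a : ZMod q) := by
  have h1 : IsSquare ((a.natAbs : ℕ) : ZMod q) := by
    apply sq_of_primes_nat _ (Int.natAbs_ne_zero.2 h0)
    intro l hl hla
    exact h l hl (Int.natCast_dvd.2 hla)
  rcases Int.natAbs_eq a with h2 | h2
  · have e : (a : ZMod q) = ((a.natAbs : ℕ) : ZMod q) := by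
      conv_lhs => rw [h2]
      exact Int.cast_natCast _
    rw [e]; exact h1
  · have e : (a : ZMod q) = (-1) * ((a.natAbs : ℕ) : ZMod q) := by
      conv_lhs => rw [h2]
      rw [Int.cast_neg, Int.cast_natCast, neg_one_mul]
    rw [e]
    exact hm.mul h1

lemma sq_cancel {q : ℕ} (hq : q.Prime) {x y : ZMod q} (h : IsSquare (x * y)) (hy : IsSquare y)
    (y0 : y ≠ 0) : IsSquare x := by
  have : Fact q.Prime := ⟨hq⟩
  obtain ⟨a, ha⟩ := h
  obtain ⟨b, hb⟩ := hy
  have b0 : b ≠ 0 := by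
    rintro rfl
    exact y0 (by rw [hb]; ring)
  refine ⟨a / b, ?_⟩
  rw [div_mul_div_comm, eq_div_iff (mul_ne_zero b0 b0), ← ha, ← hb]

/-- 2, 3 and 5 are squares modulo a prime congruent to 1 or 49 modulo 120 -/
lemma small_sq {q : ℕ} (hq : q.Prime) (hg : Good q) {l : ℕ} (hl : l = 2 ∨ l = 3 ∨ l = 5) :
    IsSquare ((l : ℕ) : ZMod q) := by
  have : Fact q.Prime := ⟨hq⟩
  have hq4 : q % 4 = 1 := by unfold Good at hg; omega
  rcases hl with rfl | rfl | rfl
  · have := (ZMod.exists_sq_eq_two_iff (p := q) (by rintro rfl; unfold Good at hg; omega)).2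
      (by unfold Good at hg; omega)
    exact_mod_cast this
  · rw [ZMod.exists_sq_eq_prime_iff_of_mod_four_eq_one hq4 (by norm_num)]
    have h3 : ((q : ℕ) : ZMod 3) = ((1 : ℕ) : ZMod 3) := by
      rw [ZMod.natCast_eq_natCast_iff']; unfold Good at hg; omega
    rw [h3]; exact ⟨1, by decide⟩
  · rw [ZMod.exists_sq_eq_prime_iff_of_mod_four_eq_one hq4 (by norm_num)]
    rcases hg with hg | hg
    · have h5 : ((q : ℕ) : ZMod 5) = ((1 : ℕ) : ZMod 5) := by
        rw [ZMod.natCast_eq_natCast_iff']; omega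
      rw [h5]; exact ⟨1, by decide⟩
    · have h5 : ((q : ℕ) : ZMod 5) = ((4 : ℕ) : ZMod 5) := by
        rw [ZMod.natCast_eq_natCast_iff']; omega
      rw [h5]; exact ⟨2, by decide⟩

/-- the criterion in terms of decompositions of the second kind -/
theorem crit_redei {d p : ℕ} (sf : Squarefree d) (pp : p.Prime) (pd : p ∣ d) (d2 : ¬2 ∣ d)
    (h8 : d % 8 ≠ 1) (h15 : d % 15 = 1 ∨ d % 15 = 2 ∨ d % 15 = 4 ∨ d % 15 = 8)
    (hg : ∀ q : ℕ, q.Prime → q ∣ d → q ≠ p → Good q)
    (hR : ∀ a : ℕ, a ∣ d → ¬p ∣ a → a ≠ 1 → ∃ q : ℕ, q.Prime ∧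
      ((q ∣ d / a ∧ ¬IsSquare ((a : ℕ) : ZMod q)) ∨
        (q ∣ a ∧ ¬IsSquare ((d / a : ℕ) : ZMod q)))) : Crit d p where
  sf := sf
  pp := pp
  pd := pd
  d2 := d2
  h8 := h8
  h15 := h15
  c1 := by
    intro a ha hs hpa _ l hl hla
    rcases hl.dvd_mul.1 (hs l hl hla) with h1 | h1
    · have h30 : l ∣ 2 * 3 * 5 := by simpa using h1
      rcases hl.dvd_mul.1 h30 with h4 | h4
      · rcases hl.dvd_mul.1 h4 with h5 | h5
        · exact Or.inl ((Nat.prime_dvd_prime_iff_eq hl Nat.prime_two).1 h5)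
        · exact Or.inr (Or.inl ((Nat.prime_dvd_prime_iff_eq hl Nat.prime_three).1 h5))
      · exact Or.inr (Or.inr (Or.inl ((Nat.prime_dvd_prime_iff_eq hl Nat.prime_five).1 h4)))
    · refine Or.inr (Or.inr (Or.inr (hg l hl h1 ?_)))
      rintro rfl
      exact hpa hla
  c2 := by
    intro a ha hs hpa hlc hsq
    by_contra ha1
    have had : a ∣ d := by
      rw [← Nat.factorization_le_iff_dvd ha.ne_zero sf.ne_zero]
      intro l
      by_cases hl : l.Prime
      · by_cases hla : l ∣ a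
        · have h1 : a.factorization l ≤ 1 := ha.natFactorization_le_one l
          have h2 : 1 ≤ d.factorization l :=
            (hl.dvd_iff_one_le_factorization sf.ne_zero).1 (hs l hl hla).1
          omega
        · rw [Nat.factorization_eq_zero_of_not_dvd hla]
          exact Nat.zero_le _
      · rw [Nat.factorization_eq_zero_of_not_prime _ hl]
        exact Nat.zero_le _
    obtain ⟨q, hq, h⟩ := hR a had hpa ha1
    have : Fact q.Prime := ⟨hq⟩
    obtain ⟨b, hb⟩ := had
    have ha0 : 0 < a := Nat.pos_of_ne_zero ha.ne_zero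
    have hdb : d / a = b := by rw [hb]; exact Nat.mul_div_cancel_left b ha0
    rw [hdb] at h
    rcases h with ⟨h1, h2⟩ | ⟨h1, h2⟩
    · have hqd : q ∣ d := by rw [hb]; exact h1.mul_left _
      have hqa : ¬q ∣ a := by
        intro h3
        have : q * q ∣ d := by rw [hb]; exact mul_dvd_mul h3 h1
        exact hq.prime.not_isUnit (sf q this)
      by_cases hqp : q = p
      · exact h2 (hsq q hq hqd (Or.inr hqp))
      · have := (hlc q hq hqd (hg q hq hqd hqp)).1 (fun h => hqa (by exact_mod_cast h))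
        apply h2
        exact_mod_cast this
    · have hqd : q ∣ d := by rw [hb]; exact h1.mul_right _
      have hqp : q ≠ p := by rintro rfl; exact hpa h1
      obtain ⟨y, hy⟩ := h1
      have hy0 : ((y : ℕ) : ZMod q) ≠ 0 := by
        rw [Ne, ZMod.natCast_eq_zero_iff]
        intro h3
        have : q * q ∣ a := by rw [hy]; exact mul_dvd_mul_left q h3
        exact hq.prime.not_isUnit (ha q this)
      have h3 := (hlc q hq hqd (hg q hq hqd hqp)).2 y (y * b) (by rw [hy]; push_cast; ring)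
        (by rw [hb, hy]; push_cast; ring)
      apply h2
      apply sq_cancel hq (y := ((y : ℕ) : ZMod q) * ((y : ℕ) : ZMod q)) _ ⟨_, rfl⟩
        (mul_ne_zero hy0 hy0)
      have e : ((b : ℕ) : ZMod q) * (((y : ℕ) : ZMod q) * ((y : ℕ) : ZMod q)) =
          (((y : ℤ) * ((y : ℤ) * (b : ℤ)) : ℤ) : ZMod q) := by push_cast; ring
      rw [e]
      exact h3

/-- the auxiliary primes -/
structure Sys (n n' Q B : ℕ) : Prop where
  sf : Squarefree Q
  big : ∀ q : ℕ, q.Prime → q ∣ Q → B < q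
  s1 : ∀ q : ℕ, q.Prime → q ∣ Q → q % 120 = 1
  s2 : ∀ q q' : ℕ, q.Prime → q'.Prime → q ∣ Q → q' ∣ Q → q ≠ q' → IsSquare ((q' : ℕ) : ZMod q)
  s3 : ∀ r : ℕ, r.Prime → r ∣ n' → ∃ q : ℕ, q.Prime ∧ q ∣ Q ∧ ¬IsSquare ((q : ℕ) : ZMod r) ∧
    ¬IsSquare ((r : ℕ) : ZMod q) ∧
    (∀ r' : ℕ, r'.Prime → r' ∣ n → r' ≠ r → IsSquare ((r' : ℕ) : ZMod q)) ∧
    (∀ q' : ℕ, q'.Prime → q' ∣ Q → q' ≠ q → IsSquare ((q' : ℕ) : ZMod r))
  s4 : ∀ q : ℕ, q.Prime → q ∣ Q → (∀ r' : ℕ, r'.Prime → r' ∣ n → IsSquare ((r' : ℕ) : ZMod q)) ∨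
    (∃ r : ℕ, r.Prime ∧ r ∣ n' ∧ ¬IsSquare ((q : ℕ) : ZMod r) ∧
      ∀ q' : ℕ, q'.Prime → q' ∣ Q → q' ≠ q → IsSquare ((q' : ℕ) : ZMod r))
  s5 : ∀ r : ℕ, r.Prime → r ∣ n → ¬r ∣ n' → ∀ q : ℕ, q.Prime → q ∣ Q → IsSquare ((q : ℕ) : ZMod r)

lemma recip {q r : ℕ} (hq : q.Prime) (hr : r.Prime) (h1 : q % 120 = 1) (hr2 : r ≠ 2) :
    IsSquare ((r : ℕ) : ZMod q) ↔ IsSquare ((q : ℕ) : ZMod r) := by
  have : Fact q.Prime := ⟨hq⟩
  have : Fact r.Prime := ⟨hr⟩
  exact ZMod.exists_sq_eq_prime_iff_of_mod_four_eq_one (by omega) hr2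

theorem Sys.add {n n' Q B : ℕ} (S : Sys n n' Q B) (hn2 : ¬2 ∣ n) {p r : ℕ} (hp : p.Prime)
    (hB : B < p) (hpQ : ¬p ∣ Q) (h1 : p % 120 = 1)
    (hQ : ∀ q : ℕ, q.Prime → q ∣ Q → IsSquare ((p : ℕ) : ZMod q))
    (hn : ∀ r' : ℕ, r'.Prime → r' ∣ n → r' ≠ r → IsSquare ((p : ℕ) : ZMod r'))
    (hr : r = 1 ∨ (r.Prime ∧ r ∣ n ∧ ¬r ∣ n' ∧ ¬IsSquare ((p : ℕ) : ZMod r))) (hn' : n' ∣ n) :
    Sys n (n' * r) (Q * p) B := by
  have ne2 : ∀ r' : ℕ, r' ∣ n → r' ≠ 2 := by
    rintro r' h rfl
    exact hn2 h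
  have q2 : ∀ q : ℕ, q.Prime → q ∣ Q → q ≠ 2 := by
    rintro q hq hqQ rfl
    have := S.s1 2 hq hqQ
    omega
  have dv : ∀ {q : ℕ}, q.Prime → q ∣ Q * p → q ∣ Q ∨ q = p := by
    intro q hq h
    rcases hq.dvd_mul.1 h with h | h
    · exact Or.inl h
    · exact Or.inr ((Nat.prime_dvd_prime_iff_eq hq hp).1 h)
  have hqp : ∀ q : ℕ, q.Prime → q ∣ Q → IsSquare ((q : ℕ) : ZMod p) := by
    intro q hq hqQ
    rw [recip hp hq h1 (q2 q hq hqQ)]
    exact hQ q hq hqQ
  have hnr : ∀ r' : ℕ, r'.Prime → r' ∣ n → r' ≠ r → IsSquare ((r' : ℕ) : ZMod p) := by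
    intro r' hr' hr'n hne
    rw [recip hp hr' h1 (ne2 r' hr'n)]
    exact hn r' hr' hr'n hne
  refine ⟨?_, ?_, ?_, ?_, ?_, ?_, ?_⟩
  · rw [Nat.squarefree_mul ((Nat.Prime.coprime_iff_not_dvd hp).2 hpQ).symm]
    exact ⟨S.sf, hp.prime.irreducible.squarefree⟩
  · intro q hq h
    rcases dv hq h with h | rfl
    · exact S.big q hq h
    · exact hB
  · intro q hq h
    rcases dv hq h with h | rfl
    · exact S.s1 q hq h
    · exact h1
  · intro q q' hq hq' h h' hne
    rcases dv hq h with k | k <;> rcases dv hq' h' with k' | k'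
    · exact S.s2 q q' hq hq' k k' hne
    · rw [k']; exact hQ q hq k
    · rw [k]; exact hqp q' hq' k'
    · exact absurd (k.trans k'.symm) hne
  · intro r' hr' h
    by_cases hrn : r' ∣ n'
    · obtain ⟨q, hq, hqQ, k1, k2, k3, k4⟩ := S.s3 r' hr' hrn
      refine ⟨q, hq, hqQ.mul_right _, k1, k2, k3, ?_⟩
      intro q' hq' h' hne
      rcases dv hq' h' with h' | rfl
      · exact k4 q' hq' h' hne
      · apply hn r' hr' (hrn.trans hn')
        rintro rfl
        rcases hr with rfl | hr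
        · exact hr'.one_lt.ne' rfl
        · exact hr.2.2.1 hrn
    · have hrr : r' ∣ r := (hr'.dvd_mul.1 h).resolve_left hrn
      rcases hr with rfl | ⟨g1, g2, g3, g4⟩
      · exact absurd (Nat.dvd_one.1 hrr) hr'.one_lt.ne'
      · obtain rfl : r' = r := (Nat.prime_dvd_prime_iff_eq hr' g1).1 hrr
        refine ⟨p, hp, Dvd.intro_left _ rfl, g4, ?_, ?_, ?_⟩
        · rw [recip hp hr' h1 (ne2 r' g2)]
          exact g4
        · intro r'' hr'' h'' hne
          exact hnr r'' hr'' h'' hne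
        · intro q' hq' h' hne
          rcases dv hq' h' with h' | rfl
          · exact S.s5 r' hr' g2 g3 q' hq' h'
          · exact absurd rfl hne
  · intro q hq h
    rcases dv hq h with h | rfl
    · rcases S.s4 q hq h with k | ⟨r', k1, k2, k3, k4⟩
      · exact Or.inl k
      · right
        refine ⟨r', k1, k2.mul_right _, k3, ?_⟩
        intro q' hq' h' hne
        rcases dv hq' h' with h' | rfl
        · exact k4 q' hq' h' hne
        · apply hn r' k1 (k2.trans hn')
          rintro rfl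
          rcases hr with rfl | hr
          · exact k1.one_lt.ne' rfl
          · exact hr.2.2.1 k2
    · rcases hr with rfl | ⟨g1, g2, g3, g4⟩
      · left
        intro r' hr' h'
        exact hnr r' hr' h' hr'.one_lt.ne'
      · right
        refine ⟨r, g1, Dvd.intro_left _ rfl, g4, ?_⟩
        intro q' hq' h' hne
        rcases dv hq' h' with h' | rfl
        · exact S.s5 r g1 g2 g3 q' hq' h'
        · exact absurd rfl hne
  · intro r' hr' h1' h2' q hq h
    have hne : r' ≠ r := by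
      rintro rfl
      exact h2' (Dvd.intro_left _ rfl)
    rcases dv hq h with h | rfl
    · exact S.s5 r' hr' h1' (fun h3 => h2' (h3.mul_right _)) q hq h
    · exact hn r' hr' h1' hne

lemma exists_nonsq {r : ℕ} (hr : r.Prime) (h2 : r ≠ 2) :
    ∃ g : ℕ, g.Coprime r ∧ ∀ p : ℕ, p ≡ g [MOD r] → ¬IsSquare ((p : ℕ) : ZMod r) := by
  have : Fact r.Prime := ⟨hr⟩
  obtain ⟨a, ha⟩ := FiniteField.exists_nonsquare (F := ZMod r) (by
    rw [ZMod.ringChar_zmod_n]; exact h2)
  have hv : ((a.val : ℕ) : ZMod r) = a := ZMod.natCast_zmod_val a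
  refine ⟨a.val, ?_, ?_⟩
  · rw [Nat.coprime_comm, Nat.Prime.coprime_iff_not_dvd hr]
    intro h
    apply ha
    rw [← ZMod.natCast_eq_zero_iff, hv] at h
    rw [h]; exact ⟨0, by ring⟩
  · intro p hp
    rw [← ZMod.natCast_eq_natCast_iff] at hp
    rw [hp, hv]
    exact ha

lemma dir2 {A C : ℕ} (co : A.Coprime C) (hA : A ≠ 0) (hC : C ≠ 0) {a c : ℕ} (ha : a.Coprime A)
    (hc : c.Coprime C) (B : ℕ) : ∃ p : ℕ, B < p ∧ p.Prime ∧ p ≡ a [MOD A] ∧ p ≡ c [MOD C] := by
  obtain ⟨k, k1, k2⟩ := Nat.chineseRemainder co a c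
  have hk : k.Coprime (A * C) := by
    rw [Nat.coprime_mul_iff_right]
    refine ⟨?_, ?_⟩
    · have := k1.gcd_eq
      unfold Nat.Coprime at *
      rw [this]; exact ha
    · have := k2.gcd_eq
      unfold Nat.Coprime at *
      rw [this]; exact hc
  obtain ⟨p, hp, hpp, h⟩ := Nat.forall_exists_prime_gt_and_modEq B (mul_ne_zero hA hC) hk
  exact ⟨p, hp, hpp, (h.of_mul_right C).trans k1, (h.of_mul_left A).trans k2⟩

lemma sq_of_modEq_one {p q : ℕ} (h : p ≡ 1 [MOD q]) : IsSquare ((p : ℕ) : ZMod q) := by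
  rw [← ZMod.natCast_eq_natCast_iff] at h
  rw [h]; exact ⟨1, by push_cast; ring⟩

/-- adding one prime -/
theorem Sys.step {n n' Q B : ℕ} (S : Sys n n' Q B) (hn : Squarefree n) (h30 : n.Coprime 30)
    (hnB : n ≤ B) (hn' : n' ∣ n) {r : ℕ} (hr : r = 1 ∨ (r.Prime ∧ r ∣ n ∧ ¬r ∣ n')) :
    ∃ p : ℕ, p.Prime ∧ ¬p ∣ Q ∧ Sys n (n' * r) (Q * p) B := by
  have hn2 : ¬2 ∣ n := by
    intro h
    have : 2 ∣ Nat.gcd n 30 := Nat.dvd_gcd h (by norm_num)
    rw [h30] at this
    omega
  have hrn : r ∣ n := by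
    rcases hr with rfl | hr
    · exact one_dvd _
    · exact hr.2.1
  obtain ⟨m, hm⟩ := hrn
  have hm0 : m ≠ 0 := by
    rintro rfl
    exact hn.ne_zero (by rw [hm]; simp)
  have hr0 : r ≠ 0 := by
    rintro rfl
    exact hn.ne_zero (by rw [hm]; simp)
  have hcrm : Nat.Coprime m r := by
    have := hn
    rw [hm] at this
    exact (Nat.coprime_of_squarefree_mul this).symm
  have hr120 : Nat.Coprime 120 r := by
    have h1 : Nat.Coprime r 30 := Nat.Coprime.coprime_dvd_left (by rw [hm]; exact Dvd.intro _ rfl) h30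
    have h2 : Nat.Coprime r 2 := Nat.Coprime.coprime_dvd_right (by norm_num) h1
    have h3 : Nat.Coprime r (30 * 2 * 2) := Nat.Coprime.mul_right (Nat.Coprime.mul_right h1 h2) h2
    have h4 : 30 * 2 * 2 = 120 := by norm_num
    rw [h4] at h3
    exact h3.symm
  have hQr : Nat.Coprime Q r := by
    rcases hr with rfl | hr
    · exact Nat.coprime_one_right _
    · rw [Nat.coprime_comm, Nat.Prime.coprime_iff_not_dvd hr.1]
      intro h
      have h1 := S.big r hr.1 h
      have h2 := Nat.le_of_dvd (Nat.pos_of_ne_zero hn.ne_zero) hr.2.1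
      omega
  have co : Nat.Coprime (120 * m * Q) r :=
    Nat.Coprime.mul_left (Nat.Coprime.mul_left hr120 hcrm) hQr
  have hg : ∃ g : ℕ, g.Coprime r ∧ ∀ p : ℕ, p ≡ g [MOD r] →
      (r = 1 ∨ (r.Prime ∧ r ∣ n ∧ ¬r ∣ n' ∧ ¬IsSquare ((p : ℕ) : ZMod r))) := by
    rcases hr with rfl | hr
    · exact ⟨1, Nat.coprime_one_right _, fun p _ => Or.inl rfl⟩
    · obtain ⟨g, g1, g2⟩ := exists_nonsq hr.1 (by rintro rfl; exact hn2 hr.2.1)
      exact ⟨g, g1, fun p hp => Or.inr ⟨hr.1, hr.2.1, hr.2.2, g2 p hp⟩⟩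
  obtain ⟨g, g1, g2⟩ := hg
  obtain ⟨p, hp, hpp, p1, p2⟩ := dir2 co (mul_ne_zero (mul_ne_zero (by norm_num) hm0) S.sf.ne_zero)
    hr0 (Nat.coprime_one_left _) g1 (max B Q)
  have hpB : B < p := lt_of_le_of_lt (le_max_left _ _) hp
  have hpQ : Q < p := lt_of_le_of_lt (le_max_right _ _) hp
  have hpQ' : ¬p ∣ Q := fun h => by
    have := Nat.le_of_dvd (Nat.pos_of_ne_zero S.sf.ne_zero) h
    omega
  refine ⟨p, hpp, hpQ', S.add hn2 hpp hpB hpQ' ?_ ?_ ?_ (g2 p p2) hn'⟩
  · have h1 : p ≡ 1 [MOD 120] := (p1.of_mul_right Q).of_mul_right m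
    exact h1
  · intro q hq hqQ
    apply sq_of_modEq_one
    exact p1.of_dvd (hqQ.mul_left _)
  · intro r' hr' hr'n hne
    apply sq_of_modEq_one
    apply p1.of_dvd
    apply Dvd.dvd.mul_right
    apply Dvd.dvd.mul_left
    rw [hm] at hr'n
    rcases hr'.dvd_mul.1 hr'n with h | h
    · exfalso
      rcases hr with rfl | hr
      · exact hr'.one_lt.ne' (Nat.dvd_one.1 h)
      · exact hne ((Nat.prime_dvd_prime_iff_eq hr' hr.1).1 h)
    · exact h

lemma card_mul_prime {Q p : ℕ} (hQ : Q ≠ 0) (hp : p.Prime) (h : ¬p ∣ Q) :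
    (Q * p).primeFactors.card = Q.primeFactors.card + 1 := by
  rw [Nat.Coprime.primeFactors_mul ((Nat.Prime.coprime_iff_not_dvd hp).2 h).symm,
    Finset.card_union_of_disjoint
      (Nat.Coprime.disjoint_primeFactors ((Nat.Prime.coprime_iff_not_dvd hp).2 h).symm),
    hp.primeFactors, Finset.card_singleton]

theorem exists_sys {n : ℕ} (hn : Squarefree n) (h30 : n.Coprime 30) {B : ℕ} (hnB : n ≤ B)
    (n' : ℕ) (hn' : n' ∣ n) :
    ∃ Q : ℕ, Sys n n' Q B ∧ Q.primeFactors.card = n'.primeFactors.card := by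
  induction n' using Nat.strong_induction_on with
  | _ n' ih =>
    by_cases h1 : n' = 1
    · refine ⟨1, ⟨squarefree_one, ?_, ?_, ?_, ?_, ?_, ?_⟩, by rw [h1]⟩
      · intro q hq h
        exact absurd (Nat.dvd_one.1 h) hq.one_lt.ne'
      · intro q hq h
        exact absurd (Nat.dvd_one.1 h) hq.one_lt.ne'
      · intro q q' hq _ h
        exact absurd (Nat.dvd_one.1 h) hq.one_lt.ne'
      · intro r hr h
        rw [h1] at h
        exact absurd (Nat.dvd_one.1 h) hr.one_lt.ne'
      · intro q hq h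
        exact absurd (Nat.dvd_one.1 h) hq.one_lt.ne'
      · intro r _ _ _ q hq h
        exact absurd (Nat.dvd_one.1 h) hq.one_lt.ne'
    · have hp := Nat.minFac_prime h1
      obtain ⟨r, hr⟩ : ∃ r, r = n'.minFac := ⟨_, rfl⟩
      rw [← hr] at hp
      have hrd : r ∣ n' := by rw [hr]; exact Nat.minFac_dvd n'
      obtain ⟨k, hk⟩ := hrd
      have hn'0 : n' ≠ 0 := by
        rintro rfl
        exact hn.ne_zero (Nat.eq_zero_of_zero_dvd hn')
      have hk0 : k ≠ 0 := by
        rintro rfl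
        exact hn'0 (by rw [hk]; simp)
      have hlt : k < n' := by
        have h2 := hp.two_le
        calc k < 2 * k := by omega
          _ ≤ r * k := Nat.mul_le_mul_right k h2
          _ = n' := hk.symm
      have hkn : k ∣ n := (Dvd.intro_left r hk.symm).trans hn'
      have hrk : ¬r ∣ k := by
        intro h
        have h3 : r * r ∣ n := by
          apply dvd_trans _ hn'
          rw [hk]
          exact mul_dvd_mul_left r h
        exact hp.prime.not_isUnit (hn r h3)
      obtain ⟨Q, S, hQ⟩ := ih k hlt hkn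
      have hrn : r ∣ n := (Dvd.intro k hk.symm).trans hn'
      obtain ⟨p, hpp, hpQ, S'⟩ := S.step hn h30 hnB hkn (Or.inr ⟨hp, hrn, hrk⟩)
      refine ⟨Q * p, ?_, ?_⟩
      · rw [hk, mul_comm r k]; exact S'
      · rw [card_mul_prime S.sf.ne_zero hpp hpQ, hQ, hk, mul_comm r k,
          card_mul_prime hk0 hp hrk]

theorem exists_sys_leaf {n : ℕ} (hn : Squarefree n) (h30 : n.Coprime 30) {B : ℕ} (hnB : n ≤ B)
    (k : ℕ) : ∃ Q : ℕ, Sys n n Q B ∧ Q.primeFactors.card = n.primeFactors.card + k := by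
  induction k with
  | zero => exact exists_sys hn h30 hnB n dvd_rfl
  | succ k ih =>
    obtain ⟨Q, S, hQ⟩ := ih
    obtain ⟨p, hpp, hpQ, S'⟩ := S.step hn h30 hnB dvd_rfl (Or.inl rfl)
    rw [mul_one] at S'
    exact ⟨Q * p, S', by rw [card_mul_prime S.sf.ne_zero hpp hpQ, hQ]; ring⟩

/-- a residue class consisting of non-squares modulo all primes dividing `Q` -/
lemma exists_nonsq_all (Q : ℕ) (hQ : Squarefree Q) (h2 : ¬2 ∣ Q) :
    ∃ c : ℕ, c.Coprime Q ∧ ∀ q : ℕ, q.Prime → q ∣ Q → ∀ p : ℕ, p ≡ c [MOD Q] →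
      ¬IsSquare ((p : ℕ) : ZMod q) := by
  induction Q using Nat.strong_induction_on with
  | _ Q ih =>
    by_cases h1 : Q = 1
    · refine ⟨1, Nat.coprime_one_left _, ?_⟩
      intro q hq h
      rw [h1] at h
      exact absurd (Nat.dvd_one.1 h) hq.one_lt.ne'
    · have hp := Nat.minFac_prime h1
      obtain ⟨r, hr⟩ : ∃ r, r = Q.minFac := ⟨_, rfl⟩
      rw [← hr] at hp
      have hrd : r ∣ Q := by rw [hr]; exact Nat.minFac_dvd Q
      obtain ⟨k, hk⟩ := hrd
      have hk0 : k ≠ 0 := by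
        rintro rfl
        exact hQ.ne_zero (by rw [hk]; simp)
      have hlt : k < Q := by
        have h2 := hp.two_le
        calc k < 2 * k := by omega
          _ ≤ r * k := Nat.mul_le_mul_right k h2
          _ = Q := hk.symm
      have hsk : Squarefree k := hQ.squarefree_of_dvd (Dvd.intro_left r hk.symm)
      have hco : Nat.Coprime r k := by
        rw [hk] at hQ
        exact Nat.coprime_of_squarefree_mul hQ
      obtain ⟨c, c1, c2⟩ := ih k hlt hsk (fun h => h2 (h.trans (Dvd.intro_left r hk.symm)))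
      obtain ⟨g, g1, g2⟩ := exists_nonsq hp (by rintro h; apply h2; rw [hk, h]; exact Dvd.intro k rfl)
      obtain ⟨t, t1, t2⟩ := Nat.chineseRemainder hco g c
      refine ⟨t, ?_, ?_⟩
      · rw [hk, Nat.coprime_mul_iff_right]
        refine ⟨?_, ?_⟩
        · have := t1.gcd_eq
          unfold Nat.Coprime at *
          rw [this]; exact g1
        · have := t2.gcd_eq
          unfold Nat.Coprime at *
          rw [this]; exact c1
      · intro q hq h p hpt
        rw [hk] at h hpt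
        rcases hq.dvd_mul.1 h with h | h
        · obtain rfl : q = r := (Nat.prime_dvd_prime_iff_eq hq hp).1 h
          exact g2 p ((hpt.of_mul_right k).trans t1)
        · exact c2 q hq h p ((hpt.of_mul_left r).trans t2)

/-- the system gives the criterion -/
theorem Sys.crit {n Q B p : ℕ} (S : Sys n n Q B) (hn : Squarefree n) (h30 : n.Coprime 30)
    (hnB : n ≤ B) (hp : p.Prime) (hpB : B < p) (hpQ : ∀ q : ℕ, q.Prime → q ∣ Q →
      ¬IsSquare ((p : ℕ) : ZMod q))
    (h2 : p ≠ 2) (h8 : (n * (Q * p)) % 8 ≠ 1)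
    (h15 : (n * (Q * p)) % 15 = 1 ∨ (n * (Q * p)) % 15 = 2 ∨ (n * (Q * p)) % 15 = 4 ∨
      (n * (Q * p)) % 15 = 8) : Crit (n * (Q * p)) p := by
  have hn2 : ¬2 ∣ n := by
    intro h
    have : 2 ∣ Nat.gcd n 30 := Nat.dvd_gcd h (by norm_num)
    rw [h30] at this
    omega
  have hp0 : ¬p ∣ Q := by
    intro h
    apply hpQ p hp h
    rw [ZMod.natCast_self]
    exact ⟨0, by ring⟩
  have hpn : ¬p ∣ n := fun h => by
    have := Nat.le_of_dvd (Nat.pos_of_ne_zero hn.ne_zero) h
    omega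
  have hnQ : Nat.Coprime n Q := by
    apply Nat.coprime_of_dvd
    intro q hq h1 h3
    have h4 := Nat.le_of_dvd (Nat.pos_of_ne_zero hn.ne_zero) h1
    have h5 := S.big q hq h3
    omega
  have sfQp : Squarefree (Q * p) := by
    rw [Nat.squarefree_mul ((Nat.Prime.coprime_iff_not_dvd hp).2 hp0).symm]
    exact ⟨S.sf, hp.prime.irreducible.squarefree⟩
  have sf : Squarefree (n * (Q * p)) := by
    rw [Nat.squarefree_mul]
    · exact ⟨hn, sfQp⟩
    · exact Nat.Coprime.mul_right hnQ ((Nat.Prime.coprime_iff_not_dvd hp).2 hpn).symm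
  have good : ∀ q : ℕ, q.Prime → q ∣ Q → Good q := fun q hq h => Or.inl (S.s1 q hq h)
  have dvs : ∀ {l : ℕ}, l.Prime → l ∣ n * (Q * p) → l ∣ n ∨ l ∣ Q ∨ l = p := by
    intro l hl h
    rcases hl.dvd_mul.1 h with h | h
    · exact Or.inl h
    · rcases hl.dvd_mul.1 h with h | h
      · exact Or.inr (Or.inl h)
      · exact Or.inr (Or.inr ((Nat.prime_dvd_prime_iff_eq hl hp).1 h))
  have l30 : ∀ {l : ℕ}, l.Prime → l ∣ 30 * (n * (Q * p)) → (l = 2 ∨ l = 3 ∨ l = 5) ∨
      l ∣ n ∨ l ∣ Q ∨ l = p := by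
    intro l hl h
    rcases hl.dvd_mul.1 h with h1 | h1
    · left
      have h30 : l ∣ 2 * 3 * 5 := by simpa using h1
      rcases hl.dvd_mul.1 h30 with h4 | h4
      · rcases hl.dvd_mul.1 h4 with h5 | h5
        · exact Or.inl ((Nat.prime_dvd_prime_iff_eq hl Nat.prime_two).1 h5)
        · exact Or.inr (Or.inl ((Nat.prime_dvd_prime_iff_eq hl Nat.prime_three).1 h5))
      · exact Or.inr (Or.inr ((Nat.prime_dvd_prime_iff_eq hl Nat.prime_five).1 h4))
    · exact Or.inr (dvs hl h1)
  -- no prime divisor of n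
  have keyn : ∀ a : ℤ, Squarefree a → (∀ l : ℕ, l.Prime → (l : ℤ) ∣ a → l ∣ 30 * (n * (Q * p))) →
      ¬(p : ℤ) ∣ a → LC (n * (Q * p)) a → ∀ r : ℕ, r.Prime → r ∣ n → ¬(r : ℤ) ∣ a := by
    intro a ha hs hpa hlc r hr hrn hra
    obtain ⟨q, hq, hqQ, k1, k2, k3, k4⟩ := S.s3 r hr hrn
    have : Fact q.Prime := ⟨hq⟩
    have hgq := good q hq hqQ
    have hm := good_neg_one hq hgq
    have hqd : q ∣ n * (Q * p) := (hqQ.mul_right p).mul_left n
    have hqr : q ≠ r := by
      rintro rfl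
      have h4 := Nat.le_of_dvd (Nat.pos_of_ne_zero hn.ne_zero) hrn
      have h5 := S.big q hq hqQ
      omega
    have hqp' : q ≠ p := by
      rintro rfl
      exact hp0 hqQ
    have sqs : ∀ l : ℕ, l.Prime → l ∣ 30 * (n * (Q * p)) → l ≠ r → l ≠ q → l ≠ p →
        IsSquare ((l : ℕ) : ZMod q) := by
      intro l hl h1 hlr hlq hlp
      rcases l30 hl h1 with h | h | h | h
      · exact small_sq hq hgq h
      · exact k3 l hl h hlr
      · exact S.s2 q l hq hl hqQ h hlq.symm
      · exact absurd h hlp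
    have hl := hlc q hq hqd hgq
    by_cases hqa : (q : ℤ) ∣ a
    · obtain ⟨y, hy⟩ := hqa
      have hqy : ¬(q : ℤ) ∣ y := by
        rw [hy] at ha
        exact sqf_div hq ha
      obtain ⟨δ, hδ⟩ : q ∣ n * (Q * p) := hqd
      have hqδ : ¬q ∣ δ := by
        rintro ⟨t, ht⟩
        exact hq.prime.not_isUnit (sf q ⟨t, by rw [hδ, ht]; ring⟩)
      have h1 := hl.2 y δ hy (by rw [hδ]; push_cast; ring)
      have hry : (r : ℤ) ∣ y := by
        rw [hy] at hra
        rcases (Nat.prime_iff_prime_int.1 hr).dvd_or_dvd hra with h | h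
        · exfalso
          apply hqr
          have : r ∣ q := by exact_mod_cast h
          exact ((Nat.prime_dvd_prime_iff_eq hr hq).1 this).symm
        · exact h
      obtain ⟨y', hy'⟩ := hry
      have hrδ : r ∣ δ := by
        have : r ∣ q * δ := by rw [← hδ]; exact hrn.mul_right _
        rcases hr.dvd_mul.1 this with h | h
        · exact absurd ((Nat.prime_dvd_prime_iff_eq hr hq).1 h).symm hqr
        · exact h
      obtain ⟨δ1, hδ1⟩ := hrδ
      have hpδ : p ∣ δ1 := by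
        have : p ∣ q * (r * δ1) := by
          rw [← hδ1, ← hδ]; exact (Dvd.intro_left Q rfl : p ∣ Q * p).mul_left n
        rcases hp.dvd_mul.1 this with h | h
        · exact absurd ((Nat.prime_dvd_prime_iff_eq hp hq).1 h).symm hqp'
        · rcases hp.dvd_mul.1 h with h | h
          · exfalso
            apply hpn
            rw [(Nat.prime_dvd_prime_iff_eq hp hr).1 h]; exact hrn
          · exact h
      obtain ⟨δ2, hδ2⟩ := hpδ
      have hδ20 : δ2 ≠ 0 := by
        rintro rfl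
        apply sf.ne_zero
        rw [hδ, hδ1, hδ2]; simp
      have hy0 : y' ≠ 0 := by
        rintro rfl
        apply ha.ne_zero
        rw [hy, hy']; simp
      have g1 : IsSquare ((y' : ℤ) : ZMod q) := by
        apply sq_of_primes hm y' hy0
        intro l hl' hly
        have hla : (l : ℤ) ∣ a := by rw [hy, hy']; exact (hly.mul_left _).mul_left _
        apply sqs l hl' (hs l hl' hla)
        · rintro rfl
          have : (l : ℤ) * l ∣ a := by
            rw [hy, hy']
            exact (mul_dvd_mul_left _ hly).mul_left _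
          exact (Nat.prime_iff_prime_int.1 hl').not_isUnit (ha _ this)
        · rintro rfl
          apply hqy
          rw [hy']; exact hly.mul_left _
        · rintro rfl
          exact hpa hla
      have g2 : IsSquare ((δ2 : ℕ) : ZMod q) := by
        apply sq_of_primes_nat δ2 hδ20
        intro l hl' hlδ
        have hld : l ∣ n * (Q * p) := by
          rw [hδ, hδ1, hδ2]
          exact ((hlδ.mul_left _).mul_left _).mul_left _
        apply sqs l hl' (hld.mul_left _)
        · rintro rfl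
          have : l * l ∣ n * (Q * p) := by
            rw [hδ, hδ1, hδ2]
            exact (mul_dvd_mul_left _ (hlδ.mul_left _)).mul_left _
          exact hl'.prime.not_isUnit (sf _ this)
        · rintro rfl
          apply hqδ
          rw [hδ1, hδ2]; exact (hlδ.mul_left _).mul_left _
        · rintro rfl
          have : l * l ∣ n * (Q * l) := by
            rw [hδ, hδ1, hδ2]
            exact ((mul_dvd_mul_left _ hlδ).mul_left _).mul_left _
          exact hl'.prime.not_isUnit (sf _ this)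
      have r0 : ((r : ℕ) : ZMod q) ≠ 0 := by
        rw [Ne, ZMod.natCast_eq_zero_iff]
        intro h
        exact hqr ((Nat.prime_dvd_prime_iff_eq hq hr).1 h)
      have y0 : ((y' : ℤ) : ZMod q) ≠ 0 := by
        rw [Ne, zm]
        intro h
        apply hqy
        rw [hy']; exact h.mul_left _
      have d0 : ((δ2 : ℕ) : ZMod q) ≠ 0 := by
        rw [Ne, ZMod.natCast_eq_zero_iff]
        intro h
        apply hqδ
        rw [hδ1, hδ2]; exact (h.mul_left _).mul_left _
      apply hpQ q hq hqQ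
      apply sq_cancel hq (y := (((r : ℕ) : ZMod q) * ((r : ℕ) : ZMod q)) *
        (((y' : ℤ) : ZMod q) * ((δ2 : ℕ) : ZMod q)))
      · have e : ((p : ℕ) : ZMod q) * ((((r : ℕ) : ZMod q) * ((r : ℕ) : ZMod q)) *
            (((y' : ℤ) : ZMod q) * ((δ2 : ℕ) : ZMod q))) = ((y * (δ : ℤ) : ℤ) : ZMod q) := by
          rw [hy', hδ1, hδ2]; push_cast; ring
        rw [e]; exact h1
      · exact IsSquare.mul ⟨_, rfl⟩ (g1.mul g2)
      · exact mul_ne_zero (mul_ne_zero r0 r0) (mul_ne_zero y0 d0)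
    · have h1 := hl.1 hqa
      obtain ⟨a', ha'⟩ := hra
      have ha'0 : a' ≠ 0 := by
        rintro rfl
        apply ha.ne_zero
        rw [ha']; simp
      have g1 : IsSquare ((a' : ℤ) : ZMod q) := by
        apply sq_of_primes hm a' ha'0
        intro l hl' hly
        have hla : (l : ℤ) ∣ a := by rw [ha']; exact hly.mul_left _
        apply sqs l hl' (hs l hl' hla)
        · rintro rfl
          have : (l : ℤ) * l ∣ a := by
            rw [ha']
            exact mul_dvd_mul_left _ hly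
          exact (Nat.prime_iff_prime_int.1 hl').not_isUnit (ha _ this)
        · rintro rfl
          exact hqa hla
        · rintro rfl
          exact hpa hla
      have a0 : ((a' : ℤ) : ZMod q) ≠ 0 := by
        rw [Ne, zm]
        intro h
        apply hqa
        rw [ha']; exact h.mul_left _
      apply k2
      apply sq_cancel hq (y := ((a' : ℤ) : ZMod q)) _ g1 a0
      have e : ((r : ℕ) : ZMod q) * ((a' : ℤ) : ZMod q) = ((a : ℤ) : ZMod q) := by
        rw [ha']; push_cast; ring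
      rw [e]; exact h1
  refine ⟨sf, hp, (Dvd.intro_left Q rfl : p ∣ Q * p).mul_left n, ?_, h8, h15, ?_, ?_⟩
  · intro h
    rcases dvs Nat.prime_two h with h | h | h
    · exact hn2 h
    · have := S.s1 2 Nat.prime_two h
      omega
    · exact h2 h.symm
  · intro a ha hs hpa hlc l hl hla
    rcases l30 hl (hs l hl hla) with h | h | h | h
    · rcases h with h | h | h
      · exact Or.inl h
      · exact Or.inr (Or.inl h)
      · exact Or.inr (Or.inr (Or.inl h))
    · exact absurd hla (keyn a ha hs hpa hlc l hl h)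
    · exact Or.inr (Or.inr (Or.inr (good l hl h)))
    · rw [h] at hla
      exact absurd hla hpa
  · intro a ha hs hpa hlc hsq
    by_contra ha1
    have haz : Squarefree (a : ℤ) := Int.squarefree_natCast.2 ha
    have hpz : ¬(p : ℤ) ∣ (a : ℤ) := fun h => hpa (by exact_mod_cast h)
    have hsz : ∀ l : ℕ, l.Prime → (l : ℤ) ∣ (a : ℤ) → l ∣ 30 * (n * (Q * p)) := by
      intro l hl h
      exact (hs l hl (by exact_mod_cast h)).1.mul_left _
    have hnr := keyn a haz hsz hpz hlc
    have onQ : ∀ l : ℕ, l.Prime → l ∣ a → l ∣ Q := by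
      intro l hl hla
      rcases dvs hl (hs l hl hla).1 with h | h | h
      · exact absurd (by exact_mod_cast hla) (hnr l hl h)
      · exact h
      · rw [h] at hla
        exact absurd hla hpa
    obtain ⟨l, hl, hla⟩ := Nat.exists_prime_and_dvd ha1
    have hlQ := onQ l hl hla
    have : Fact l.Prime := ⟨hl⟩
    obtain ⟨y, hy⟩ := hla
    have hly : ¬l ∣ y := by
      rintro ⟨t, ht⟩
      exact hl.prime.not_isUnit (ha l ⟨t, by rw [hy, ht]; ring⟩)
    have hy0 : y ≠ 0 := by
      rintro rfl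
      exact ha.ne_zero (by rw [hy]; simp)
    rcases S.s4 l hl hlQ with h | ⟨r, hr, hrn, k3, k4⟩
    · have hqd : l ∣ n * (Q * p) := (hlQ.mul_right p).mul_left n
      have hgl := good l hl hlQ
      obtain ⟨Q', hQ'⟩ := hlQ
      have hlQ' : ¬l ∣ Q' := by
        rintro ⟨t, ht⟩
        exact hl.prime.not_isUnit (S.sf l ⟨t, by rw [hQ', ht]; ring⟩)
      have hln : ¬l ∣ n := by
        intro h'
        apply hl.prime.not_isUnit
        apply sf l
        exact mul_dvd_mul h' (by rw [hQ', mul_assoc]; exact Dvd.intro _ rfl)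
      have hQ'0 : Q' ≠ 0 := by
        rintro rfl
        exact S.sf.ne_zero (by rw [hQ']; simp)
      have h1 := (hlc l hl hqd hgl).2 y ((n * (Q' * p) : ℕ)) (by rw [hy]; push_cast; ring)
        (by rw [hQ']; push_cast; ring)
      have g1 : IsSquare ((y : ℕ) : ZMod l) := by
        apply sq_of_primes_nat y hy0
        intro l' hl' hl'y
        have h3 : l' ∣ Q := onQ l' hl' (by rw [hy]; exact hl'y.mul_left _)
        apply S.s2 l l' hl hl' (by rw [hQ']; exact Dvd.intro _ rfl) h3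
        rintro rfl
        exact hly hl'y
      have g2 : IsSquare ((n : ℕ) : ZMod l) := by
        apply sq_of_primes_nat n hn.ne_zero
        intro l' hl' hl'n
        exact h l' hl' hl'n
      have g3 : IsSquare ((Q' : ℕ) : ZMod l) := by
        apply sq_of_primes_nat Q' hQ'0
        intro l' hl' hl'Q
        apply S.s2 l l' hl hl' (by rw [hQ']; exact Dvd.intro _ rfl)
          (by rw [hQ']; exact hl'Q.mul_left _)
        rintro rfl
        exact hlQ' hl'Q
      apply hpQ l hl (by rw [hQ']; exact Dvd.intro _ rfl)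
      apply sq_cancel hl (y := ((y : ℕ) : ZMod l) * (((n : ℕ) : ZMod l) * ((Q' : ℕ) : ZMod l)))
      · have e : ((p : ℕ) : ZMod l) * (((y : ℕ) : ZMod l) * (((n : ℕ) : ZMod l) *
            ((Q' : ℕ) : ZMod l))) = (((y : ℤ) * ((n * (Q' * p) : ℕ) : ℤ) : ℤ) : ZMod l) := by
          push_cast; ring
        rw [e]; exact h1
      · exact g1.mul (g2.mul g3)
      · refine mul_ne_zero ?_ (mul_ne_zero ?_ ?_) <;> rw [Ne, ZMod.natCast_eq_zero_iff]
        · exact hly
        · exact hln
        · exact hlQ'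
    · have : Fact r.Prime := ⟨hr⟩
      have hrd : r ∣ n * (Q * p) := hrn.mul_right _
      have hra : ¬(r : ℤ) ∣ (a : ℤ) := hnr r hr hrn
      have h1 : IsSquare ((a : ℕ) : ZMod r) := by
        by_cases hgr : Good r
        · have := (hlc r hr hrd hgr).1 hra
          exact_mod_cast this
        · exact hsq r hr hrd (Or.inl hgr)
      have g1 : IsSquare ((y : ℕ) : ZMod r) := by
        apply sq_of_primes_nat y hy0
        intro l' hl' hl'y
        apply k4 l' hl' (onQ l' hl' (by rw [hy]; exact hl'y.mul_left _))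
        rintro rfl
        exact hly hl'y
      apply k3
      apply sq_cancel hr (y := ((y : ℕ) : ZMod r)) _ g1
      · rw [Ne, ZMod.natCast_eq_zero_iff]
        intro h3
        apply hra
        have : r ∣ a := by rw [hy]; exact h3.mul_left _
        exact_mod_cast this
      · have e : ((l : ℕ) : ZMod r) * ((y : ℕ) : ZMod r) = ((a : ℕ) : ZMod r) := by
          rw [hy]; push_cast; ring
        rw [e]; exact h1

end Pool.Agent.V7H16.XF
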