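import Mathlib
import Pool.Agent.V7H16.XF.Core
import Pool.Agent.V7H16.XF.Desc

/-! Finiteness of `y² = x (x + 9) (x - 16)` over `ℚ`. -/

set_option autoImplicit false

open WeierstrassCurve

namespace Pool.Agent.V7H16.XF

open Pool.Agent.H437R2.Man.MW

lemma unit_of_no_prime {n : ℤ} (h : ∀ l : ℕ, l.Prime → ¬(l : ℤ) ∣ n) : n = 1 ∨ n = -1 := by
  have h1 : n.natAbs = 1 := by
    rw [Nat.eq_one_iff_not_exists_prime_dvd]
    intro l hl h2
    exact h l hl (Int.natCast_dvd.2 h2)
  omega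

lemma unit_of_sq {n : ℤ} (h : n = 1 ∨ n = -1) (h0 : 0 < n) : n = 1 := by omega

theorem squares1 {x y : ℚ} (hy : y ≠ 0) (h : y ^ 2 = (x + 0) * (x + 9) * (x + (-16))) :
    ∃ (a b : ℤ) (r1 r2 : ℚ), (a = 1 ∨ a = -1) ∧ (b = 1 ∨ b = 5) ∧ x = a * r1 ^ 2 ∧
      x + 9 = b * r2 ^ 2 := by
  have h' : y ^ 2 = x * (x + (-9 * (-1) : ℤ)) * (x + (16 * (-1) : ℤ)) := by
    rw [h]; push_cast; ring
  obtain ⟨a, b, c, s, u, v, w, z, Q, ea, eb, ec⟩ := exists_quad _ _ x y hy h'
  have hp0 : x * (x + (-9 * (-1) : ℤ)) * (x + (16 * (-1) : ℤ)) ≠ 0 := by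
    rw [← h']
    exact pow_ne_zero 2 hy
  have n2 : x + (-9 * (-1) : ℤ) ≠ 0 := fun h0 => hp0 (by rw [h0]; ring)
  have hvr : (v : ℚ) / z ≠ 0 := fun h0 => n2 (by rw [eb, h0]; ring)
  have hypos : 0 < (x + 0) * (x + 9) * (x + (-16)) := by
    rw [← h]; positivity
  have x2 : 0 < x + 9 := by
    by_contra h3
    push Not at h3
    have h1 : x < 0 := by linarith
    have h2 : x + (-16) < 0 := by linarith
    have h4 : 0 < x * (x + (-16)) := mul_pos_of_neg_of_neg h1 h2
    nlinarith
  have hb0 : 0 < b := by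
    have x2' : 0 < x + (-9 * (-1) : ℤ) := by push_cast; linarith
    rw [eb] at x2'
    have := (mul_pos_iff_of_pos_right (by positivity : (0 : ℚ) < (v / z) ^ 2)).1 x2'
    exact_mod_cast this
  obtain ⟨⟨b2, ac2⟩, ⟨c3, ab3⟩, ⟨a5, bc5⟩⟩ := quad_small Q (by norm_num) (by norm_num) (by norm_num)
  have pr3 := Q.pr 3 Nat.prime_three
  have pr5 := Q.pr 5 Nat.prime_five
  push_cast at pr3 pr5
  have L3 := loc3 Q.ha Q.hb Q.hs Q.e12 Q.e13 pr3 (by norm_num) c3 ab3
  have L5 := loc5 Q.hb Q.hc Q.hs Q.e12 Q.e13 pr5 (by norm_num) a5 bc5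
  have n3 : ¬(3 : ℤ) ∣ a := by
    intro h3
    have := (L3.1 h3).2
    revert this
    push_cast
    decide
  have a25 : (a : ZMod 5) ^ 2 = 1 := by
    by_cases h5 : (5 : ℤ) ∣ b
    · exact (L5.1 h5).1
    · rcases L5.2 h5 with h | h
      · exact h
      · rw [h]; push_cast; decide
  have sup : ∀ l : ℕ, l.Prime → ((l : ℤ) ∣ a ∨ (l : ℤ) ∣ b) → l = 2 ∨ l = 3 ∨ l = 5 := by
    intro l hl hh
    have hpar := par Q.ha Q.hb Q.hc Q.hs hl
    obtain ⟨q1, q2, q3⟩ := quad_supp Q hl
    have f9 : (l : ℤ) ∣ 9 * (-1) → l = 3 := by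
      intro h1
      rw [mul_neg_one, dvd_neg] at h1
      have h2 : l ∣ 3 ^ 2 := by
        have : l ∣ 9 := by exact_mod_cast h1
        simpa using this
      exact (Nat.prime_dvd_prime_iff_eq hl Nat.prime_three).1 (hl.dvd_of_dvd_pow h2)
    have f16 : (l : ℤ) ∣ 16 * (-1) → l = 2 := by
      intro h1
      rw [mul_neg_one, dvd_neg] at h1
      have h2 : l ∣ 2 ^ 4 := by
        have : l ∣ 16 := by exact_mod_cast h1
        simpa using this
      exact (Nat.prime_dvd_prime_iff_eq hl Nat.prime_two).1 (hl.dvd_of_dvd_pow h2)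
    have f25 : (l : ℤ) ∣ 25 * (-1) → l = 5 := by
      intro h1
      rw [mul_neg_one, dvd_neg] at h1
      have h2 : l ∣ 5 ^ 2 := by
        have : l ∣ 25 := by exact_mod_cast h1
        simpa using this
      exact (Nat.prime_dvd_prime_iff_eq hl Nat.prime_five).1 (hl.dvd_of_dvd_pow h2)
    by_cases ha : (l : ℤ) ∣ a
    · rcases hpar.1 ha with h1 | h1
      · exact Or.inr (Or.inl (f9 (q1 ⟨ha, h1.1⟩)))
      · exact Or.inl (f16 (q2 ⟨ha, h1.2⟩))
    · have h1 := hpar.2 ha
      rcases hh with h2 | h2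
      · exact absurd h2 ha
      · exact Or.inr (Or.inr (f25 (q3 ⟨h2, h1.1 h2⟩)))
  have n2a : ¬(2 : ℤ) ∣ a := by
    rintro ⟨a', rfl⟩
    have ha' : a' = 1 ∨ a' = -1 := by
      apply unit_of_no_prime
      intro l hl h1
      rcases sup l hl (Or.inl (h1.mul_left 2)) with rfl | rfl | rfl
      · have := sqf_div Nat.prime_two (M := a') (by exact_mod_cast Q.ha)
        exact this h1
      · exact n3 (Dvd.dvd.mul_left (by exact_mod_cast h1) 2)
      · exact a5 (Dvd.dvd.mul_left (by exact_mod_cast h1) 2)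
    rcases ha' with rfl | rfl
    · revert a25; push_cast; decide
    · revert a25; push_cast; decide
  have ha1 : a = 1 ∨ a = -1 := by
    apply unit_of_no_prime
    intro l hl h1
    rcases sup l hl (Or.inl h1) with rfl | rfl | rfl
    · exact n2a (by exact_mod_cast h1)
    · exact n3 (by exact_mod_cast h1)
    · exact a5 (by exact_mod_cast h1)
  have n3b : ¬(3 : ℤ) ∣ b := fun h => n3 (ab3.2 h)
  have hb1 : b = 1 ∨ b = 5 := by
    by_cases h5 : (5 : ℤ) ∣ b
    · right
      obtain ⟨b', rfl⟩ := h5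
      have hb' : b' = 1 ∨ b' = -1 := by
        apply unit_of_no_prime
        intro l hl h1
        rcases sup l hl (Or.inr (h1.mul_left 5)) with rfl | rfl | rfl
        · exact b2 (Dvd.dvd.mul_left (by exact_mod_cast h1) 5)
        · exact n3b (Dvd.dvd.mul_left (by exact_mod_cast h1) 5)
        · have := sqf_div Nat.prime_five (M := b') (by exact_mod_cast Q.hb)
          exact this h1
      have := unit_of_sq hb' (by omega)
      rw [this]; norm_num
    · left
      apply unit_of_sq _ hb0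
      apply unit_of_no_prime
      intro l hl h1
      rcases sup l hl (Or.inr h1) with rfl | rfl | rfl
      · exact b2 (by exact_mod_cast h1)
      · exact n3b (by exact_mod_cast h1)
      · exact h5 (by exact_mod_cast h1)
  refine ⟨a, b, u / z, v / z, ha1, hb1, ea, ?_⟩
  rw [← eb]; push_cast; ring

lemma third {x y r1 r2 k1 k2 k3 : ℚ} (hy : y ≠ 0) (h : y ^ 2 = (x + k1) * (x + k2) * (x + k3))
    (h1 : x + k1 = r1 ^ 2) (h2 : x + k2 = r2 ^ 2) : x + k3 = (y / (r1 * r2)) ^ 2 := by
  have hp0 : (x + k1) * (x + k2) * (x + k3) ≠ 0 := by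
    rw [← h]
    exact pow_ne_zero 2 hy
  have m1 : r1 ≠ 0 := by
    rintro rfl
    apply hp0
    rw [h1]; ring
  have m2 : r2 ≠ 0 := by
    rintro rfl
    apply hp0
    rw [h2]; ring
  rw [div_pow, eq_div_iff (pow_ne_zero 2 (mul_ne_zero m1 m2)), h, h1, h2]
  ring

lemma four_helper {A : Type*} [AddCommGroup A] {P P' Q : A} (h1 : (4 : ℤ) • P' = 0)
    (h2 : P + P' = Q + Q) : (4 : ℤ) • P = (2 * 4 : ℤ) • Q := by
  have e : (4 : ℤ) • P = (4 : ℤ) • (P + P') - (4 : ℤ) • P' := by
    rw [smul_add]; abel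
  rw [e, h1, h2, sub_zero, ← two_zsmul, ← mul_smul]
  norm_num

lemma four_of_two {A : Type*} [AddCommGroup A] {P : A} (h1 : P + P = 0) : (4 : ℤ) • P = 0 := by
  rw [show (4 : ℤ) = 2 * 2 by norm_num, mul_smul, two_zsmul P, h1, smul_zero]

lemma tors16 (h : (crv (0 : ℚ) 9 (-16)).toAffine.Nonsingular 16 0) :
    Affine.Point.some 16 0 h + Affine.Point.some 16 0 h = 0 := by
  apply Affine.Point.add_of_Y_eq rfl
  simp [Affine.negY, crv]

lemma dbl {x y : ℚ} (h : (crv (0 : ℚ) 9 (-16)).toAffine.Nonsingular x y) (hy : y ≠ 0)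
    (l : ℚ) (hl : 3 * x ^ 2 + 2 * (-7) * x - 144 = l * (2 * y)) (hx : l ^ 2 + 7 - 2 * x = 16)
    (hyy : l * (16 - x) + y = 0) :
    (4 : ℤ) • (Affine.Point.some x y h : Pt (0 : ℚ) 9 (-16)) = 0 := by
  have hT : (crv (0 : ℚ) 9 (-16)).toAffine.Nonsingular 16 0 := by
    apply crv_nonsing (by norm_num) (by norm_num) (by norm_num)
    norm_num
  have hne : y ≠ (crv (0 : ℚ) 9 (-16)).toAffine.negY x y := by
    simp only [Affine.negY, crv]
    intro h0
    apply hy
    linarith
  have hslope : (crv (0 : ℚ) 9 (-16)).toAffine.slope x x y y = l := by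
    rw [Affine.slope_of_Y_ne rfl hne]
    simp only [Affine.negY, crv]
    rw [div_eq_iff (by intro h0; apply hy; linarith)]
    linear_combination hl
  have e : Affine.Point.some x y h + Affine.Point.some x y h = Affine.Point.some 16 0 hT := by
    rw [Affine.Point.add_self_of_Y_ne hne]
    simp only [Affine.Point.some.injEq]
    rw [hslope]
    have hX : (crv (0 : ℚ) 9 (-16)).toAffine.addX x x l = 16 := by
      simp only [Affine.addX, crv]
      linear_combination hx
    refine ⟨hX, ?_⟩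
    rw [Affine.addY, Affine.negAddY, hX]
    simp only [Affine.negY, crv]
    linear_combination -hyy
  rw [show (4 : ℤ) = 2 * 2 by norm_num, mul_smul, two_zsmul (Affine.Point.some x y h), e,
    two_zsmul, tors16]

theorem desc_1 (P : Pt (0 : ℚ) 9 (-16)) : ∃ Q : Pt (0 : ℚ) 9 (-16), (4 : ℤ) • P = (2 * 4 : ℤ) • Q := by
  have h12 : (0 : ℚ) ≠ 9 := by norm_num
  have h13 : (0 : ℚ) ≠ -16 := by norm_num
  have h23 : (9 : ℚ) ≠ -16 := by norm_num
  match P with
  | 0 => exact ⟨0, by simp⟩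
  | .some x y h =>
    have q := crv_eqn.mp h.1
    by_cases hy : y = 0
    · subst hy
      refine ⟨0, ?_⟩
      rw [smul_zero]
      apply four_of_two
      apply Affine.Point.add_of_Y_eq rfl
      simp [Affine.negY, crv]
    · have hy2 : (x + 0) * (x + 9) * (x + (-16)) ≠ 0 := by
        rw [← q]
        exact pow_ne_zero 2 hy
      have n1 : x + 0 ≠ 0 := fun h0 => hy2 (by rw [h0]; ring)
      have n2 : x + 9 ≠ 0 := fun h0 => hy2 (by rw [h0]; ring)
      have n3 : x + (-16) ≠ 0 := fun h0 => hy2 (by rw [h0]; ring)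
      obtain ⟨a, b, r1, r2, ha, hb, e1, e2⟩ := squares1 hy q
      have m1 : r1 ≠ 0 := by
        rintro rfl
        apply n1
        rw [add_zero, e1]; ring
      have m2 : r2 ≠ 0 := by
        rintro rfl
        apply n2
        rw [e2]; ring
      rcases ha with rfl | rfl <;> rcases hb with rfl | rfl
      · have k1 : x + 0 = r1 ^ 2 := by rw [add_zero, e1]; push_cast; ring
        have k2 : x + 9 = r2 ^ 2 := by rw [e2]; push_cast; ring
        obtain ⟨Q, hQ⟩ := half_of rfl h12 h13 h23 k1 k2 (third hy q k1 k2) h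
        exact ⟨Q, four_helper (P' := 0) (by simp) (by rw [hQ, add_zero])⟩
      · have hU : (crv (0 : ℚ) 9 (-16)).toAffine.Nonsingular 36 180 := by
          apply crv_nonsing h12 h13 h23
          norm_num
        have k1 : (x + 0) * (36 + 0) = (6 * r1) ^ 2 := by rw [add_zero, e1]; push_cast; ring
        have k2 : (x + 9) * (36 + 9) = (15 * r2) ^ 2 := by rw [e2]; push_cast; ring
        have hd : (6 * r1) * (15 * r2) ≠ 0 := by positivity
        have k3 : (x + (-16)) * (36 + (-16)) = (y * 180 / ((6 * r1) * (15 * r2))) ^ 2 := by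
          rw [div_pow, eq_div_iff (pow_ne_zero 2 hd), mul_pow, ← k1, ← k2, mul_pow, q]
          ring
        obtain ⟨Q, hQ⟩ := add_double h12 h13 h23 h hU (mul_ne_zero (by norm_num) m1)
          (mul_ne_zero (by norm_num) m2) (div_ne_zero (mul_ne_zero hy (by norm_num)) hd) k1 k2 k3
        exact ⟨Q, four_helper (dbl hU (by norm_num) 9 (by norm_num) (by norm_num) (by norm_num))
          hQ.symm⟩
      · obtain ⟨P', Q, k1, k2⟩ := step (f1 := (0 : ℚ)) (f2 := 9) (f3 := -16) rfl h12 h13 h23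
          (fun X => ∃ r1 r2 : ℚ, X + 0 = r1 ^ 2 ∧ X + 9 = r2 ^ 2)
          (fun x' y' hy' h' hX => by
            obtain ⟨r1, r2, g1, g2⟩ := hX
            exact ⟨r1, r2, _, g1, g2, third hy' h' g1 g2⟩) h hy
          (fun X g1 g2 g3 => by
            refine ⟨12 / r1, 3 * y / (r1 ^ 2 * r2), ?_, ?_⟩
            · rw [g1, add_zero, e1]
              push_cast
              field_simp
              norm_num
            · rw [g2, div_pow, mul_pow, q, e2, add_zero, e1]
              push_cast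
              field_simp
              ring)
        exact ⟨Q, four_helper (four_of_two k1) k2⟩
      · have hU : (crv (0 : ℚ) 9 (-16)).toAffine.Nonsingular (-4) 20 := by
          apply crv_nonsing h12 h13 h23
          norm_num
        have k1 : (x + 0) * (-4 + 0) = (2 * r1) ^ 2 := by rw [add_zero, e1]; push_cast; ring
        have k2 : (x + 9) * (-4 + 9) = (5 * r2) ^ 2 := by rw [e2]; push_cast; ring
        have hd : (2 * r1) * (5 * r2) ≠ 0 := by positivity
        have k3 : (x + (-16)) * (-4 + (-16)) = (y * 20 / ((2 * r1) * (5 * r2))) ^ 2 := by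
          rw [div_pow, eq_div_iff (pow_ne_zero 2 hd), mul_pow, ← k1, ← k2, mul_pow, q]
          ring
        obtain ⟨Q, hQ⟩ := add_double h12 h13 h23 h hU (mul_ne_zero (by norm_num) m1)
          (mul_ne_zero (by norm_num) m2) (div_ne_zero (mul_ne_zero hy (by norm_num)) hd) k1 k2 k3
        exact ⟨Q, four_helper (dbl hU (by norm_num) (-1) (by norm_num) (by norm_num) (by norm_num))
          hQ.symm⟩

theorem finite_1 : Finite (Pt (0 : ℚ) 9 (-16)) := by
  exact finite_of_descent (pt_fg (by norm_num) (by norm_num) (by norm_num)) 4 (by norm_num) desc_1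

end Pool.Agent.V7H16.XF
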