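import Mathlib
import Pool.Agent.V7H16.XF.Main
import Pool.Agent.V7H16.XF.Desc

/-! Finiteness of the twisted curve over `ℚ`. -/

set_option autoImplicit false

open WeierstrassCurve

namespace Pool.Agent.V7H16.XF

open Pool.Agent.H437R2.Man.MW

lemma smul_helper {A : Type*} [AddCommGroup A] {P P' Q : A} (h1 : P' + P' = 0) (h2 : P + P' = Q + Q) :
    (2 : ℤ) • P = (2 * 2 : ℤ) • Q := by
  have e : (2 : ℤ) • P = (P + P') + (P + P') - (P' + P') := by
    rw [two_zsmul]; abel
  rw [e, h1, h2, sub_zero, mul_smul, two_zsmul, two_zsmul]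

lemma odd_val_d {d p : ℕ} (H : Crit d p) (k : ℤ) (hk : k ≠ 0) (ε : ℤ) (hε : ε = 1 ∨ ε = -1) :
    Odd (padicValRat p ((ε * k ^ 2 * d : ℤ) : ℚ)) := by
  have : Fact p.Prime := ⟨H.pp⟩
  obtain ⟨m, hm⟩ := H.pd
  have hd : Squarefree (d : ℤ) := Int.squarefree_natCast.2 H.sf
  have hdm : (d : ℤ) = p * (m : ℤ) := by rw [hm]; push_cast; ring
  rw [hdm] at hd
  have hnm := sqf_div H.pp hd
  have hk0 : (k : ℚ) ≠ 0 := by exact_mod_cast hk
  have hm0 : (m : ℚ) ≠ 0 := by
    intro h0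
    apply hnm
    have : m = 0 := by exact_mod_cast h0
    rw [this]; exact dvd_zero _
  have hp0 : (p : ℚ) ≠ 0 := by exact_mod_cast H.pp.ne_zero
  have e : padicValRat p ((ε * k ^ 2 * d : ℤ) : ℚ) = padicValRat p ((k : ℚ) ^ 2 * (p * m)) := by
    rcases hε with rfl | rfl
    · congr 1
      rw [hm]; push_cast; ring
    · rw [← padicValRat.neg]
      congr 1
      rw [hm]; push_cast; ring
  rw [e, padicValRat.mul (pow_ne_zero 2 hk0) (mul_ne_zero hp0 hm0), padicValRat.mul hp0 hm0,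
    padicValRat.pow, padicValRat.self H.pp.one_lt]
  have h2 : padicValRat p (m : ℚ) = 0 := by
    have : padicValRat p ((m : ℤ) : ℚ) = 0 := by
      rw [padicValRat.of_int, padicValInt.eq_zero_of_not_dvd hnm]
      simp
    rw [show ((m : ℕ) : ℚ) = ((m : ℤ) : ℚ) by push_cast; rfl]
    exact this
  rw [h2]
  exact ⟨padicValRat p (k : ℚ), by push_cast; ring⟩

/-- parity bookkeeping for a translation -/
lemma trans_even {p : ℕ} (hp : p.Prime) {x f1 f2 f3 : ℚ} (n1 : x + f1 ≠ 0) (n2 : x + f2 ≠ 0)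
    (n3 : x + f3 ≠ 0) (o2 : Odd (padicValRat p (f2 - f1))) (o3 : Odd (padicValRat p (f3 - f1)))
    (v1 : Even (padicValRat p (x + f1))) (v2 : Odd (padicValRat p (x + f2)))
    (v3 : Odd (padicValRat p (x + f3))) {X : ℚ} (h1 : X + f1 = (f2 - f1) * (f3 - f1) / (x + f1))
    (h2 : X + f2 = (f2 - f1) * (x + f3) / (x + f1)) (h3 : X + f3 = (f3 - f1) * (x + f2) / (x + f1)) :
    Even (padicValRat p (X + f1)) ∧ Even (padicValRat p (X + f2)) ∧
      Even (padicValRat p (X + f3)) := by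
  have : Fact p.Prime := ⟨hp⟩
  have m2 : f2 - f1 ≠ 0 := by
    intro h0
    rw [h0] at o2
    simp at o2
  have m3 : f3 - f1 ≠ 0 := by
    intro h0
    rw [h0] at o3
    simp at o3
  refine ⟨?_, ?_, ?_⟩
  · rw [h1, padicValRat.div (mul_ne_zero m2 m3) n1, padicValRat.mul m2 m3]
    exact (o2.add_odd o3).sub v1
  · rw [h2, padicValRat.div (mul_ne_zero m2 n3) n1, padicValRat.mul m2 n3]
    exact (o2.add_odd v3).sub v1
  · rw [h3, padicValRat.div (mul_ne_zero m3 n2) n1, padicValRat.mul m3 n2]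
    exact (o3.add_odd v2).sub v1

theorem desc_d {d p : ℕ} (H : Crit d p) (P : Pt (0 : ℚ) ((-9 * d : ℤ) : ℚ) ((16 * d : ℤ) : ℚ)) :
    ∃ Q : Pt (0 : ℚ) ((-9 * d : ℤ) : ℚ) ((16 * d : ℤ) : ℚ), (2 : ℤ) • P = (2 * 2 : ℤ) • Q := by
  have hd0 : (0 : ℚ) < d := by exact_mod_cast Nat.pos_of_ne_zero H.sf.ne_zero
  have h12 : (0 : ℚ) ≠ ((-9 * d : ℤ) : ℚ) := by push_cast; intro h; linarith
  have h13 : (0 : ℚ) ≠ ((16 * d : ℤ) : ℚ) := by push_cast; intro h; linarith
  have h23 : ((-9 * d : ℤ) : ℚ) ≠ ((16 * d : ℤ) : ℚ) := by push_cast; intro h; linarith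
  have o12 : Odd (padicValRat p (((-9 * d : ℤ) : ℚ) - 0)) := by
    have := odd_val_d H 3 (by norm_num) (-1) (Or.inr rfl)
    convert this using 2
    push_cast; ring
  have o21 : Odd (padicValRat p (0 - ((-9 * d : ℤ) : ℚ))) := by
    have := odd_val_d H 3 (by norm_num) 1 (Or.inl rfl)
    convert this using 2
    push_cast; ring
  have o13 : Odd (padicValRat p (((16 * d : ℤ) : ℚ) - 0)) := by
    have := odd_val_d H 4 (by norm_num) 1 (Or.inl rfl)
    convert this using 2
    push_cast; ring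
  have o31 : Odd (padicValRat p (0 - ((16 * d : ℤ) : ℚ))) := by
    have := odd_val_d H 4 (by norm_num) (-1) (Or.inr rfl)
    convert this using 2
    push_cast; ring
  have o23 : Odd (padicValRat p (((16 * d : ℤ) : ℚ) - ((-9 * d : ℤ) : ℚ))) := by
    have := odd_val_d H 5 (by norm_num) 1 (Or.inl rfl)
    convert this using 2
    push_cast; ring
  have o32 : Odd (padicValRat p (((-9 * d : ℤ) : ℚ) - ((16 * d : ℤ) : ℚ))) := by
    have := odd_val_d H 5 (by norm_num) (-1) (Or.inr rfl)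
    convert this using 2
    push_cast; ring
  obtain ⟨e2, he2⟩ : ∃ e2, e2 = ((-9 * d : ℤ) : ℚ) := ⟨_, rfl⟩
  obtain ⟨e3, he3⟩ : ∃ e3, e3 = ((16 * d : ℤ) : ℚ) := ⟨_, rfl⟩
  have main : ∀ x' y' : ℚ, y' ≠ 0 → y' ^ 2 = (x' + 0) * (x' + e2) * (x' + e3) →
      (Even (padicValRat p (x' + 0)) ∧ Even (padicValRat p (x' + e2))) →
      ∃ r1 r2 r3 : ℚ, x' + 0 = r1 ^ 2 ∧ x' + e2 = r2 ^ 2 ∧ x' + e3 = r3 ^ 2 := by
    intro x' y' hy' h' hev
    rw [add_zero] at hev h' ⊢
    rw [he2, he3] at h'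
    rw [he2] at hev
    rw [he2, he3]
    exact squares H hy' h' hev.1 hev.2
  rw [← he2, ← he3] at o23 o32 h23
  rw [← he2] at o12 o21 h12
  rw [← he3] at o13 o31 h13
  revert P
  rw [← he2, ← he3]
  intro P
  match P with
  | 0 => exact ⟨0, by simp⟩
  | .some x y h =>
    have q := crv_eqn.mp h.1
    by_cases hy : y = 0
    · subst hy
      refine ⟨0, ?_⟩
      rw [smul_zero, two_zsmul]
      apply Affine.Point.add_of_Y_eq rfl
      simp [Affine.negY, crv]
    · have hy2 : (x + 0) * (x + e2) * (x + e3) ≠ 0 := by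
        rw [← q]
        exact pow_ne_zero 2 hy
      have n1 : x + 0 ≠ 0 := fun h0 => hy2 (by rw [h0]; ring)
      have n2 : x + e2 ≠ 0 := fun h0 => hy2 (by rw [h0]; ring)
      have n3 : x + e3 ≠ 0 := fun h0 => hy2 (by rw [h0]; ring)
      have hfact : Fact p.Prime := ⟨H.pp⟩
      have hsum : padicValRat p (x + 0) + padicValRat p (x + e2) + padicValRat p (x + e3) =
          2 * padicValRat p y := by
        rw [← padicValRat.mul n1 n2, ← padicValRat.mul (mul_ne_zero n1 n2) n3, ← q,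
          padicValRat.pow]
        push_cast; ring
      rcases Int.even_or_odd (padicValRat p (x + 0)) with v1 | v1 <;>
        rcases Int.even_or_odd (padicValRat p (x + e2)) with v2 | v2
      · obtain ⟨r1, r2, r3, k1, k2, k3⟩ := main x y hy q ⟨v1, v2⟩
        obtain ⟨Q, hQ⟩ := half_of rfl h12 h13 h23 k1 k2 k3 h
        exact ⟨Q, smul_helper (P' := 0) (by simp) (by rw [hQ, add_zero])⟩
      · have v3 : Odd (padicValRat p (x + e3)) := by
          rw [Int.odd_iff] at v2 ⊢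
          rw [Int.even_iff] at v1
          omega
        obtain ⟨P', Q, k1, k2⟩ := step (f1 := 0) (f2 := e2) (f3 := e3) rfl h12 h13 h23
          (fun X => Even (padicValRat p (X + 0)) ∧ Even (padicValRat p (X + e2))) main h hy
          (fun X g1 g2 g3 => by
            have := trans_even H.pp n1 n2 n3 o12 o13 v1 v2 v3 g1 g2 g3
            exact ⟨this.1, this.2.1⟩)
        exact ⟨Q, smul_helper k1 k2⟩
      · have v3 : Odd (padicValRat p (x + e3)) := by
          rw [Int.odd_iff] at v1 ⊢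
          rw [Int.even_iff] at v2
          omega
        obtain ⟨P', Q, k1, k2⟩ := step (f1 := e2) (f2 := 0) (f3 := e3) (crv_swap12 _ _ _)
          h12.symm h23 h13
          (fun X => Even (padicValRat p (X + 0)) ∧ Even (padicValRat p (X + e2)))
          (fun x' y' hy' h' hev => by
            obtain ⟨r1, r2, r3, k1, k2, k3⟩ := main x' y' hy' (by rw [h']; ring) hev
            exact ⟨r2, r1, r3, k2, k1, k3⟩) h hy
          (fun X g1 g2 g3 => by
            have := trans_even H.pp n2 n1 n3 o21 o23 v2 v1 v3 g1 g2 g3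
            exact ⟨this.2.1, this.1⟩)
        exact ⟨Q, smul_helper k1 k2⟩
      · have v3 : Even (padicValRat p (x + e3)) := by
          rw [Int.odd_iff] at v1 v2
          rw [Int.even_iff]
          omega
        obtain ⟨P', Q, k1, k2⟩ := step (f1 := e3) (f2 := e2) (f3 := 0) (crv_swap13 _ _ _)
          h23.symm h13.symm h12.symm
          (fun X => Even (padicValRat p (X + 0)) ∧ Even (padicValRat p (X + e2)))
          (fun x' y' hy' h' hev => by
            obtain ⟨r1, r2, r3, k1, k2, k3⟩ := main x' y' hy' (by rw [h']; ring) hev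
            exact ⟨r3, r2, r1, k3, k2, k1⟩) h hy
          (fun X g1 g2 g3 => by
            have := trans_even H.pp n3 n2 n1 o32 o31 v3 v2 v1 g1 g2 g3
            exact ⟨this.2.2, this.2.1⟩)
        exact ⟨Q, smul_helper k1 k2⟩

theorem finite_d {d p : ℕ} (H : Crit d p) :
    Finite (Pt (0 : ℚ) ((-9 * d : ℤ) : ℚ) ((16 * d : ℤ) : ℚ)) := by
  have hd0 : (0 : ℚ) < d := by exact_mod_cast Nat.pos_of_ne_zero H.sf.ne_zero
  have h12 : (0 : ℚ) ≠ ((-9 * d : ℤ) : ℚ) := by push_cast; intro h; linarith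
  have h13 : (0 : ℚ) ≠ ((16 * d : ℤ) : ℚ) := by push_cast; intro h; linarith
  have h23 : ((-9 * d : ℤ) : ℚ) ≠ ((16 * d : ℤ) : ℚ) := by push_cast; intro h; linarith
  exact finite_of_descent (pt_fg h12 h13 h23) 2 (by norm_num) (desc_d H)

end Pool.Agent.V7H16.XF
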