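import Mathlib
import Pool.Agent.V7H16.XF.OverK
import Pool.Agent.V7H16.XF.RankD
import Pool.Agent.V7H16.XF.Rank1
import Pool.Agent.V7H16.XF.Exist

/-! The modular curve `X_0(15)` over imaginary quadratic fields. -/

set_option autoImplicit false

open WeierstrassCurve

namespace Pool.Agent.V7H16.XF

open Pool.Agent.H437R2.Man.MW

/-- The modular curve `X_0(15)`, as the elliptic curve `y² + xy + y = x³ + x² - 10x - 10`
(Cremona label 15a1). -/
def X015 (K : Type) [Field K] : WeierstrassCurve K := ⟨1, 1, 1, -10, -10⟩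

theorem fin_crit {d p : ℕ} (H : Crit d p) (K : Type) [Field K] [NumberField K]
    (h2 : Module.finrank ℚ K = 2) (hs : ∃ s : K, s ^ 2 = -(d : K)) :
    Finite (X015 K).toAffine.Point := by
  classical
  obtain ⟨s, hs⟩ := hs
  have hf := finite_K h2 (Nat.pos_of_ne_zero H.sf.ne_zero) hs finite_1 (finite_d H)
  have hWK : (crv (0 : ℚ) 9 (-16)).baseChange K = crv (0 : K) 9 (-16) := by
    rw [base_crv]
    simp
  have hX : Pool.Agent.Y700.VR (crv (0 : K) 9 (-16)) (X015 K) 2 4 1 4 := by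
    refine ⟨two_ne_zero, ?_, ?_, ?_, ?_, ?_⟩ <;> simp only [crv, X015] <;> ring
  have hΔ : (X015 K).Δ ≠ 0 := by
    have e : (X015 K).Δ = 50625 := by
      simp only [WeierstrassCurve.Δ, WeierstrassCurve.b₂, WeierstrassCurve.b₄,
        WeierstrassCurve.b₆, WeierstrassCurve.b₈, X015]
      ring
    rw [e]
    norm_num
  have hf' : Finite (crv (0 : K) 9 (-16)).toAffine.Point := by
    rw [← hWK]; exact hf
  exact Finite.of_equiv _ (hX.equiv hΔ).symm.toEquiv

theorem existence (n M h t N : ℕ) (hn : Squarefree n) (h30 : n.Coprime 30) (hM : 120 ∣ M)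
    (hM0 : 0 < M) (hh : h.Coprime M) (h8 : (n * h) % 8 ≠ 1)
    (h15 : (n * h) % 15 = 1 ∨ (n * h) % 15 = 2 ∨ (n * h) % 15 = 4 ∨ (n * h) % 15 = 8)
    (ht : n.primeFactors.card < t) :
    ∃ e : ℕ, N < e ∧ e ≡ h [MOD M] ∧ Squarefree (n * e) ∧ e.primeFactors.card = t ∧
      ∃ p : ℕ, Crit (n * e) p := by
  obtain ⟨B, hB⟩ : ∃ B, B = n + M + N + 2 := ⟨_, rfl⟩
  obtain ⟨Q, S, hQ⟩ := exists_sys_leaf hn h30 (B := B) (by omega) (t - 1 - n.primeFactors.card)
  have hQ2 : ¬2 ∣ Q := by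
    intro h
    have := S.s1 2 Nat.prime_two h
    omega
  obtain ⟨c, c1, c2⟩ := exists_nonsq_all Q S.sf hQ2
  have hMQ : Nat.Coprime M Q := by
    apply Nat.coprime_of_dvd
    intro q hq h1 h3
    have h4 := Nat.le_of_dvd hM0 h1
    have h5 := S.big q hq h3
    omega
  obtain ⟨g, hg⟩ := Nat.exists_mul_mod_eq_of_coprime h hMQ.symm hM0.ne'
  have hgQ : Q * g ≡ h [MOD M] := hg.2
  have hgM : g.Coprime M := by
    have h1 : Nat.Coprime (Q * g) M := by
      have := hgQ.gcd_eq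
      unfold Nat.Coprime at *
      rw [this]; exact hh
    exact Nat.Coprime.coprime_mul_left h1
  obtain ⟨p, hp, hpp, p1, p2⟩ := dir2 hMQ hM0.ne' S.sf.ne_zero hgM c1 (B + Q)
  have hpQ : ¬p ∣ Q := fun h => by
    have := Nat.le_of_dvd (Nat.pos_of_ne_zero S.sf.ne_zero) h
    omega
  have hmod : Q * p ≡ h [MOD M] := (Nat.ModEq.mul_left Q p1).trans hgQ
  have hmod' : n * (Q * p) ≡ n * h [MOD M] := Nat.ModEq.mul_left n hmod
  have hm8 : (n * (Q * p)) % 8 = (n * h) % 8 := hmod'.of_dvd ((by norm_num : 8 ∣ 120).trans hM)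
  have hm15 : (n * (Q * p)) % 15 = (n * h) % 15 := hmod'.of_dvd ((by norm_num : 15 ∣ 120).trans hM)
  have hcrit : Crit (n * (Q * p)) p := S.crit hn h30 (by omega) hpp (by omega)
    (fun q hq hqQ => c2 q hq hqQ p p2) (by omega) (by rw [hm8]; exact h8) (by rw [hm15]; exact h15)
  refine ⟨Q * p, ?_, hmod, hcrit.sf, ?_, p, hcrit⟩
  · have : 0 < Q := Nat.pos_of_ne_zero S.sf.ne_zero
    calc N < p := by omega
      _ ≤ Q * p := Nat.le_mul_of_pos_left p this
  · rw [card_mul_prime S.sf.ne_zero hpp hpQ, hQ]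
    omega

end Pool.Agent.V7H16.XF
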